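import Pool.Agent.H88.L.H914R2.StdDefs

/-!
# The standard conjecture of Hodge type: definitions
-/

open CategoryTheory AlgebraicGeometry Polynomial

universe u v

namespace Pool.Agent.H914

section Alg

variable {K : Type*} [Field K] [CharZero K] {V : Type*} [AddCommGroup V] [Module K V]
  {A : Type*} [Ring A] [Algebra K A]

/-- On the subspace `U` the operator `F` is annihilated by a nonzero polynomial with rational
coefficients all of whose complex roots have the square `w` of the absolute value. -/
def HasWeight (F : Module.End K V) (U : Submodule K V) (w : ℝ) : Prop :=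
  ∃ P : ℚ[X], P ≠ 0 ∧ (∀ a ∈ U, aeval F (P.map (algebraMap ℚ K)) a = 0) ∧
    ∀ z : ℂ, aeval z P = 0 → ‖z‖ ^ 2 = w

/-- The elements `a` with `tr (a c) = 0` for all `c` in `C`. -/
def orthCompl (tr : A →ₗ[K] K) (C : Set A) : Submodule K A :=
  ⨅ c ∈ C, LinearMap.ker (tr ∘ₗ LinearMap.mulRight K c)

/-- The subspace `U` is stable under the operator `F`, and the characteristic polynomials of all
the powers of the restriction of `F` to it are squarefree. -/
def SimpleOn [Module.Finite K V] (F : Module.End K V) (U : Submodule K V) : Prop :=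
  ∃ h : ∀ a ∈ U, F a ∈ U, ∀ m ≥ 1, Squarefree ((F.restrict h) ^ m).charpoly

end Alg

open VarClass Obj WeilCohomology

variable {k : Type u} [Field k] {𝒱 : VarClass k} {ops : CycleOps 𝒱}

/-- The cycle `D ^ i · z`. -/
noncomputable def divPow (ops : CycleOps 𝒱) {X : 𝒱.Obj} (D : X.Cycles) (i : ℕ) (z : X.Cycles) :
    X.Cycles :=
  (ops.mul D)^[i] z

/-- The conjecture `A(X)` of Lefschetz type, for the divisor `D` on `X`: for `2 j ≤ n = dim X`,
every algebraic class of codimension `n - j` is the product of `D ^ (n - 2 j)` with an algebraic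
class of codimension `j`. -/
def LefschetzA (W : WeilCohomology.{u, v} ops) (X : 𝒱.Obj) (D : X.Cycles) : Prop :=
  ∀ j, 2 * j ≤ X.dim → ∀ z, X.IsCyc (X.dim - j) z →
    ∃ z', X.IsCyc j z' ∧ W.cl X (divPow ops D (X.dim - 2 * j) z') = W.cl X z

/-- The standard conjecture of Hodge type for `X` and the divisor `D`: for `2 j ≤ n = dim X` and
every cycle `z` of codimension `j` whose class is primitive and not zero, the sign of the
intersection number `z · z · D ^ (n - 2 j)` is `(-1) ^ j`. -/
def HodgeType (W : WeilCohomology.{u, v} ops) (X : 𝒱.Obj) (D : X.Cycles) : Prop :=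
  ∀ j, 2 * j ≤ X.dim → ∀ z, X.IsCyc j z → W.cl X (divPow ops D (X.dim - 2 * j + 1) z) = 0 →
    W.cl X z ≠ 0 →
    0 < (-1 : ℚ) ^ j * X.V.degCycle (ops.mul z (divPow ops D (X.dim - 2 * j) z))

/-- The divisor `D × X + X × D` on `X × X`. -/
noncomputable def boxSum (ops : CycleOps 𝒱) {X : 𝒱.Obj} (D : X.Cycles) : (X.prod X).Cycles :=
  ops.pull (fst X X) D + ops.pull (snd X X) D

/-- The endomorphism `f × f` of `X × X`. -/
noncomputable def squareMap {X : 𝒱.Obj} (f : X ⟶ X) : X.prod X ⟶ X.prod X :=
  Obj.lift (fst X X ≫ f) (snd X X ≫ f)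

/-- The endomorphism `f` of `X` acts on the algebraic classes like a Frobenius endomorphism
relative to the field with `q` elements: for every cycle `z` of codimension `j` there is `m ≥ 1`
such that the `m`-th iterate of `f` multiplies the class of `z` by `q ^ (m j)`. -/
def FrobeniusOnCycles (W : WeilCohomology.{u, v} ops) (X : 𝒱.Obj) (f : X ⟶ X) (q : ℕ) : Prop :=
  ∀ j, ∀ z, X.IsCyc j z → ∃ m ≥ 1,
    W.cl X ((ops.pull f)^[m] z) = (q : W.K) ^ (m * j) • W.cl X z

/-- The Riemann hypothesis for the endomorphism `f` of `X`: on `H^i(X)` the endomorphism `f^*` is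
annihilated by a nonzero polynomial with rational coefficients all of whose complex roots have
absolute value `q ^ (i / 2)`. -/
def RiemannHypothesis (W : WeilCohomology.{u, v} ops) (X : 𝒱.Obj) (f : X ⟶ X) (q : ℕ) : Prop :=
  ∀ i, HasWeight (W.map f).toLinearMap (W.gr X i) ((q : ℝ) ^ i)

/-- The algebraic classes of codimension `j`. -/
def algClasses (W : WeilCohomology.{u, v} ops) (X : 𝒱.Obj) (j : ℕ) : Set (W.H X) :=
  {c | ∃ z, X.IsCyc j z ∧ W.cl X z = c}

/-- The transcendental cohomology of `X`: the orthogonal complement of all algebraic classes in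
the whole cohomology. -/
def transcendental (W : WeilCohomology.{u, v} ops) (X : 𝒱.Obj) : Submodule W.K (W.H X) :=
  orthCompl (W.tr X) (⋃ j, algClasses W X j)

/-- All powers of `f^*` have simple spectrum on the transcendental cohomology. -/
def SimpleSpectrum (W : WeilCohomology.{u, v} ops) (X : 𝒱.Obj) (f : X ⟶ X) : Prop :=
  SimpleOn (W.map f).toLinearMap (transcendental W X)

/-- The standard conjecture of Kunneth type for `X`: all Kunneth projectors are algebraic. -/
def KunnethStd (W : WeilCohomology.{u, v} ops) (X : 𝒱.Obj) : Prop :=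
  ∀ i, ∃ P, (X.prod X).IsCyc X.dim P ∧ InducesProjector W X i P

end Pool.Agent.H914
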