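import Pool.Agent.H88.L.H914R2.KDesc

/-!
# Descent of the coefficients: the Lambda operator
-/

open Polynomial Finset

namespace Pool.Agent.H914

variable {K : Type*} [Field K] [CharZero K] {V : Type*} [AddCommGroup V] [Module K V]
  {gr : ℕ → Submodule K V} {n : ℕ} {L : Module.End K V}

namespace OpAlg

variable {R : ℤ → Module.End K V → Prop} (hR : OpAlg gr R)

include hR

/-- **Descent for the Lambda operator.** -/
theorem descent [Module.Finite K V] (h : DirectSum.IsInternal gr)
    (hbd : ∀ i, 2 * n + 1 ≤ i → gr i = ⊥)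
    (hstr : ∀ y, R 0 y → ∃ q : ℚ, LinearMap.trace K V (par h * y) = q)
    (hL : R 1 L) (hHL : HardLef gr n L)
    (hν : ∀ c ≤ n, ∃ ν ∈ KS R (-c), ∀ a ∈ gr (n + c), ν a = 0 → a = 0) :
    ∃ Φ, R (-1) Φ ∧ IsLam gr n L Φ := by
  obtain ⟨ret, hret⟩ := exists_retract K
  have hLh : IsHom gr 2 L := by simpa using hR.hom hL
  have hLK : L ∈ KS R 1 := Submodule.subset_span hL
  -- the Lambda operator in the `K`-span
  obtain ⟨Phi, hPhiR, hPhi⟩ := hR.kspan.exists_lam h hbd hLK hHL (fun c hc => by
    obtain ⟨ν, hν, hinj⟩ := hν c hc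
    exact hR.exists_theta_of_inj hLK hHL hc hν hinj)
  -- the projectors
  obtain ⟨c, hcR, hchom, N, hN⟩ := hR.exists_twisted_weight h hbd hstr hL hHL hPhiR hPhi
  have hproj : ∀ i, R 0 (proj h i) := by
    intro i
    by_cases hi : i < 2 * n + 1
    · rw [← ev_herm_of_nilp h hbd hchom hN (Finset.mem_range.2 hi)]
      exact hR.ev hcR _
    · have : proj h i = 0 := by
        apply gr_ext h
        intro j a ha
        by_cases hj : j = i
        · subst hj
          rw [hbd j (by omega)] at ha
          rw [(Submodule.mem_bot _).1 ha, map_zero, map_zero]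
        · rw [proj_ne h ha hj, LinearMap.zero_apply]
      rw [this]
      exact hR.zero 0
  apply hR.exists_lam h hbd hL hHL
  intro c hc
  set P := proj h (n - c) with hP
  have hPR : R 0 P := hproj (n - c)
  have hPP : P * P = P := proj_mul_proj h (n - c)
  have hThR : Phi ^ c ∈ KS R (-c) := hR.kspan.cast (hR.kspan.pow hPhiR c) (by ring)
  have hTh : ∀ a, (Phi ^ c) ((L ^ c) (P a)) = P a := fun a =>
    lam_pow_L_pow hLh hbd hHL hPhi hc (H914.proj_mem h _ a)
  obtain ⟨z, hzR, hz⟩ := hR.exists_twist h hstr (ret := ret) hThR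
  have hLc : R c (L ^ c) := hR.cast (hR.pow hL c) (by ring)
  set g := P * z * L ^ c * P with hg
  have hgR : R 0 g :=
    hR.cast (hR.mul (hR.mul (hR.mul hPR hzR) hLc) hPR) (by ring)
  set u := g - P with hu
  have huR : R 0 u := hR.sub hgR hPR
  have hPu : P * u = u := by
    rw [hu, mul_sub, hPP, hg, ← mul_assoc, ← mul_assoc, ← mul_assoc, hPP]
  have huP : u * P = u := by
    rw [hu, sub_mul, hPP, hg, mul_assoc, hPP]
  have hparP : par h * P = (-1 : K) ^ (n - c) • P := by
    apply LinearMap.ext
    intro a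
    rw [Module.End.mul_apply, par, scal_apply h _ (H914.proj_mem h _ a), LinearMap.smul_apply]
  have hunil : IsNilpotent u := by
    apply isNilpotent_of_trace_pow
    intro r
    have hur : R 0 (u ^ r) := hR.cast (hR.pow huR r) (by ring)
    have e1 : LinearMap.trace K V (par h * u ^ (r + 1)) =
        (-1 : K) ^ (n - c) * LinearMap.trace K V (u ^ (r + 1)) := by
      have : u ^ (r + 1) = P * u ^ (r + 1) := by rw [pow_succ', ← mul_assoc, hPu]
      rw [this, ← mul_assoc, hparP, smul_mul_assoc, map_smul, smul_eq_mul]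
    obtain ⟨q, hq⟩ := hstr (P * u ^ r) (hR.cast (hR.mul hPR hur) (by ring))
    have e2 : LinearMap.trace K V (par h * u ^ (r + 1)) = 0 := by
      have e3 : u ^ (r + 1) = P * (z * (L ^ c * (P * u ^ r))) - P * u ^ r := by
        rw [pow_succ']
        nth_rewrite 1 [hu]
        rw [sub_mul, hg]
        simp only [mul_assoc]
      have hx : R 0 (z * (L ^ c * (P * u ^ r))) :=
        hR.cast (hR.mul hzR (hR.mul hLc (hR.mul hPR hur))) (by ring)
      have e4 : LinearMap.trace K V (par h * (P * (z * (L ^ c * (P * u ^ r))))) = q := by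
        rw [str_comm h (hR.hom hPR), mul_assoc z, hz]
        · have : Phi ^ c * (L ^ c * (P * u ^ r) * P) = P * u ^ r * P := by
            apply LinearMap.ext
            intro a
            simp only [Module.End.mul_apply]
            exact hTh _
          rw [this, ← str_comm h (hR.hom hPR), ← mul_assoc P P, hPP, hq, ret_ratCast hret]
        · exact hR.cast (hR.mul (hR.mul hLc (hR.mul hPR hur)) hPR) (by ring)
      rw [e3, mul_sub, map_sub, e4, hq, sub_self]
    rw [e2] at e1
    rcases mul_eq_zero.1 e1.symm with h0 | h0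
    · exact absurd h0 (pow_ne_zero _ (by norm_num))
    · exact h0
  obtain ⟨M, hM⟩ := hunil
  refine ⟨(∑ r ∈ range M, (-u) ^ r) * (P * z), ?_, ?_⟩
  · have h1 : R 0 (∑ r ∈ range M, (-u) ^ r) := by
      apply hR.sum
      intro r _
      exact hR.cast (hR.pow (hR.neg huR) r) (by ring)
    exact hR.cast (hR.mul h1 (hR.mul hPR hzR)) (by ring)
  · intro a ha
    have ha' : P a = a := proj_same h ha
    have e1 : (P * z) ((L ^ c) a) = (1 - -u) a := by
      have : (1 - -u) a = a + g a - P a := by
        rw [hu]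
        simp only [LinearMap.sub_apply, LinearMap.neg_apply, Module.End.one_apply]
        abel
      rw [this, ha', add_sub_cancel_left, hg]
      simp only [Module.End.mul_apply, ha']
    rw [Module.End.mul_apply, e1, ← Module.End.mul_apply, geom_sum_mul_neg, neg_pow, hM, mul_zero,
      sub_zero, Module.End.one_apply]

end OpAlg

end Pool.Agent.H914
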