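import Pool.Agent.H88.L.H914R2.KCorr
import Pool.Agent.H88.L.H914R2.KDesc2
import Pool.Agent.H88.L.H914R2.KDefs2

/-!
# The Lefschetz standard conjecture with coefficients
-/

open CategoryTheory AlgebraicGeometry Finset

universe u v

namespace Pool.Agent.H914

open VarClass Obj WeilCohomology

variable {k : Type u} [Field k] {𝒱 : VarClass k} {ops : CycleOps 𝒱}

/-- The operators of degree `d` induced by algebraic correspondences with rational
coefficients. -/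
def ROp (W : WeilCohomology.{u, v} ops) (X : 𝒱.Obj) (d : ℤ) (y : Module.End W.K (W.H X)) : Prop :=
  ∃ Y, Realized ops X d Y ∧ Y W = y

variable {W : WeilCohomology.{u, v} ops} {X Y Z : 𝒱.Obj}

lemma rop_opAlg : OpAlg (W.gr X) (ROp W X) where
  one := ⟨_, Realized.one, rfl⟩
  zero d := ⟨_, Realized.zero d, rfl⟩
  add := by
    rintro d _ _ ⟨Y, hY, rfl⟩ ⟨Y', hY', rfl⟩
    exact ⟨_, hY.add hY', rfl⟩
  smul := by
    rintro q d _ ⟨Y, hY, rfl⟩
    exact ⟨_, hY.smul q, rfl⟩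
  mul := by
    rintro d e _ _ ⟨Y, hY, rfl⟩ ⟨Y', hY', rfl⟩
    exact ⟨_, hY.mul hY', rfl⟩
  hom := by
    rintro d _ ⟨Y, hY, rfl⟩
    exact hY.isHom W

lemma rop_str (y : Module.End W.K (W.H X)) (hy : ROp W X 0 y) :
    ∃ q : ℚ, LinearMap.trace W.K (W.H X) (par (W.isInternal X) * y) = q := by
  obtain ⟨Y, hY, rfl⟩ := hy
  obtain ⟨q, hq, -⟩ := (relOp_pairRel X W W).tr ⟨Y, hY, rfl, rfl⟩
  exact ⟨q, hq⟩

lemma mem_KS_iff {d : ℤ} {y : Module.End W.K (W.H X)} :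
    y ∈ KS (ROp W X) d ↔ y ∈ KOp W X X d := by
  constructor
  · intro hy
    induction hy using Submodule.span_induction with
    | mem x hx =>
      obtain ⟨Y, ⟨q, hq, z, hz, hY⟩ | ⟨hd, hY⟩, rfl⟩ := hx
      · rw [hY]; exact KOp.gen hq hz
      · rw [hY]; exact Submodule.zero_mem _
    | zero => exact Submodule.zero_mem _
    | add x y _ _ hx hy => exact Submodule.add_mem _ hx hy
    | smul a x _ hx => exact Submodule.smul_mem _ _ hx
  · intro hy
    induction hy using Submodule.span_induction with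
    | mem x hx =>
      obtain ⟨p, hp, z, hz, rfl⟩ := hx
      exact Submodule.subset_span ⟨fun W => W.corr (W.cl _ z),
        Or.inl ⟨p, hp, z, hz, fun _ => rfl⟩, rfl⟩
    | zero => exact Submodule.zero_mem _
    | add x y _ _ hx hy => exact Submodule.add_mem _ hx hy
    | smul a x _ hx => exact Submodule.smul_mem _ _ hx

lemma rop_mulLeft {D : X.Cycles} (hD : X.IsCyc 1 D) :
    ROp W X 1 (LinearMap.mulLeft W.K (W.cl X D)) :=
  ⟨_, (Realized.mulLeft hD).cast Nat.cast_one, rfl⟩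

/-- The conjecture in terms of the algebra of operators. -/
lemma lefschetzB_iff_rop {D : X.Cycles} :
    LefschetzB W X D ↔
      ∃ Φ, ROp W X (-1) Φ ∧ IsLam (W.gr X) X.dim (LinearMap.mulLeft W.K (W.cl X D)) Φ := by
  constructor
  · rintro ⟨z, hz, hLam⟩
    by_cases hn : 1 ≤ X.dim
    · exact ⟨_, ⟨fun W => W.corr (W.cl _ z), Or.inl ⟨X.dim - 1, by omega, z, hz, fun _ => rfl⟩,
        rfl⟩, hLam⟩
    · refine ⟨0, rop_opAlg.zero _, ?_⟩
      intro i hi a _ _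
      refine ⟨rfl, fun j hj => ?_⟩
      omega
  · rintro ⟨Φ, ⟨Y, ⟨q, hq, z, hz, hY⟩ | ⟨hd, hY⟩, rfl⟩, hLam⟩
    · obtain rfl : q = X.dim - 1 := by omega
      refine ⟨z, hz, ?_⟩
      rw [hY] at hLam
      exact hLam
    · refine ⟨0, SmVar.IsCyc.zero _ _, ?_⟩
      rw [hY] at hLam
      rw [InducesLambda, map_zero, corr_zero]
      exact hLam

lemma W_hbd (i : ℕ) (hi : 2 * X.dim + 1 ≤ i) : W.gr X i = ⊥ :=
  W.gr_eq_bot X i (by omega)

/-- The Lefschetz standard conjecture holds if there are `K`-linear combinations of algebraic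
correspondences which are injective in the complementary degrees. -/
theorem lefschetzB_of_inj {D : X.Cycles} (hD : X.IsCyc 1 D) (hHL : HardLefschetz W X D)
    (hν : ∀ c ≤ X.dim, ∃ ν ∈ KOp W X X (-c), ∀ a ∈ W.gr X (X.dim + c), ν a = 0 → a = 0) :
    LefschetzB W X D := by
  rw [lefschetzB_iff_rop]
  apply rop_opAlg.descent (W.isInternal X) W_hbd rop_str (rop_mulLeft hD) hHL
  intro c hc
  obtain ⟨ν, hν, hinj⟩ := hν c hc
  exact ⟨ν, mem_KS_iff.2 hν, hinj⟩

/-- The converse: the powers of the Lambda operator are injective in the complementary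
degrees. -/
theorem inj_of_lam {D : X.Cycles} (hD : X.IsCyc 1 D) (hHL : HardLefschetz W X D)
    {Φ : Module.End W.K (W.H X)} (hΦ : Φ ∈ KOp W X X (-1))
    (hLam : IsLam (W.gr X) X.dim (LinearMap.mulLeft W.K (W.cl X D)) Φ) :
    ∀ c ≤ X.dim, ∃ ν ∈ KOp W X X (-c), ∀ a ∈ W.gr X (X.dim + c), ν a = 0 → a = 0 := by
  intro c hc
  have hLh : IsHom (W.gr X) 2 (LinearMap.mulLeft W.K (W.cl X D)) := by
    simpa using rop_opAlg.hom (rop_mulLeft (W := W) hD)
  refine ⟨Φ ^ c, ?_, ?_⟩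
  · rw [← mem_KS_iff] at hΦ ⊢
    exact rop_opAlg.kspan.cast (rop_opAlg.kspan.pow hΦ c) (by ring)
  · intro a ha h0
    obtain ⟨b, hb, hb'⟩ := (hHL (X.dim - c) (by omega)).2 a
      (by rw [show 2 * X.dim - (X.dim - c) = X.dim + c by omega]; exact ha)
    rw [show X.dim - (X.dim - c) = c by omega] at hb'
    rw [← hb', lam_pow_L_pow hLh W_hbd hHL hLam hc hb] at h0
    rw [← hb', h0, map_zero]

theorem inj_of_lefschetzB {D : X.Cycles} (hD : X.IsCyc 1 D) (hHL : HardLefschetz W X D)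
    (hB : LefschetzB W X D) :
    ∀ c ≤ X.dim, ∃ ν ∈ KOp W X X (-c), ∀ a ∈ W.gr X (X.dim + c), ν a = 0 → a = 0 := by
  obtain ⟨Φ, hΦ, hLam⟩ := lefschetzB_iff_rop.1 hB
  exact inj_of_lam hD hHL (mem_KS_iff.1 (Submodule.subset_span hΦ)) hLam

/-- **Descent of coefficients for the Lefschetz standard conjecture.** -/
theorem lefschetzB_tfae {D : X.Cycles} (hD : X.IsCyc 1 D) (hHL : HardLefschetz W X D) :
    List.TFAE [LefschetzB W X D, LefschetzBSpan W X D, ∀ c ≤ X.dim, SpanInjective W X c] := by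
  tfae_have 1 → 2 := by
    intro hB
    obtain ⟨Φ, hΦ, hLam⟩ := lefschetzB_iff_rop.1 hB
    obtain ⟨γ, hγ, rfl⟩ := mem_KOp_iff.1 (mem_KS_iff.1 (Submodule.subset_span hΦ))
    exact ⟨γ, hγ, hLam⟩
  tfae_have 2 → 3 := by
    rintro ⟨γ, hγ, hLam⟩ c hc
    obtain ⟨ν, hν, hinj⟩ := inj_of_lam hD hHL (mem_KOp_iff.2 ⟨γ, hγ, rfl⟩) hLam c hc
    obtain ⟨δ, hδ, rfl⟩ := mem_KOp_iff.1 hν
    exact ⟨δ, hδ, hinj⟩
  tfae_have 3 → 1 := by
    intro h
    apply lefschetzB_of_inj hD hHL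
    intro c hc
    obtain ⟨γ, hγ, hinj⟩ := h c hc
    exact ⟨W.corr γ, mem_KOp_iff.2 ⟨γ, hγ, rfl⟩, hinj⟩
  tfae_finish

end Pool.Agent.H914
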