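import Pool.Agent.H88.L.H914R2.PDefs
import Pool.Agent.H88.L.H914R2.ExtOp
import Pool.Agent.H88.L.H914R2.GFrob
import Pool.Agent.H88.L.H914R2.Sl2Rep

/-!
# The Lefschetz representation on a product
-/

open CategoryTheory AlgebraicGeometry Finset
open IsNilpotent (exp exp_eq_sum)

universe u v

namespace Pool.Agent.H914

section Ring

variable {A : Type*} [Ring A]

lemma Sl2.add {h e f h' e' f' : A} (t : Sl2 h e f) (t' : Sl2 h' e' f')
    (hhe : Commute h e') (hhf : Commute h f') (heh : Commute e h')
    (hef : Commute e f') (hfh : Commute f h') (hfe : Commute f e') :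
    Sl2 (h + h') (e + e') (f + f') where
  ef := by
    rw [← t.ef, ← t'.ef]
    calc (e + e') * (f + f') - (f + f') * (e + e')
        = (e * f - f * e) + (e' * f' - f' * e') + (e * f' - f' * e) - (f * e' - e' * f) := by
          noncomm_ring
      _ = _ := by rw [hef.eq, hfe.eq]; noncomm_ring
  he := by
    have h1 := t.he
    have h2 := t'.he
    calc (h + h') * (e + e') - (e + e') * (h + h')
        = (h * e - e * h) + (h' * e' - e' * h') + (h * e' - e' * h) - (e * h' - h' * e) := by
          noncomm_ring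
      _ = _ := by rw [h1, h2, hhe.eq, heh.eq]; noncomm_ring
  hf := by
    have h1 := t.hf
    have h2 := t'.hf
    calc (h + h') * (f + f') - (f + f') * (h + h')
        = (h * f - f * h) + (h' * f' - f' * h') + (h * f' - f' * h) - (f * h' - h' * f) := by
          noncomm_ring
      _ = _ := by rw [h1, h2, hhf.eq, hfh.eq]; noncomm_ring

lemma Sl2.map {B : Type*} [Ring B] (g : A →+* B) {h e f : A} (t : Sl2 h e f) :
    Sl2 (g h) (g e) (g f) where
  ef := by rw [← t.ef, map_sub, map_mul, map_mul]
  he := by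
    have := congrArg g t.he
    rw [map_sub, map_mul, map_mul, two_mul, map_add] at this
    rw [this, two_mul]
  hf := by
    have := congrArg g t.hf
    rw [map_sub, map_mul, map_mul, two_mul, map_neg, map_add] at this
    rw [this, two_mul]

variable [Module ℚ A]

lemma exp_commute {a b : A} (ha : IsNilpotent a) (hb : IsNilpotent b) (h : Commute a b) :
    Commute (exp a) (exp b) := by
  obtain ⟨N, hN⟩ := ha
  obtain ⟨M, hM⟩ := hb
  rw [exp_eq_sum hN, exp_eq_sum hM]
  apply Commute.sum_left
  intro i _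
  apply Commute.sum_right
  intro j _
  exact ((h.pow_pow i j).smul_left _).smul_right _

lemma weyl_add {e f e' f' : A} (he : IsNilpotent e) (hf : IsNilpotent f) (he' : IsNilpotent e')
    (hf' : IsNilpotent f') (hee : Commute e e') (hef : Commute e f') (hfe : Commute f e')
    (hff : Commute f f') : weyl (e + e') (f + f') = weyl e f * weyl e' f' := by
  have c1 : Commute (exp e') (exp (-f)) := exp_commute he' hf.neg hfe.symm.neg_right
  have c2 : Commute (exp e') (exp e) := exp_commute he' he hee.symm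
  have c3 : Commute (exp (-f')) (exp e) := exp_commute hf'.neg he hef.symm.neg_left
  rw [weyl, weyl, weyl, IsNilpotent.exp_add_of_commute hee he he', neg_add,
    IsNilpotent.exp_add_of_commute (hff.neg_left.neg_right) hf.neg hf'.neg]
  calc exp e * exp e' * (exp (-f) * exp (-f')) * (exp e * exp e')
      = exp e * (exp e' * exp (-f)) * (exp (-f') * exp e) * exp e' := by simp only [mul_assoc]
    _ = exp e * (exp (-f) * exp e') * (exp e * exp (-f')) * exp e' := by rw [c1.eq, c3.eq]
    _ = exp e * exp (-f) * (exp e' * exp e) * exp (-f') * exp e' := by simp only [mul_assoc]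
    _ = exp e * exp (-f) * (exp e * exp e') * exp (-f') * exp e' := by rw [c2.eq]
    _ = _ := by simp only [mul_assoc]

lemma weyl_map {B : Type*} [Ring B] [Module ℚ B] (g : A →+* B) {e f : A} (he : IsNilpotent e)
    (hf : IsNilpotent f) : g (weyl e f) = weyl (g e) (g f) := by
  rw [weyl, weyl, map_mul, map_mul, IsNilpotent.map_exp he, IsNilpotent.map_exp hf.neg, map_neg]

end Ring

section Wey

variable {K : Type*} [Field K] [CharZero K] {V : Type*} [AddCommGroup V] [Module K V]

/-- The Weyl operator of a pair of endomorphisms. -/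
noncomputable def wey (e f : Module.End K V) : Module.End K V :=
  @weyl _ _ (Module.compHom (Module.End K V) (algebraMap ℚ K)) e f

variable [Module.Finite K V] {h e f : Module.End K V} (t : Sl2 h e f)

include t

lemma wey_e : wey e f * e = -(f * wey e f) := by
  let _ : Module ℚ (Module.End K V) := Module.compHom (Module.End K V) (algebraMap ℚ K)
  exact t.weyl_e t.nil_e t.nil_f

lemma wey_f : wey e f * f = -(e * wey e f) := by
  let _ : Module ℚ (Module.End K V) := Module.compHom (Module.End K V) (algebraMap ℚ K)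
  exact t.weyl_f t.nil_e t.nil_f

lemma wey_lowest {v : V} {m : ℕ} (hv : f v = 0) (hμ : h v = -(m : K) • v) :
    wey e f v = ((m.factorial : K)⁻¹) • (e ^ m) v := by
  let _ : Module ℚ V := Module.compHom V (algebraMap ℚ K)
  rw [← t.weyl_lowest hv hμ, wey]

end Wey

open VarClass Obj WeilCohomology

variable {k : Type u} [Field k] {𝒱 : VarClass k} {ops : CycleOps 𝒱}
  {W : WeilCohomology.{u, v} ops} {Y Z : 𝒱.Obj}

/-- Operators on the first factor. -/
noncomputable def extL (W : WeilCohomology.{u, v} ops) (Y Z : 𝒱.Obj) :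
    Module.End W.K (W.H Y) →+* Module.End W.K (W.H (Y.prod Z)) where
  toFun φ := extOp W φ 1
  map_one' := extOp_one
  map_mul' φ φ' := by rw [extOp_mul, one_mul]
  map_zero' := extOp_zero_left 1
  map_add' φ φ' := extOp_add_left φ φ' 1

/-- Operators on the second factor. -/
noncomputable def extR (W : WeilCohomology.{u, v} ops) (Y Z : 𝒱.Obj) :
    Module.End W.K (W.H Z) →+* Module.End W.K (W.H (Y.prod Z)) where
  toFun φ := extOp W 1 φ
  map_one' := extOp_one
  map_mul' φ φ' := by rw [extOp_mul, one_mul]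
  map_zero' := extOp_zero_right 1
  map_add' φ φ' := extOp_add_right 1 φ φ'

lemma extL_apply (φ : Module.End W.K (W.H Y)) : extL W Y Z φ = extOp W φ 1 := rfl
lemma extR_apply (φ : Module.End W.K (W.H Z)) : extR W Y Z φ = extOp W 1 φ := rfl

lemma extLR (φ : Module.End W.K (W.H Y)) (ψ : Module.End W.K (W.H Z)) :
    extL W Y Z φ * extR W Y Z ψ = extOp W φ ψ := by
  rw [extL_apply, extR_apply, extOp_mul, one_mul, mul_one]

lemma ext_commute (φ : Module.End W.K (W.H Y)) (ψ : Module.End W.K (W.H Z)) :
    Commute (extL W Y Z φ) (extR W Y Z ψ) := by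
  change extL W Y Z φ * extR W Y Z ψ = extR W Y Z ψ * extL W Y Z φ
  rw [extLR, extL_apply, extR_apply, extOp_mul, one_mul, mul_one]

/-- The sum of the operators on the two factors. -/
noncomputable def extSum (W : WeilCohomology.{u, v} ops) {Y Z : 𝒱.Obj}
    (φ : Module.End W.K (W.H Y)) (ψ : Module.End W.K (W.H Z)) :
    Module.End W.K (W.H (Y.prod Z)) := extL W Y Z φ + extR W Y Z ψ

lemma extSum_tmul (φ : Module.End W.K (W.H Y)) (ψ : Module.End W.K (W.H Z)) (a : W.H Y)
    (b : W.H Z) : extSum W φ ψ (W.map (fst Y Z) a * W.map (snd Y Z) b) =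
      W.map (fst Y Z) (φ a) * W.map (snd Y Z) b + W.map (fst Y Z) a * W.map (snd Y Z) (ψ b) := by
  rw [extSum, LinearMap.add_apply, extL_apply, extR_apply, extOp_tmul, extOp_tmul,
    Module.End.one_apply, Module.End.one_apply]

lemma sl2_prod {h e f : Module.End W.K (W.H Y)} {h' e' f' : Module.End W.K (W.H Z)}
    (t : Sl2 h e f) (t' : Sl2 h' e' f') : Sl2 (extSum W h h') (extSum W e e') (extSum W f f') :=
  (t.map (extL W Y Z)).add (t'.map (extR W Y Z)) (ext_commute _ _) (ext_commute _ _)
    (ext_commute _ _) (ext_commute _ _) (ext_commute _ _) (ext_commute _ _)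

lemma wey_prod {e f : Module.End W.K (W.H Y)} {e' f' : Module.End W.K (W.H Z)}
    (he : IsNilpotent e) (hf : IsNilpotent f) (he' : IsNilpotent e') (hf' : IsNilpotent f') :
    wey (extSum W e e') (extSum W f f') = extOp W (wey e f) (wey e' f') := by
  let _ : Module ℚ (Module.End W.K (W.H (Y.prod Z))) :=
    Module.compHom (Module.End W.K (W.H (Y.prod Z))) (algebraMap ℚ W.K)
  let _ : Module ℚ (Module.End W.K (W.H Y)) :=
    Module.compHom (Module.End W.K (W.H Y)) (algebraMap ℚ W.K)
  let _ : Module ℚ (Module.End W.K (W.H Z)) :=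
    Module.compHom (Module.End W.K (W.H Z)) (algebraMap ℚ W.K)
  rw [← extLR]
  change weyl (extL W Y Z e + extR W Y Z e') (extL W Y Z f + extR W Y Z f') =
    extL W Y Z (weyl e f) * extR W Y Z (weyl e' f')
  rw [weyl_map (extL W Y Z) he hf, weyl_map (extR W Y Z) he' hf']
  exact weyl_add (he.map _) (hf.map _) (he'.map _) (hf'.map _) (ext_commute _ _)
    (ext_commute _ _) (ext_commute _ _) (ext_commute _ _)

/-- The weight operator on a product. -/
lemma wt_prod (Y Z : 𝒱.Obj) : wt (W.isInternal (Y.prod Z)) (Y.prod Z).dim =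
    extSum W (wt (W.isInternal Y) Y.dim) (wt (W.isInternal Z) Z.dim) := by
  apply LinearMap.ext
  intro c
  refine W.kunneth_induction (p := fun c => wt (W.isInternal (Y.prod Z)) (Y.prod Z).dim c =
    extSum W (wt (W.isInternal Y) Y.dim) (wt (W.isInternal Z) Z.dim) c) ?_ ?_ c
  · intro a b ha hb
    rw [map_add, map_add, ha, hb]
  · intro i j a ha b hb
    rw [extSum_tmul, wt, wt, wt, scal_apply _ _ (W.mul_mem (W.map_mem _ ha) (W.map_mem _ hb)),
      scal_apply _ _ ha, scal_apply _ _ hb, map_smul, map_smul, smul_mul_assoc, mul_smul_comm,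
      ← add_smul]
    congr 1
    rw [node, node, node, dim_prod]
    push_cast
    ring

/-- Multiplication by the class of the divisor on a product. -/
lemma mulLeft_prod {D : Y.Cycles} {E : Z.Cycles} (hE : Z.IsCyc 1 E) :
    LinearMap.mulLeft W.K (W.cl (Y.prod Z) (ops.pull (fst Y Z) D + ops.pull (snd Y Z) E)) =
      extSum W (LinearMap.mulLeft W.K (W.cl Y D)) (LinearMap.mulLeft W.K (W.cl Z E)) := by
  apply ext_kunneth_lin
  intro a b
  have hE' : W.cl Z E ∈ W.gr Z (2 * 1) := W.cl_mem hE
  rw [extSum_tmul, LinearMap.mulLeft_apply, LinearMap.mulLeft_apply, LinearMap.mulLeft_apply,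
    map_add, W.cl_pull, W.cl_pull, add_mul, map_mul, map_mul, ← mul_assoc, ← mul_assoc,
    W.even_comm (W.map_mem (snd Y Z) hE') (W.map (fst Y Z) a), mul_assoc (W.map (fst Y Z) a)]

/-- The external product of operators, with the sign of the super tensor product. -/
noncomputable def extS (W : WeilCohomology.{u, v} ops) {Y Z : 𝒱.Obj}
    (S : Module.End W.K (W.H Y)) (S' : Module.End W.K (W.H Z)) :
    Module.End W.K (W.H (Y.prod Z)) :=
  (2 : W.K)⁻¹ • (extOp W S S' + extOp W (S * par (W.isInternal Y)) S' +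
    extOp W S (S' * par (W.isInternal Z)) -
    extOp W (S * par (W.isInternal Y)) (S' * par (W.isInternal Z)))

lemma extS_tmul (S : Module.End W.K (W.H Y)) (S' : Module.End W.K (W.H Z)) {i j : ℕ}
    {a : W.H Y} (ha : a ∈ W.gr Y i) {b : W.H Z} (hb : b ∈ W.gr Z j) :
    extS W S S' (W.map (fst Y Z) a * W.map (snd Y Z) b) =
      (-1 : W.K) ^ (i * j) • (W.map (fst Y Z) (S a) * W.map (snd Y Z) (S' b)) := by
  have e1 : par (W.isInternal Y) a = (-1 : W.K) ^ i • a := by rw [par, scal_apply _ _ ha]
  have e2 : par (W.isInternal Z) b = (-1 : W.K) ^ j • b := by rw [par, scal_apply _ _ hb]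
  rw [extS, LinearMap.smul_apply, LinearMap.sub_apply, LinearMap.add_apply, LinearMap.add_apply,
    extOp_tmul, extOp_tmul, extOp_tmul, extOp_tmul, Module.End.mul_apply, Module.End.mul_apply,
    e1, e2, map_smul, map_smul, map_smul, map_smul, smul_mul_assoc, mul_smul_comm,
    smul_mul_assoc, mul_smul_comm, smul_smul]
  set x := W.map (fst Y Z) (S a) * W.map (snd Y Z) (S' b)
  have e3 : x + (-1 : W.K) ^ i • x + (-1 : W.K) ^ j • x - ((-1 : W.K) ^ i * (-1 : W.K) ^ j) • x =
      (1 + (-1 : W.K) ^ i + (-1 : W.K) ^ j - (-1 : W.K) ^ i * (-1 : W.K) ^ j) • x := by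
    rw [sub_smul, add_smul, add_smul, one_smul]
  rw [e3, smul_smul]
  congr 1
  rw [pow_mul]
  rcases Nat.even_or_odd i with hi | hi <;> rcases Nat.even_or_odd j with hj | hj
  · rw [hi.neg_one_pow, hj.neg_one_pow, one_pow]; norm_num
  · rw [hi.neg_one_pow, hj.neg_one_pow, one_pow]; norm_num
  · rw [hi.neg_one_pow, hj.neg_one_pow]; norm_num
  · rw [hi.neg_one_pow, hj.neg_one_pow]; norm_num

end Pool.Agent.H914
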