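import Pool.Agent.H88.L.H914R2.GConv

/-!
# The Riemann hypothesis from the conjecture of Hodge type for `X × X`, continued
-/

open CategoryTheory AlgebraicGeometry Finset Polynomial

universe u v

namespace Pool.Agent.H914

open VarClass Obj WeilCohomology

variable {k : Type u} [Field k] {𝒱 : VarClass k} {ops : CycleOps 𝒱}
  {W : WeilCohomology.{u, v} ops} {X Y Z : 𝒱.Obj}

lemma map_isHom (φ : X ⟶ X) : IsHom (W.gr X) 0 (W.map φ).toLinearMap := by
  have := rop_opAlg.hom (rop_map (W := W) φ)
  simpa using this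

lemma gr_map (φ : X ⟶ X) {i : ℕ} {a : W.H X} (ha : a ∈ W.gr X i) : W.map φ a ∈ W.gr X i :=
  W.map_mem φ ha

lemma gr_push (φ : X ⟶ X) {i : ℕ} {a : W.H X} (ha : a ∈ W.gr X i) : W.push φ a ∈ W.gr X i := by
  have := W.push_mem φ ha
  rwa [sub_self, mul_zero, add_zero, grZ_natCast] at this

/-- Evaluation of polynomials at an operator which is a multiple of another one on a stable
subspace. -/
lemma ev_smul_on {K : Type*} [Field K] [CharZero K] {V : Type*} [AddCommGroup V] [Module K V]
    {F G : Module.End K V} {U : Submodule K V} (hG : ∀ a ∈ U, G a ∈ U) {c : ℚ}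
    (h : ∀ a ∈ U, F a = (c : K) • G a) (P : ℚ[X]) :
    ∀ a ∈ U, ev F P a = ev G (P.comp (C c * Polynomial.X)) a := by
  have hpow : ∀ k : ℕ, ∀ a ∈ U, (G ^ k) a ∈ U ∧ (F ^ k) a = (c : K) ^ k • (G ^ k) a := by
    intro k
    induction k with
    | zero => intro a ha; exact ⟨by simpa using ha, by simp⟩
    | succ k ih =>
      intro a ha
      obtain ⟨h1, h2⟩ := ih a ha
      refine ⟨?_, ?_⟩
      · rw [pow_succ', Module.End.mul_apply]; exact hG _ h1
      · rw [pow_succ', Module.End.mul_apply, h2, map_smul, h _ h1, smul_smul, pow_succ' G,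
          Module.End.mul_apply, pow_succ]
  intro a ha
  induction P using Polynomial.induction_on' with
  | add p q hp hq =>
    rw [map_add, LinearMap.add_apply, hp, hq, Polynomial.add_comp, map_add, LinearMap.add_apply]
  | monomial k r =>
    have e1 : ev F (monomial k r) = (r : K) • F ^ k := by
      rw [← C_mul_X_pow_eq_monomial, map_mul, map_pow, ev_C, ev_X, smul_mul_assoc, one_mul]
    have e2 : ev G ((monomial k r).comp (C c * Polynomial.X)) =
        (r : K) • ((c : K) ^ k • G ^ k) := by
      rw [← C_mul_X_pow_eq_monomial, Polynomial.mul_comp, Polynomial.pow_comp, Polynomial.C_comp,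
        Polynomial.X_comp, map_mul, map_pow, map_mul, ev_C, ev_X, ev_C, smul_mul_assoc, one_mul,
        smul_mul_assoc, one_mul, _root_.smul_pow]
    rw [e1, e2, LinearMap.smul_apply, LinearMap.smul_apply, LinearMap.smul_apply, (hpow k a ha).2]

lemma ev_comm {K : Type*} [Field K] [CharZero K] {V : Type*} [AddCommGroup V] [Module K V]
    {F A : Module.End K V} (h : A * F = F * A) (P : ℚ[X]) : A * ev F P = ev F P * A := by
  have hpow : ∀ k : ℕ, A * F ^ k = F ^ k * A := by
    intro k
    exact (Commute.pow_right (show Commute A F from h) k)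
  induction P using Polynomial.induction_on' with
  | add p q hp hq => rw [map_add, mul_add, hp, hq, add_mul]
  | monomial k r =>
    rw [← C_mul_X_pow_eq_monomial, map_mul, map_pow, ev_C, ev_X, smul_mul_assoc, one_mul,
      mul_smul_comm, smul_mul_assoc, hpow]

theorem weights_of_hodge {D : X.Cycles} (hD : X.IsCyc 1 D) (hK : KunnethStd W X)
    (hH : HodgeType W (X.prod X) (boxSum ops D)) {φ : X ⟶ X} {Q : ℕ} (hQ : 0 < Q)
    (hφD : W.map φ (W.cl X D) = (Q : W.K) • W.cl X D)
    (hδ : ∀ a, W.tr X (W.map φ a) = (Q : W.K) ^ X.dim * W.tr X a) (i : ℕ) :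
    HasWeight (W.map φ).toLinearMap (W.gr X i) ((Q : ℝ) ^ i) := by
  classical
  set n := X.dim with hn
  have h := W.isInternal X
  have hQK : (Q : W.K) ≠ 0 := by exact_mod_cast hQ.ne'
  set L : Module.End W.K (W.H X) := LinearMap.mulLeft W.K (W.cl X D) with hL
  set G : Module.End W.K (W.H X) := (W.map φ).toLinearMap with hG
  set G' : Module.End W.K (W.H X) := W.push φ with hG'
  have hGa : ∀ a, G a = W.map φ a := fun a => rfl
  have hGL : ∀ a, G (L a) = (Q : W.K) • L (G a) := by
    intro a
    rw [hGa, hGa, hL, LinearMap.mulLeft_apply, LinearMap.mulLeft_apply, map_mul, hφD,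
      smul_mul_assoc]
  -- the parity
  set p := i % 2 with hp
  set e : ℕ → ℚ := fun j => if j % 2 = p then (-1) ^ (j / 2) else 0 with he
  set g : ℕ → ℚ := fun j => if j % 2 = p then ((Q : ℚ) ^ (j / 2))⁻¹ else 0 with hg
  set g' : ℕ → ℚ := fun j => if j % 2 = p then (Q : ℚ) ^ (j / 2 + p) * ((Q : ℚ) ^ n)⁻¹ else 0
    with hg'
  set E : Module.End W.K (W.H X) := scal h (fun j => (e j : W.K)) with hE
  set F : Module.End W.K (W.H X) := G * scal h (fun j => (g j : W.K)) with hF
  set F' : Module.End W.K (W.H X) := G' * scal h (fun j => (g' j : W.K)) with hF'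
  have hEa : ∀ j, ∀ a ∈ W.gr X j, E a = (e j : W.K) • a := fun j a ha => scal_apply h _ ha
  have hFa : ∀ j, ∀ a ∈ W.gr X j, F a = (g j : W.K) • G a := fun j a ha => by
    rw [hF, Module.End.mul_apply, scal_apply h _ ha, map_smul]
  have hFa' : ∀ j, ∀ a ∈ W.gr X j, F' a = (g' j : W.K) • G' a := fun j a ha => by
    rw [hF', Module.End.mul_apply, scal_apply h _ ha, map_smul]
  have hropE : ROp W X 0 E := rop_scal hK e
  have hropF : ROp W X 0 F := rop_mul0 (rop_map φ) (rop_scal hK g)
  clear_value E F F'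
  have hLgr : ∀ j, ∀ a ∈ W.gr X j, L a ∈ W.gr X (j + 2) := by
    intro j a ha
    have := W.mul_mem (W.cl_mem hD) ha
    rw [hL, LinearMap.mulLeft_apply]
    rwa [show 2 * 1 + j = j + 2 by ring] at this
  have hEL : E * L = -(L * E) := by
    apply gr_ext h
    intro j a ha
    rw [Module.End.mul_apply, LinearMap.neg_apply, Module.End.mul_apply, hEa j a ha,
      hEa _ _ (hLgr j a ha), map_smul, ← neg_smul]
    congr 1
    rw [he]
    beta_reduce
    rw [show (j + 2) % 2 = j % 2 by omega, show (j + 2) / 2 = j / 2 + 1 by omega]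
    split_ifs
    · push_cast; ring
    · simp
  have hFL : L * F = F * L := by
    apply gr_ext h
    intro j a ha
    rw [Module.End.mul_apply, Module.End.mul_apply, hFa j a ha, hFa _ _ (hLgr j a ha), map_smul,
      hGL, smul_smul]
    congr 1
    rw [hg]
    beta_reduce
    rw [show (j + 2) % 2 = j % 2 by omega, show (j + 2) / 2 = j / 2 + 1 by omega]
    split_ifs
    · push_cast
      rw [pow_succ, mul_inv, mul_assoc, inv_mul_cancel₀ hQK, mul_one]
    · simp
  have hEF : F * E = E * F := by
    apply gr_ext h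
    intro j a ha
    rw [Module.End.mul_apply, Module.End.mul_apply, hEa j a ha, hFa j a ha, map_smul, map_smul,
      hFa j a ha, hGa, hEa j _ (gr_map φ ha), smul_comm]
  -- the rational space of operators
  set S : Set (Module.End W.K (W.H X)) := {T | ∃ P : ℚ[X], T = E * ev F P} with hS
  have hSrop : ∀ T ∈ S, ROp W X 0 T := by
    rintro T ⟨P, rfl⟩
    exact rop_mul0 hropE (rop_ev hropF P)
  have hScyc : ∀ T ∈ S, ∃ z, (X.prod X).IsCyc n z ∧ W.corr (W.cl _ z) = T := fun T hT =>
    cyc_of_rop (hSrop T hT)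
  have hFS : ∀ T ∈ S, F * T ∈ S := by
    rintro T ⟨P, rfl⟩
    refine ⟨Polynomial.X * P, ?_⟩
    rw [map_mul, ev_X, ← mul_assoc, hEF, mul_assoc]
  have hSprim : ∀ T ∈ S, dbl L T = 0 := by
    rintro T ⟨P, rfl⟩
    have e1 : E * ev F P * L = -(L * (E * ev F P)) := by
      rw [mul_assoc, ← ev_comm hFL, ← mul_assoc, hEL, ← mul_assoc]
      exact neg_mul (L * E) (ev F P)
    rw [dbl_apply, e1, add_neg_cancel]
  have hadj : ∀ T ∈ S, ∀ z, (X.prod X).IsCyc n z → W.corr (W.cl _ z) = T → ∀ a b,
      W.tr X (T a * b) = W.tr X (a * W.corr (W.map (swap X X) (W.cl _ z)) b) := by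
    rintro T _ z hz rfl a b
    exact tr_corr_swap (W.cl_mem hz) a b
  -- the adjoint of the normalised endomorphism
  have hFadj : ∀ a b, W.tr X (F a * b) = W.tr X (a * F' b) := by
    intro a b
    refine gr_induction h (p := fun a => W.tr X (F a * b) = W.tr X (a * F' b)) ?_ ?_ a
    swap
    · intro a a' ha ha'
      rw [map_add, add_mul, add_mul, map_add, map_add, ha, ha']
    intro j a ha
    refine gr_induction h (p := fun b => W.tr X (F a * b) = W.tr X (a * F' b)) ?_ ?_ b
    swap
    · intro b b' hb hb'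
      rw [map_add, mul_add, mul_add, map_add, map_add, hb, hb']
    intro l b hb
    rw [hFa j a ha, hFa' l b hb, smul_mul_assoc, mul_smul_comm, map_smul, map_smul, hGa,
      tr_map_adj, smul_eq_mul, smul_eq_mul]
    by_cases hjl : j + l = 2 * n
    · congr 1
      rw [hg, hg']
      beta_reduce
      by_cases h1 : j % 2 = p
      · rw [if_pos h1, if_pos (by omega)]
        have h2 : j / 2 + (l / 2 + p) = n := by omega
        push_cast
        rw [← h2, pow_add (Q : W.K) (j / 2), mul_inv]
        field_simp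
      · rw [if_neg h1, if_neg (by omega)]
    · rw [W.tr_eq_zero (W.mul_mem ha (gr_push φ hb)) hjl, mul_zero, mul_zero]
  have hF'F : ∀ j, j % 2 = p → ∀ a ∈ W.gr X j, F' (F a) = (Q : W.K) ^ p • a := by
    intro j hj a ha
    rw [hFa j a ha, map_smul, hGa, hFa' j _ (gr_map φ ha), hG', push_map hδ, smul_smul, smul_smul]
    congr 1
    rw [hg, hg']
    beta_reduce
    rw [if_pos hj, if_pos hj]
    push_cast
    rw [pow_add]
    field_simp
  have hF'par : ∀ a, F' (par h a) = par h (F' a) := by
    intro a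
    refine gr_induction h (p := fun a => F' (par h a) = par h (F' a)) ?_ ?_ a
    · intro j a ha
      rw [par, scal_apply h _ ha, map_smul, hFa' j a ha, map_smul, scal_apply h _ (gr_push φ ha),
        smul_comm]
    · intro a b ha hb
      rw [map_add, map_add, map_add, map_add, ha, hb]
  have hET : ∀ T ∈ S, ∀ a, T a = E (E (T a)) := by
    rintro T ⟨P, rfl⟩ a
    rw [Module.End.mul_apply]
    generalize ev F P a = b
    refine gr_induction h (p := fun b => E b = E (E (E b))) ?_ ?_ b
    · intro j a ha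
      rw [hEa j a ha, map_smul, hEa j a ha, map_smul, map_smul, hEa j a ha, smul_smul, smul_smul]
      congr 1
      rw [he]
      beta_reduce
      split_ifs
      · push_cast
        rw [← pow_add, ← two_mul, pow_mul]
        simp
      · simp
    · intro a b ha hb
      rw [map_add, map_add, map_add, ← ha, ← hb]
  have hF'FT : ∀ T ∈ S, ∀ a, F' (F (T a)) = (Q : W.K) ^ p • T a := by
    intro T hT a
    rw [hET T hT a]
    generalize E (T a) = b
    refine gr_induction h (p := fun b => F' (F (E b)) = (Q : W.K) ^ p • E b) ?_ ?_ b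
    · intro j b hb
      rw [hEa j b hb]
      by_cases hj : j % 2 = p
      · rw [map_smul, map_smul, hF'F j hj b hb, smul_comm]
      · have : (e j : W.K) = 0 := by rw [he]; beta_reduce; rw [if_neg hj]; simp
        rw [this]; simp
    · intro a b ha hb
      rw [map_add, map_add, map_add, ha, hb, smul_add]
  have hform : ∀ T ∈ S, ∀ z, (X.prod X).IsCyc n z → W.corr (W.cl _ z) = T →
      ∀ T₁ ∈ S, opForm W X T₁ T = (-1 : W.K) ^ n * LinearMap.trace W.K (W.H X)
        (par h * T₁ * W.corr (W.map (swap X X) (W.cl _ z))) := by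
    rintro T hT z hz rfl T₁ hT₁
    obtain ⟨z₁, hz₁, rfl⟩ := hScyc T₁ hT₁
    rw [opForm_corr, tr_mul_eq_trace (W.cl_mem hz₁)]
  obtain ⟨P, hP0, hPS, hPz⟩ := weights_of_pos (opForm W X) S
    ⟨0, by rw [map_zero, mul_zero]⟩
    (by
      rintro _ ⟨P, rfl⟩ _ ⟨P', rfl⟩
      exact ⟨P + P', by rw [map_add, mul_add]⟩)
    (by
      rintro q _ ⟨P, rfl⟩
      refine ⟨C q * P, ?_⟩
      rw [map_mul, ev_C, smul_mul_assoc, one_mul, mul_smul_comm])
    F hFS
    (by
      intro a ha b hb
      obtain ⟨z, hz, rfl⟩ := hScyc a ha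
      obtain ⟨w, hw, rfl⟩ := hScyc b hb
      rw [opForm_corr, opForm_corr, W.even_comm (W.cl_mem hz)])
    (by
      intro a ha b hb
      obtain ⟨z, hz, rfl⟩ := hScyc a ha
      obtain ⟨w, hw, rfl⟩ := hScyc b hb
      refine ⟨(-1) ^ n * (X.prod X).V.degCycle (ops.mul z w), ?_⟩
      rw [opForm_corr, ← W.cl_mul, W.tr_cl (ops.mul_mem hz hw)]
      push_cast; rfl)
    (by
      intro a ha ha0
      obtain ⟨z, hz, hza⟩ := hScyc a ha
      have hcl0 : W.cl _ z ≠ 0 := by
        intro h0
        apply ha0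
        rw [← hza, h0, corr_zero]
      have hprim : W.cl _ (divPow ops (boxSum ops D) ((X.prod X).dim - 2 * n + 1) z) = 0 := by
        apply corr_inj
        rw [dim_prod, show X.dim + X.dim - 2 * n + 1 = 1 by omega, cl_divPow,
          corr_boxSum_pow hD, hza, pow_one]
        exact hSprim a ha
      have h2 := hH n (by rw [dim_prod]; omega) z hz hprim hcl0
      rw [dim_prod, show X.dim + X.dim - 2 * n = 0 by omega] at h2
      refine ⟨_, ?_, h2⟩
      rw [← hza, opForm_corr, ← W.cl_mul, W.tr_cl (ops.mul_mem hz hz)]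
      push_cast; rfl)
    ((Q : ℚ) ^ p)
    (by
      intro a ha b hb
      obtain ⟨z, hz, hzb⟩ := hScyc b hb
      obtain ⟨w, hw, hwF⟩ := hScyc (F * b) (hFS b hb)
      rw [hform b hb z hz hzb a ha, hform (F * b) (hFS b hb) w hw hwF (F * a) (hFS a ha)]
      set b' := W.corr (W.map (swap X X) (W.cl _ z)) with hb'
      set Fb' := W.corr (W.map (swap X X) (W.cl _ w)) with hFb'
      have e1 : Fb' = b' * F' := by
        apply LinearMap.ext
        intro y
        rw [← sub_eq_zero]
        apply nondeg_right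
        intro c
        rw [mul_sub, map_sub, ← hadj _ (hFS b hb) w hw hwF c y, Module.End.mul_apply,
          Module.End.mul_apply, hFadj, hadj b hb z hz hzb, sub_self]
      have e2 : (par h * a) * b' * (1 : Module.End W.K (W.H X)) =
          par h * a * b' := mul_one _
      have e3 : par h * (F * a) * Fb' = (par h * F * a * b') * F' := by
        rw [e1]; simp only [mul_assoc]
      rw [e3, LinearMap.trace_mul_comm]
      have e4 : F' * (par h * F * a * b') = (Q : W.K) ^ p • (par h * a * b') := by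
        apply LinearMap.ext
        intro y
        rw [Module.End.mul_apply, Module.End.mul_apply, Module.End.mul_apply,
          Module.End.mul_apply, hF'par, hF'FT a ha, map_smul, LinearMap.smul_apply,
          Module.End.mul_apply, Module.End.mul_apply]
      rw [e4, map_smul, smul_eq_mul]
      push_cast
      ring)
  -- the polynomial on the piece of degree `i`
  have hi2 : (Q : ℚ) ^ (i / 2) ≠ 0 := pow_ne_zero _ (by exact_mod_cast hQ.ne')
  set c : ℚ := ((Q : ℚ) ^ (i / 2))⁻¹ with hc
  have hc0 : c ≠ 0 := inv_ne_zero hi2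
  refine ⟨P.comp (C c * Polynomial.X), ?_, ?_, ?_⟩
  · intro h0
    have h1 := congrArg (fun R : ℚ[X] => R.comp (C c⁻¹ * Polynomial.X)) h0
    beta_reduce at h1
    rw [Polynomial.comp_assoc, Polynomial.zero_comp, Polynomial.mul_comp, Polynomial.C_comp,
      Polynomial.X_comp, ← mul_assoc, ← C_mul, mul_inv_cancel₀ hc0, C_1, one_mul,
      Polynomial.comp_X] at h1
    exact hP0 h1
  · intro a ha
    have hgi : g i = c := by rw [hg]; beta_reduce; rw [if_pos rfl]
    have h1 := ev_smul_on (F := F) (G := G) (U := W.gr X i) (fun a ha => gr_map φ ha) (c := c)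
      (fun a ha => by rw [hFa i a ha, hgi]) P a ha
    rw [← ev_eq, ← h1]
    have hmem : E ∈ S := ⟨1, by rw [map_one, mul_one]⟩
    have h2 := congrArg (fun T => T a) (hPS E hmem)
    beta_reduce at h2
    rw [← ev_eq, Module.End.mul_apply, hEa i a ha, map_smul, LinearMap.zero_apply] at h2
    have hei : (e i : W.K) ≠ 0 := by
      rw [he]; beta_reduce; rw [if_pos rfl]
      push_cast
      exact pow_ne_zero _ (by norm_num)
    exact (smul_eq_zero.1 h2).resolve_left hei
  · intro z hz
    have h1 : aeval ((c : ℂ) * z) P = 0 := by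
      rw [Polynomial.aeval_comp, map_mul, aeval_X, aeval_C] at hz
      have e1 : (algebraMap ℚ ℂ) c = (c : ℂ) := by simp
      rwa [e1] at hz
    have h2 := hPz _ h1
    rw [norm_mul, mul_pow] at h2
    have h3 : ‖(c : ℂ)‖ = ((Q : ℝ) ^ (i / 2))⁻¹ := by
      rw [hc]
      push_cast
      rw [norm_inv, norm_pow, Complex.norm_natCast]
    rw [h3] at h2
    have h4 : ((Q : ℝ) ^ (i / 2)) ≠ 0 := pow_ne_zero _ (by exact_mod_cast hQ.ne')
    have h5 : ‖z‖ ^ 2 = (((Q : ℝ) ^ (i / 2))) ^ 2 * (((((Q : ℝ) ^ (i / 2))⁻¹) ^ 2) * ‖z‖ ^ 2) := by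
      rw [← mul_assoc, ← mul_pow, mul_inv_cancel₀ h4, one_pow, one_mul]
    rw [h5, h2]
    push_cast
    rw [← pow_mul, ← pow_add]
    congr 1
    omega

end Pool.Agent.H914
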