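import Pool.Agent.H88.L.H914R2.Core5
import Pool.Agent.H88.L.H914R2.WalkDefs

/-!
# Super traces of words in a Lefschetz pair
-/

open Polynomial Finset

namespace Pool.Agent.H914

lemma walk_count (m : ℕ) : ∀ (w : List Bool) (j j' : ℕ), walk m w j = some j' →
    j' + w.count false = j + w.count true := by
  intro w
  induction w with
  | nil => intro j j' h; simp only [walk, Option.some.injEq] at h; simp [h]
  | cons x w ih =>
    intro j j' h
    cases x with
    | true =>
      simp only [walk] at h
      split_ifs at h
      have := ih _ _ h
      simp only [List.count_cons]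
      simp
      omega
    | false =>
      simp only [walk] at h
      split_ifs at h
      have := ih _ _ h
      simp only [List.count_cons]
      simp
      omega

section

variable {K : Type*} [Field K] {V : Type*} [AddCommGroup V] [Module K V]

/-- The operator given by a word, the first letter acting first. -/
def opW (L Lam : Module.End K V) : List Bool → Module.End K V
  | [] => 1
  | true :: w => opW L Lam w * L
  | false :: w => opW L Lam w * Lam

lemma opW_append (L Lam : Module.End K V) (w w' : List Bool) :
    opW L Lam (w ++ w') = opW L Lam w' * opW L Lam w := by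
  induction w with
  | nil => simp [opW]
  | cons x w ih =>
    cases x <;> simp [opW, ih, mul_assoc]

lemma opW_isHom {gr : ℕ → Submodule K V} {L Lam : Module.End K V} (hL : IsHom gr 2 L)
    (hLam : IsHom gr (-2) Lam) (w : List Bool) :
    IsHom gr (2 * ((w.count true : ℤ) - w.count false)) (opW L Lam w) := by
  induction w with
  | nil => simpa [opW] using isHom_one
  | cons x w ih =>
    cases x with
    | true =>
      have := ih.mul hL
      simp only [opW, List.count_cons]
      simp only [beq_self_eq_true, if_true]
      convert this using 1
      simp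
      ring
    | false =>
      have := ih.mul hLam
      simp only [opW, List.count_cons]
      simp only [beq_self_eq_true, if_true]
      convert this using 1
      simp
      ring

variable {gr : ℕ → Submodule K V} {n : ℕ} {L Lam : Module.End K V}

/-- The action of a word on the elements `L ^ j a`, `a` primitive. -/
lemma opW_apply (hLam : IsLam gr n L Lam) {i : ℕ} (hi : i ≤ n) {a : V} (ha : a ∈ gr i)
    (hp : (L ^ (n - i + 1)) a = 0) : ∀ (w : List Bool) (j : ℕ), j ≤ n - i →
      opW L Lam w ((L ^ j) a) = (walk (n - i) w j).elim 0 (fun j' => (L ^ j') a) := by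
  intro w
  induction w with
  | nil => intro j _; simp [opW, walk]
  | cons x w ih =>
    intro j hj
    cases x with
    | true =>
      simp only [opW, walk, Module.End.mul_apply]
      rw [← Module.End.mul_apply L, ← pow_succ']
      split_ifs with h
      · exact ih (j + 1) (by omega)
      · rw [L_pow_gt hp (by omega), map_zero]; rfl
    | false =>
      simp only [opW, walk, Module.End.mul_apply]
      rcases Nat.eq_zero_or_pos j with rfl | h0
      · simp [(hLam i hi a ha hp).1]
      · have := (hLam i hi a ha hp).2 (j - 1) (by omega)
        rw [show j - 1 + 1 = j by omega] at this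
        rw [this, if_pos h0]
        exact ih (j - 1) (by omega)

/-- The projector onto `L ^ j P^i`. -/
noncomputable def eij (h : DirectSum.IsInternal gr) (L Lam : Module.End K V) (i j : ℕ) :
    Module.End K V := L ^ j * ((1 - L * Lam) * proj h i * Lam ^ j)

lemma prim_part (hL : IsHom gr 2 L) (hbd : ∀ i, 2 * n + 1 ≤ i → gr i = ⊥)
    (hHL : HardLef gr n L) (hLam : IsLam gr n L Lam) {i : ℕ} (hi : i ≤ n) {y : V}
    (hy : y ∈ gr i) : (1 - L * Lam) y ∈ gr i ∧ (L ^ (n - i + 1)) ((1 - L * Lam) y) = 0 := by
  have key := lef_induction hL hbd hHL
    (p := fun i y => i ≤ n → (1 - L * Lam) y ∈ gr i ∧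
      (L ^ (n - i + 1)) ((1 - L * Lam) y) = 0)
    (by
      intro i a b ha hb hi
      obtain ⟨h1, h2⟩ := ha hi
      obtain ⟨h3, h4⟩ := hb hi
      rw [map_add]
      exact ⟨Submodule.add_mem _ h1 h3, by rw [map_add, h2, h4, add_zero]⟩)
    (by
      intro i hi a ha hp j hij
      rcases Nat.eq_zero_or_pos j with rfl | hj
      · have : (1 - L * Lam) ((L ^ 0) a) = a := by
          rw [pow_zero, Module.End.one_apply, LinearMap.sub_apply, Module.End.mul_apply,
            (hLam i hi a ha hp).1, map_zero, sub_zero, Module.End.one_apply]
        rw [this]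
        exact ⟨by simpa using ha, by simpa using hp⟩
      · have : (1 - L * Lam) ((L ^ j) a) = 0 := by
          have := (hLam i hi a ha hp).2 (j - 1) (by omega)
          rw [show j - 1 + 1 = j by omega] at this
          rw [LinearMap.sub_apply, Module.End.mul_apply, this, ← Module.End.mul_apply L,
            ← pow_succ', show j - 1 + 1 = j by omega, Module.End.one_apply, sub_self]
        rw [this, map_zero]
        exact ⟨Submodule.zero_mem _, rfl⟩)
  have := key i hi y hy 0
  simpa using this (by simpa using hi)

/-- `eij` on the elements `L ^ j' a`, `a` primitive. -/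
lemma eij_apply (h : DirectSum.IsInternal gr) (hL : IsHom gr 2 L) (hLam : IsLam gr n L Lam)
    {i' : ℕ} (hi' : i' ≤ n)
    {a : V} (ha : a ∈ gr i') (hp : (L ^ (n - i' + 1)) a = 0) {j' : ℕ} (hj' : j' ≤ n - i')
    {i j : ℕ} : eij h L Lam i j ((L ^ j') a) = if i = i' ∧ j = j' then (L ^ j') a else 0 := by
  unfold eij
  simp only [Module.End.mul_apply]
  by_cases hj : j ≤ j'
  · rw [lam_pow hLam hi' ha hp hj' j hj]
    have hmem := pow_L_mem hL ha (j' - j)
    by_cases h1 : i = i' + 2 * (j' - j)
    · rw [h1, proj_same h hmem]
      rcases Nat.eq_zero_or_pos (j' - j) with h2 | h2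
      · rw [h2, pow_zero, Module.End.one_apply, LinearMap.sub_apply, Module.End.mul_apply,
          (hLam i' hi' a ha hp).1, map_zero, sub_zero, Module.End.one_apply,
          if_pos ⟨by omega, by omega⟩, show j = j' by omega]
      · have h3 := (hLam i' hi' a ha hp).2 (j' - j - 1) (by omega)
        rw [show j' - j - 1 + 1 = j' - j by omega] at h3
        rw [LinearMap.sub_apply, Module.End.mul_apply, h3, ← Module.End.mul_apply L,
          ← pow_succ', show j' - j - 1 + 1 = j' - j by omega, Module.End.one_apply, sub_self,
          map_zero, if_neg (by omega)]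
    · rw [proj_ne h hmem (Ne.symm h1), map_zero, map_zero, if_neg (by
        rintro ⟨rfl, rfl⟩; apply h1; omega)]
  · rw [lam_pow_gt hLam hi' ha hp hj' (by omega), map_zero, map_zero, map_zero,
      if_neg (by omega)]

lemma sum_eij (h : DirectSum.IsInternal gr) (hL : IsHom gr 2 L)
    (hbd : ∀ i, 2 * n + 1 ≤ i → gr i = ⊥) (hHL : HardLef gr n L) (hLam : IsLam gr n L Lam) :
    ∑ i ∈ range (n + 1), ∑ j ∈ range (n - i + 1), eij h L Lam i j = 1 := by
  apply LinearMap.ext
  intro x
  refine lef_induction' h hL hbd hHL
    (p := fun x => (∑ i ∈ range (n + 1), ∑ j ∈ range (n - i + 1), eij h L Lam i j) x =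
      (1 : Module.End K V) x) ?_ ?_ x
  · intro a b ha hb; rw [map_add, map_add, ha, hb]
  · intro i' hi' a ha hp j'
    by_cases hj' : j' ≤ n - i'
    · rw [LinearMap.sum_apply, Module.End.one_apply]
      rw [Finset.sum_eq_single i']
      · rw [LinearMap.sum_apply, Finset.sum_eq_single j']
        · rw [eij_apply h hL hLam hi' ha hp hj', if_pos ⟨rfl, rfl⟩]
        · intro j _ hj
          rw [eij_apply h hL hLam hi' ha hp hj', if_neg (by tauto)]
        · intro hj; exact absurd (Finset.mem_range.2 (by omega)) hj
      · intro i _ hi
        rw [LinearMap.sum_apply]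
        apply Finset.sum_eq_zero
        intro j _
        rw [eij_apply h hL hLam hi' ha hp hj', if_neg (by tauto)]
      · intro hi; exact absurd (Finset.mem_range.2 (by omega)) hi
    · rw [L_pow_gt hp (by omega), map_zero, map_zero]

variable [CharZero K] [Module.Finite K V]

omit [Module.Finite K V] [CharZero K] in
lemma lam_pow_mul_L_pow (hL : IsHom gr 2 L) (hbd : ∀ i, 2 * n + 1 ≤ i → gr i = ⊥)
    (hHL : HardLef gr n L) (hLam : IsLam gr n L Lam) {i c : ℕ} (hc : i + c ≤ n) {a : V}
    (ha : a ∈ gr i) : (Lam ^ c) ((L ^ c) a) = a := by
  have key := lef_induction hL hbd hHL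
    (p := fun i a => ∀ c, i + c ≤ n → (Lam ^ c) ((L ^ c) a) = a)
    (by intro i a b ha hb c hc; rw [map_add, map_add, ha c hc, hb c hc])
    (by
      intro i hi a ha hp j c hc
      rw [← Module.End.mul_apply (L ^ c), ← pow_add,
        lam_pow hLam hi ha hp (by omega) c (by omega), show c + j - c = j by omega])
  have := key i (by omega) a ha 0 c (by omega)
  simpa using this

omit [CharZero K] in
lemma trace_eij (h : DirectSum.IsInternal gr) (hL : IsHom gr 2 L)
    (hbd : ∀ i, 2 * n + 1 ≤ i → gr i = ⊥) (hHL : HardLef gr n L) (hLam : IsLam gr n L Lam)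
    {i j : ℕ} (hi : i ≤ n) (hj : j ≤ n - i) :
    LinearMap.trace K V (eij h L Lam i j) = (Module.finrank K (gr i) : K) -
      (if 2 ≤ i then (Module.finrank K (gr (i - 2)) : K) else 0) := by
  have h1 : LinearMap.trace K V (eij h L Lam i j) =
      LinearMap.trace K V ((1 - L * Lam) * proj h i) := by
    rw [eij, LinearMap.trace_mul_comm]
    congr 1
    apply gr_ext h
    intro k x hx
    simp only [Module.End.mul_apply]
    by_cases hk : k = i
    · subst hk
      rw [lam_pow_mul_L_pow hL hbd hHL hLam (by omega) hx, proj_same h hx]
    · have h2 : (Lam ^ j) ((L ^ j) x) ∈ gr k := by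
        by_cases hk2 : k + j ≤ n
        · rw [lam_pow_mul_L_pow hL hbd hHL hLam hk2 hx]; exact hx
        · -- use the primitive decomposition
          have hdeg : ∀ m, ∀ y ∈ gr m, ∀ c ≤ m, m = k + 2 * j → c = j →
              (Lam ^ c) y ∈ gr (m - 2 * c) := by
            intro m y hy c _ hm hc
            subst hc
            have key : ∀ i' ≤ n, ∀ a ∈ gr i', (L ^ (n - i' + 1)) a = 0 → ∀ j',
                (Lam ^ c) ((L ^ j') a) ∈ gr (i' + 2 * j' - 2 * c) ∨
                (Lam ^ c) ((L ^ j') a) = 0 := by
              intro i' hi' a ha hp j'
              by_cases hj' : j' ≤ n - i'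
              · by_cases hc' : c ≤ j'
                · left
                  rw [lam_pow hLam hi' ha hp hj' c hc']
                  have := pow_L_mem hL ha (j' - c)
                  rwa [show i' + 2 * (j' - c) = i' + 2 * j' - 2 * c by omega] at this
                · right; exact lam_pow_gt hLam hi' ha hp hj' (by omega)
              · right; rw [L_pow_gt hp (by omega), map_zero]
            by_cases hmn : m ≤ n
            · have := lef_induction hL hbd hHL
                (p := fun m y => (Lam ^ c) y ∈ gr (m - 2 * c))
                (by intro i a b ha hb; rw [map_add]; exact Submodule.add_mem _ ha hb)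
                (by
                  intro i' hi' a ha hp j'
                  rcases key i' hi' a ha hp j' with h | h
                  · exact h
                  · rw [h]; exact Submodule.zero_mem _) m hmn y hy 0
              simpa using this
            · by_cases hm2 : m ≤ 2 * n
              · obtain ⟨b, hb, hb'⟩ := (hHL (2 * n - m) (by omega)).2 y
                  (by rw [show 2 * n - (2 * n - m) = m by omega]; exact hy)
                have := lef_induction hL hbd hHL
                  (p := fun m y => (Lam ^ c) y ∈ gr (m - 2 * c))
                  (by intro i a b ha hb; rw [map_add]; exact Submodule.add_mem _ ha hb)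
                  (by
                    intro i' hi' a ha hp j'
                    rcases key i' hi' a ha hp j' with h | h
                    · exact h
                    · rw [h]; exact Submodule.zero_mem _) (2 * n - m) (by omega) b hb
                    (n - (2 * n - m))
                rw [hb', show 2 * n - m + 2 * (n - (2 * n - m)) = m by omega] at this
                exact this
              · rw [hbd m (by omega)] at hy
                rw [(Submodule.mem_bot _).1 hy, map_zero]
                exact Submodule.zero_mem _
          have := hdeg (k + 2 * j) _ (pow_L_mem hL hx j) j (by omega) rfl rfl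
          rwa [show k + 2 * j - 2 * j = k by omega] at this
      rw [proj_ne h h2 hk, proj_ne h hx hk]
  rw [h1, sub_mul, one_mul, map_sub, trace_proj]
  congr 1
  rw [mul_assoc, LinearMap.trace_mul_comm]
  split_ifs with h2
  · have h3 : Lam * proj h i * L = proj h (i - 2) := by
      apply gr_ext h
      intro k x hx
      simp only [Module.End.mul_apply]
      have hLx : L x ∈ gr (k + 2) := by
        have := pow_L_mem hL hx 1
        simpa using this
      by_cases hk : k = i - 2
      · rw [show i = k + 2 by omega, proj_same h hLx, show k + 2 - 2 = k by omega,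
          proj_same h hx]
        have := lam_pow_mul_L_pow hL hbd hHL hLam (i := k) (c := 1) (by omega) hx
        simpa using this
      · rw [proj_ne h hLx (by omega), proj_ne h hx hk, map_zero]
    rw [h3, trace_proj]
  · have h3 : Lam * proj h i * L = 0 := by
      apply gr_ext h
      intro k x hx
      simp only [Module.End.mul_apply]
      have hLx : L x ∈ gr (k + 2) := by
        have := pow_L_mem hL hx 1
        simpa using this
      rw [proj_ne h hLx (by omega), map_zero, LinearMap.zero_apply]
    rw [h3, map_zero]

omit [CharZero K] in
/-- **The super trace of a balanced word in a Lefschetz pair.** -/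
theorem trace_word (h : DirectSum.IsInternal gr) (hL : IsHom gr 2 L)
    (hbd : ∀ i, 2 * n + 1 ≤ i → gr i = ⊥) (hHL : HardLef gr n L) (hLam : IsLam gr n L Lam)
    {w : List Bool} (hw : w.count true = w.count false) :
    LinearMap.trace K V (scal h (fun i => (-1 : K) ^ i) * opW L Lam w) =
      (expectedTrace n (fun i => Module.finrank K (gr i)) w : K) := by
  have h1 : scal h (fun i => (-1 : K) ^ i) * opW L Lam w =
      ∑ i ∈ range (n + 1), ∑ j ∈ range (n - i + 1),
        ((-1 : K) ^ i * (if walk (n - i) w j = some j then 1 else 0)) • eij h L Lam i j := by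
    calc scal h (fun i => (-1 : K) ^ i) * opW L Lam w =
        scal h (fun i => (-1 : K) ^ i) * opW L Lam w * 1 := by rw [mul_one]
      _ = _ := by
        rw [← sum_eij h hL hbd hHL hLam, Finset.mul_sum]
        apply Finset.sum_congr rfl
        intro i hi
        rw [Finset.mul_sum]
        apply Finset.sum_congr rfl
        intro j hj
        rw [Finset.mem_range] at hi hj
        apply LinearMap.ext
        intro x
        set a := (1 - L * Lam) (proj h i ((Lam ^ j) x)) with ha
        obtain ⟨ha1, ha2⟩ := prim_part hL hbd hHL hLam (by omega : i ≤ n)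
          (proj_mem h i ((Lam ^ j) x))
        rw [← ha] at ha1 ha2
        have he : eij h L Lam i j x = (L ^ j) a := by
          simp only [eij, Module.End.mul_apply, ha]
        rw [Module.End.mul_apply, Module.End.mul_apply, LinearMap.smul_apply, he,
          opW_apply hLam (by omega) ha1 ha2 w j (by omega)]
        rcases hwk : walk (n - i) w j with _ | j'
        · simp
        · have := walk_count _ _ _ _ hwk
          have hjj : j' = j := by omega
          subst hjj
          rw [if_pos rfl, mul_one]
          simp only [Option.elim_some]
          rw [scal_apply h _ (pow_L_mem hL ha1 j'), pow_add, pow_mul]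
          simp
  rw [h1, map_sum]
  unfold expectedTrace
  push_cast
  apply Finset.sum_congr rfl
  intro i hi
  rw [Finset.mem_range] at hi
  rw [map_sum]
  have h2 : ∀ j ∈ range (n - i + 1), LinearMap.trace K V
      (((-1 : K) ^ i * (if walk (n - i) w j = some j then 1 else 0)) • eij h L Lam i j) =
      ((-1 : K) ^ i * ((Module.finrank K (gr i) : K) -
      (if 2 ≤ i then (Module.finrank K (gr (i - 2)) : K) else 0))) *
        (if walk (n - i) w j = some j then 1 else 0) := by
    intro j hj
    rw [Finset.mem_range] at hj
    rw [map_smul, trace_eij h hL hbd hHL hLam (by omega) (by omega), smul_eq_mul]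
    ring
  rw [Finset.sum_congr rfl h2, ← Finset.mul_sum]
  congr 1
  unfold walkCount
  rw [Finset.card_filter]
  push_cast
  rfl

end

end Pool.Agent.H914
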