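import Pool.Agent.H88.L.H914R2.Sl2Rep
import Pool.Agent.H88.L.H914R2.Word
import Pool.Agent.H88.L.H914R2.ThetaB

/-!
# The `sl(2)`-triple attached to a hard Lefschetz structure
-/

open Finset

namespace Pool.Agent.H914

variable {K : Type*} [Field K] [CharZero K] {V : Type*} [AddCommGroup V] [Module K V]
  {gr : ℕ → Submodule K V} {n : ℕ} {L : Module.End K V}

lemma isHom_opAlg (gr : ℕ → Submodule K V) :
    OpAlg gr (fun d (y : Module.End K V) => IsHom gr (2 * d) y) where
  one := by simpa using isHom_one
  zero := fun d => isHom_zero _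
  add := fun hy hz => hy.add hz
  smul := fun q _ _ hy => hy.smul _
  mul := fun {d e y z} hy hz => by
    have := IsHom.mul hy hz
    rw [show 2 * (d + e) = 2 * d + 2 * e by ring]
    exact this
  hom := fun h => h

omit [CharZero K] in
lemma exists_theta (h : DirectSum.IsInternal gr) (hL : IsHom gr 2 L) (hHL : HardLef gr n L)
    {c : ℕ} (hc : c ≤ n) : ∃ θ : Module.End K V, IsHom gr (2 * -(c : ℤ)) θ ∧
      ∀ a ∈ gr (n - c), θ ((L ^ c) a) = a := by
  have hmem : ∀ a ∈ gr (n - c), (L ^ c) a ∈ gr (n + c) := by
    intro a ha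
    have := pow_L_mem hL ha c
    rwa [show n - c + 2 * c = n + c by omega] at this
  set φ : gr (n - c) →ₗ[K] gr (n + c) := (L ^ c).restrict hmem with hφ
  have hb : Function.Bijective φ := by
    constructor
    · rw [← LinearMap.ker_eq_bot, LinearMap.ker_eq_bot']
      rintro ⟨a, ha⟩ h0
      have h1 : (L ^ c) a = 0 := congrArg Subtype.val h0
      have := (hHL (n - c) (by omega)).1 a ha (by rw [show n - (n - c) = c by omega]; exact h1)
      exact Subtype.ext this
    · rintro ⟨b, hb⟩
      obtain ⟨a, ha, hab⟩ := (hHL (n - c) (by omega)).2 b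
        (by rw [show 2 * n - (n - c) = n + c by omega]; exact hb)
      rw [show n - (n - c) = c by omega] at hab
      exact ⟨⟨a, ha⟩, Subtype.ext hab⟩
  set ψ := (LinearEquiv.ofBijective φ hb) with hψ
  set P : V →ₗ[K] gr (n + c) := (proj h (n + c)).codRestrict _ (fun a => proj_mem h _ a) with hP
  refine ⟨(gr (n - c)).subtype ∘ₗ ψ.symm.toLinearMap ∘ₗ P, ?_, ?_⟩
  · intro i a ha
    by_cases hi : i = ((n + c : ℕ) : ℤ)
    · subst hi
      rw [show (((n + c : ℕ) : ℤ) + 2 * -(c : ℤ)) = ((n - c : ℕ) : ℤ) by omega, grZ_natCast]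
      exact (ψ.symm (P a)).2
    · have : P a = 0 := by
        apply Subtype.ext
        change proj h (n + c) a = 0
        by_cases h0 : 0 ≤ i
        · lift i to ℕ using h0
          rw [grZ_natCast] at ha
          exact proj_ne h ha (by intro h'; apply hi; exact_mod_cast h')
        · rw [grZ_of_neg (by omega)] at ha
          rw [(Submodule.mem_bot _).1 ha, map_zero]
      rw [LinearMap.comp_apply, LinearMap.comp_apply, this, map_zero, map_zero]
      exact Submodule.zero_mem _
  · intro a ha
    have h1 : P ((L ^ c) a) = ψ ⟨a, ha⟩ := by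
      apply Subtype.ext
      change proj h (n + c) ((L ^ c) a) = (L ^ c) a
      exact proj_same h (hmem a ha)
    rw [LinearMap.comp_apply, LinearMap.comp_apply, h1]
    simp

theorem exists_isLam [Module.Finite K V] (h : DirectSum.IsInternal gr) (hL : IsHom gr 2 L)
    (hbd : ∀ i, 2 * n + 1 ≤ i → gr i = ⊥) (hHL : HardLef gr n L) :
    ∃ Lam : Module.End K V, IsHom gr (-2) Lam ∧ IsLam gr n L Lam := by
  obtain ⟨Φ, h1, h2⟩ := (isHom_opAlg gr).exists_lam (n := n) (L := L) h hbd (by simpa using hL) hHL
    (fun c hc => exists_theta h hL hHL hc)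
  exact ⟨Φ, by simpa using h1, h2⟩

/-- The `sl(2)`-triple attached to a hard Lefschetz structure. -/
theorem exists_sl2 [Module.Finite K V] (h : DirectSum.IsInternal gr) (hL : IsHom gr 2 L)
    (hbd : ∀ i, 2 * n + 1 ≤ i → gr i = ⊥) (hHL : HardLef gr n L) :
    ∃ Lam : Module.End K V, Sl2 (wt h n) L Lam ∧ IsHom gr (-2) Lam ∧
      ∀ i ≤ n, ∀ a ∈ gr i, (L ^ (n - i + 1)) a = 0 → ∀ j ≤ n - i,
        Lam ((L ^ j) a) = ((j : K) * (((n - i : ℕ) : K) - j + 1)) • (L ^ (j - 1)) a := by
  obtain ⟨Φ, hΦh, hΦ⟩ := exists_isLam h hL hbd hHL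
  set Lam : Module.End K V := ∑ i ∈ range (n + 1), ∑ j ∈ range (n - i + 1),
    ((j : K) * (((n - i : ℕ) : K) - j + 1)) • (Φ * eij h L Φ i j) with hLam
  have hval : ∀ i ≤ n, ∀ a ∈ gr i, (L ^ (n - i + 1)) a = 0 → ∀ j ≤ n - i,
      Lam ((L ^ j) a) = ((j : K) * (((n - i : ℕ) : K) - j + 1)) • (L ^ (j - 1)) a := by
    intro i hi a ha hp j hj
    rw [hLam, LinearMap.sum_apply, Finset.sum_eq_single i]
    · rw [LinearMap.sum_apply, Finset.sum_eq_single j]
      · rw [LinearMap.smul_apply, Module.End.mul_apply, eij_apply h hL hΦ hi ha hp hj,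
          if_pos ⟨rfl, rfl⟩]
        rcases Nat.eq_zero_or_pos j with rfl | h0
        · simp
        · have := (hΦ i hi a ha hp).2 (j - 1) (by omega)
          rw [show j - 1 + 1 = j by omega] at this
          rw [this]
      · intro j' _ hj'
        rw [LinearMap.smul_apply, Module.End.mul_apply, eij_apply h hL hΦ hi ha hp hj,
          if_neg (by tauto), map_zero, smul_zero]
      · intro h'; exact absurd (Finset.mem_range.2 (by omega)) h'
    · intro i' _ hi'
      rw [LinearMap.sum_apply]
      apply Finset.sum_eq_zero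
      intro j' _
      rw [LinearMap.smul_apply, Module.End.mul_apply, eij_apply h hL hΦ hi ha hp hj,
        if_neg (by tauto), map_zero, smul_zero]
    · intro h'; exact absurd (Finset.mem_range.2 (by omega)) h'
  have hhom : IsHom gr (-2) Lam := by
    apply IsHom.sum
    intro i _
    apply IsHom.sum
    intro j _
    apply IsHom.smul
    have h1 : IsHom gr 0 (eij h L Φ i j) := by
      unfold eij
      have h2 := (isHom_one (gr := gr)).sub (by simpa using hL.mul hΦh)
      have h3 : IsHom gr 0 (proj h i) := isHom_scal h _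
      have h4 := (hL.pow j).mul ((h2.mul h3).mul (hΦh.pow j))
      have e : (j : ℤ) * 2 + (0 + 0 + (j : ℤ) * (-2)) = 0 := by ring
      rw [e] at h4
      exact h4
    simpa using hΦh.mul h1
  refine ⟨Lam, ⟨?_, ?_, ?_⟩, hhom, hval⟩
  · apply LinearMap.ext
    intro x
    refine lef_induction' h hL hbd hHL
      (p := fun x => (L * Lam - Lam * L) x = wt h n x) ?_ ?_ x
    · intro a b ha hb; rw [map_add, map_add, ha, hb]
    · intro i hi a ha hp j
      by_cases hj : j ≤ n - i
      · rw [LinearMap.sub_apply, Module.End.mul_apply, Module.End.mul_apply, hval i hi a ha hp j hj,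
          ← Module.End.mul_apply L, ← pow_succ', wt, scal_apply h _ (pow_L_mem hL ha j), map_smul]
        have h1 : L ((L ^ (j - 1)) a) = if j = 0 then L a else (L ^ j) a := by
          split_ifs with h0
          · subst h0; simp
          · rw [← Module.End.mul_apply L, ← pow_succ', show j - 1 + 1 = j by omega]
        have h2 : Lam ((L ^ (j + 1)) a) = (((j : K) + 1) * (((n - i : ℕ) : K) - j)) • (L ^ j) a := by
          by_cases h3 : j + 1 ≤ n - i
          · rw [hval i hi a ha hp (j + 1) h3, Nat.add_sub_cancel]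
            congr 1
            push_cast; ring
          · rw [L_pow_gt hp (by omega), map_zero]
            have : j = n - i := by omega
            rw [this, sub_self, mul_zero, zero_smul]
        rw [h1, h2, node]
        have h3 : ((n - i : ℕ) : K) = n - i := by rw [Nat.cast_sub hi]
        split_ifs with h0
        · subst h0
          rw [h3]
          push_cast
          simp only [pow_zero, Module.End.one_apply, zero_mul, zero_smul, zero_sub, mul_zero,
            add_zero]
          rw [← neg_smul]
          congr 1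
          ring
        · rw [← sub_smul, h3]
          congr 1
          push_cast
          ring
      · rw [L_pow_gt hp (by omega), map_zero, map_zero]
  · rw [hL.wt_comm h n]
    rw [add_sub_cancel_left]
    push_cast
    rw [ofNat_smul_eq_nsmul, nsmul_eq_mul]
    rfl
  · rw [hhom.wt_comm h n]
    rw [add_sub_cancel_left]
    push_cast
    rw [neg_smul, ofNat_smul_eq_nsmul, nsmul_eq_mul]
    rfl

end Pool.Agent.H914
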