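import Pool.Agent.H88.L.H914R2.HodgeDefs
import Pool.Agent.H88.L.H914R2.KDefs2

/-!
# Homological and numerical equivalence: definitions
-/

open CategoryTheory AlgebraicGeometry Polynomial

universe u v

namespace Pool.Agent.H914

section Alg

variable {K : Type*} [Field K] {V : Type*} [AddCommGroup V] [Module K V]

/-- The operator `F` is semisimple on the subspace `U`: on `U` it is annihilated by a squarefree
polynomial. -/
def SemisimpleOn (F : Module.End K V) (U : Submodule K V) : Prop :=
  ∃ P : K[X], Squarefree P ∧ ∀ a ∈ U, aeval F P a = 0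

/-- For every `m ≥ 1`, every endomorphism `Z` of the space `V` graded by the subspaces `gr i` which
preserves the degrees and the subspace `U`, and which commutes with `F ^ m` on `U`, agrees on `U`
with an element of the space of operators `E`. -/
def CommIn (gr : ℕ → Submodule K V) (F : Module.End K V) (U : Submodule K V)
    (E : Submodule K (Module.End K V)) : Prop :=
  ∀ m ≥ 1, ∀ Z : Module.End K V, (∀ i, ∀ a ∈ gr i, Z a ∈ gr i) → (∀ a ∈ U, Z a ∈ U) →
    (∀ a ∈ U, Z ((F ^ m) a) = (F ^ m) (Z a)) → ∃ Z' ∈ E, ∀ a ∈ U, Z a = Z' a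

/-- The linear combinations of the operators given by the elements of `S`. -/
def corrSpan {A C : Type*} [Ring A] [Algebra K A] [Ring C] [Algebra K C] (p : A →ₐ[K] C)
    (s : C →ₗ[K] A) (S : Set C) : Submodule K (Module.End K A) :=
  Submodule.span K {T | ∃ c ∈ S, corrOp p s c = T}

/-- Every endomorphism of the graded space which preserves the subspace `U` and commutes on `U`
with a power `F ^ m`, `m ≥ 1`, agrees on `U` with a linear combination of the operators given by
the elements of `S`. -/
def CommutantIn {A C : Type*} [Ring A] [Algebra K A] [Ring C] [Algebra K C]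
    (gr : ℕ → Submodule K A) (F : Module.End K A) (U : Submodule K A) (p : A →ₐ[K] C)
    (s : C →ₗ[K] A) (S : Set C) : Prop :=
  CommIn gr F U (corrSpan p s S)

/-- For all `i` and all eigenvalues `α` of `F` on `gr i` (elements of the extension `L` of `K`
which are roots of all polynomials over `K` annihilating `F` on `gr i`), the automorphism `τ`
of `L` over `K` maps `α` to `q ^ i / α`. -/
def ConjugatesTo {L : Type*} [Field L] [Algebra K L] (gr : ℕ → Submodule K V)
    (F : Module.End K V) (τ : L ≃ₐ[K] L) (q : ℕ) : Prop :=
  ∀ i, ∀ α : L, (∀ P : K[X], (∀ a ∈ gr i, aeval F P a = 0) → aeval α P = 0) →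
    τ α * α = (q : L) ^ i

end Alg

open VarClass Obj WeilCohomology

variable {k : Type u} [Field k] {𝒱 : VarClass k} {ops : CycleOps 𝒱}

/-- For every `m ≥ 1`, every `K`-linear endomorphism of `H(X)` which preserves the degrees and the
transcendental cohomology `T(X)` and which commutes with `(f^*) ^ m` on `T(X)` agrees on `T(X)`
with a `K`-linear combination of algebraic correspondences of degree zero, where `K` is the
coefficient field. -/
def AlgebraicCommutant (W : WeilCohomology.{u, v} ops) (X : 𝒱.Obj) (f : X ⟶ X) : Prop :=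
  CommutantIn (W.gr X) (W.map f).toLinearMap (transcendental W X) (W.map (fst X X))
    (W.push (snd X X)) (algClasses W (X.prod X) X.dim)

/-- The automorphism `τ` maps every eigenvalue `α` of `f^*` on `H^i(X)` to `q ^ i / α`. -/
def ConjugatesFrobenius (W : WeilCohomology.{u, v} ops) (X : 𝒱.Obj) (f : X ⟶ X) (q : ℕ)
    {L : Type v} [Field L] [Algebra W.K L] (τ : L ≃ₐ[W.K] L) : Prop :=
  ConjugatesTo (W.gr X) (W.map f).toLinearMap τ q

/-- The endomorphism `f^*` is semisimple on the transcendental cohomology. -/
def FrobeniusSemisimple (W : WeilCohomology.{u, v} ops) (X : 𝒱.Obj) (f : X ⟶ X) : Prop :=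
  SemisimpleOn (W.map f).toLinearMap (transcendental W X)

/-- The standard conjecture D for `X`: a cycle of codimension `j` all of whose intersection
numbers with cycles of the complementary codimension vanish is homologically equivalent to
zero. -/
def HomEqNum (W : WeilCohomology.{u, v} ops) (X : 𝒱.Obj) : Prop :=
  ∀ j ≤ X.dim, ∀ z, X.IsCyc j z →
    (∀ w, X.IsCyc (X.dim - j) w → X.V.degCycle (ops.mul z w) = 0) → W.cl X z = 0

/-- The varieties which are products of varieties in `S`. -/
inductive IsProductOf (S : Set 𝒱.Obj) : 𝒱.Obj → Prop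
  | base {X : 𝒱.Obj} : X ∈ S → IsProductOf S X
  | prod {X Y : 𝒱.Obj} : IsProductOf S X → IsProductOf S Y → IsProductOf S (X.prod Y)

/-- The variety `Y` is dominated by `X`: there are a morphism `g` from `X` to `Y` and a cycle `w`
on `X` whose direct image is a nonzero multiple of the fundamental class of `Y`. -/
def Dominates (W : WeilCohomology.{u, v} ops) (X Y : 𝒱.Obj) : Prop :=
  ∃ (g : X ⟶ Y) (p : ℕ) (w : X.Cycles) (c : W.K), X.IsCyc p w ∧ c ≠ 0 ∧
    W.push g (W.cl X w) = c • 1

end Pool.Agent.H914
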