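import Pool.Agent.H88.L.H914R2.Weil

/-!
# Correspondences: definitions
-/

open CategoryTheory AlgebraicGeometry

universe u v

namespace Pool.Agent.H914

open VarClass Obj

variable {k : Type u} [Field k] {𝒱 : VarClass k} {ops : CycleOps 𝒱}

namespace WeilCohomology

variable (W : WeilCohomology.{u, v} ops) {X Y Z : 𝒱.Obj}

/-- The projection of a triple product to the first two factors. -/
noncomputable def p12 (X Y Z : 𝒱.Obj) : X.prod (Y.prod Z) ⟶ X.prod Y :=
  Obj.lift (fst X (Y.prod Z)) (snd X (Y.prod Z) ≫ fst Y Z)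

/-- The projection of a triple product to the last two factors. -/
noncomputable def p23 (X Y Z : 𝒱.Obj) : X.prod (Y.prod Z) ⟶ Y.prod Z := snd X (Y.prod Z)

/-- The projection of a triple product to the first and the third factor. -/
noncomputable def p13 (X Y Z : 𝒱.Obj) : X.prod (Y.prod Z) ⟶ X.prod Z :=
  Obj.lift (fst X (Y.prod Z)) (snd X (Y.prod Z) ≫ snd Y Z)

/-- The operator in cohomology induced by a class on the product. -/
noncomputable def corr (c : W.H (X.prod Y)) : W.H X →ₗ[W.K] W.H Y :=
  corrOp (W.map (fst X Y)) (W.push (snd X Y)) c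

end WeilCohomology

open WeilCohomology

/-- Composition of correspondences, on the level of cycles. -/
noncomputable def compCyc (ops : CycleOps 𝒱) {X Y Z : 𝒱.Obj} (z : (X.prod Y).Cycles)
    (w : (Y.prod Z).Cycles) : (X.prod Z).Cycles :=
  ops.push (p13 X Y Z) (ops.mul (ops.pull (p12 X Y Z) z) (ops.pull (p23 X Y Z) w))

end Pool.Agent.H914
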