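import Pool.Agent.H88.L.H914R2.GMain
import Pool.Agent.H88.L.H914R2.WPos

/-!
# The Riemann hypothesis from the conjecture of Hodge type for `X × X`
-/

open CategoryTheory AlgebraicGeometry Finset Polynomial

universe u v

namespace Pool.Agent.H914

open VarClass Obj WeilCohomology

variable {k : Type u} [Field k] {𝒱 : VarClass k} {ops : CycleOps 𝒱}
  {W : WeilCohomology.{u, v} ops} {X Y Z : 𝒱.Obj}

lemma rop_of_cyc {z : (X.prod X).Cycles} (hz : (X.prod X).IsCyc X.dim z) :
    ROp W X 0 (W.corr (W.cl _ z)) :=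
  ⟨fun W => W.corr (W.cl _ z), Or.inl ⟨X.dim, by simp, z, hz, fun _ => rfl⟩, rfl⟩

lemma cyc_of_rop {y : Module.End W.K (W.H X)} (hy : ROp W X 0 y) :
    ∃ z, (X.prod X).IsCyc X.dim z ∧ W.corr (W.cl _ z) = y := by
  obtain ⟨Y, ⟨q, hq, z, hz, hY⟩ | ⟨hd, _⟩, rfl⟩ := hy
  · obtain rfl : q = X.dim := by omega
    exact ⟨z, hz, (hY W).symm⟩
  · omega

lemma rop_proj (hK : KunnethStd W X) (i : ℕ) : ROp W X 0 (proj (W.isInternal X) i) := by
  obtain ⟨P, hP, hP'⟩ := hK i
  have : proj (W.isInternal X) i = W.corr (W.cl _ P) := by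
    apply gr_ext (W.isInternal X)
    intro j a ha
    have h1 := hP' j a ha
    rw [h1]
    split_ifs with hij
    · subst hij; exact proj_same _ ha
    · exact proj_ne _ ha hij
  rw [this]
  exact rop_of_cyc hP

lemma rop_sum {ι : Type} {s : Finset ι} {y : ι → Module.End W.K (W.H X)}
    (hy : ∀ i ∈ s, ROp W X 0 (y i)) : ROp W X 0 (∑ i ∈ s, y i) := by
  classical
  induction s using Finset.induction_on with
  | empty => simpa using rop_opAlg.zero 0
  | insert a s ha ih =>
    rw [Finset.sum_insert ha]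
    exact rop_opAlg.add (hy a (by simp)) (ih (fun i hi => hy i (by simp [hi])))

lemma rop_scal (hK : KunnethStd W X) (f : ℕ → ℚ) :
    ROp W X 0 (scal (W.isInternal X) (fun i => (f i : W.K))) := by
  rw [scal_eq_sum (W.isInternal X) (N := 2 * X.dim + 1) W_hbd]
  exact rop_sum (fun i _ => rop_opAlg.smul _ (rop_proj hK i))

lemma rop_mul0 {y z : Module.End W.K (W.H X)} (hy : ROp W X 0 y) (hz : ROp W X 0 z) :
    ROp W X 0 (y * z) := by
  have := rop_opAlg.mul hy hz
  rwa [add_zero] at this

lemma rop_ev {y : Module.End W.K (W.H X)} (hy : ROp W X 0 y) (p : ℚ[X]) :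
    ROp W X 0 (ev y p) := by
  obtain ⟨Y, hY, rfl⟩ := hy
  exact ⟨_, hY.ev p, rfl⟩

lemma corr_bijective : Function.Bijective
    (⟨⟨fun c => W.corr c, fun c d => W.corr_add c d⟩, fun q c => W.corr_smul q c⟩ :
      W.H (X.prod X) →ₗ[W.K] Module.End W.K (W.H X)) := by
  set θ : W.H (X.prod X) →ₗ[W.K] Module.End W.K (W.H X) :=
    ⟨⟨fun c => W.corr c, fun c d => W.corr_add c d⟩, fun q c => W.corr_smul q c⟩ with hθ
  have hinj : Function.Injective θ := by
    intro c d h
    rw [← sub_eq_zero]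
    apply corr_inj
    have h1 : θ (c - d) = 0 := by rw [map_sub, h, sub_self]
    exact h1
  have hdim : Module.finrank W.K (W.H (X.prod X)) =
      Module.finrank W.K (Module.End W.K (W.H X)) := by
    have e1 := (LinearEquiv.ofBijective _ (W.kunneth X X)).finrank_eq
    rw [← e1, Module.finrank_tensorProduct, Module.finrank_linearMap]
  exact ⟨hinj, (LinearMap.injective_iff_surjective_of_finrank_eq_finrank hdim).1 hinj⟩

/-- The space of classes on `X × X` is the space of operators. -/
noncomputable def corrEquiv (W : WeilCohomology.{u, v} ops) (X : 𝒱.Obj) :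
    W.H (X.prod X) ≃ₗ[W.K] Module.End W.K (W.H X) :=
  LinearEquiv.ofBijective _ corr_bijective

lemma corrEquiv_symm_corr (c : W.H (X.prod X)) : (corrEquiv W X).symm (W.corr c) = c :=
  (LinearEquiv.symm_apply_eq _).2 rfl

/-- The form on the operators which corresponds to the intersection form on `X × X`. -/
noncomputable def opForm (W : WeilCohomology.{u, v} ops) (X : 𝒱.Obj) :
    Module.End W.K (W.H X) →ₗ[W.K] Module.End W.K (W.H X) →ₗ[W.K] W.K :=
  ((-1 : W.K) ^ X.dim) •
    ((bil W (X.prod X)).compl₁₂ (corrEquiv W X).symm.toLinearMap (corrEquiv W X).symm.toLinearMap)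

lemma opForm_corr (c d : W.H (X.prod X)) :
    opForm W X (W.corr c) (W.corr d) = (-1 : W.K) ^ X.dim * W.tr (X.prod X) (c * d) := by
  rw [opForm, LinearMap.smul_apply, LinearMap.smul_apply, LinearMap.compl₁₂_apply, smul_eq_mul,
    LinearEquiv.coe_coe, corrEquiv_symm_corr, corrEquiv_symm_corr, bil_apply]

end Pool.Agent.H914
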