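import Pool.Agent.H88.L.H914R2.GFrob

/-!
# The standard conjecture of Hodge type for `X × X`
-/

open CategoryTheory AlgebraicGeometry Finset Polynomial

universe u v

namespace Pool.Agent.H914

open VarClass Obj WeilCohomology

variable {k : Type u} [Field k] {𝒱 : VarClass k} {ops : CycleOps 𝒱}
  {W : WeilCohomology.{u, v} ops} {X Y Z : 𝒱.Obj}

lemma frob_square {f : X ⟶ X} {q : ℕ} (hF : FrobeniusOnCycles W (X.prod X) (squareMap f) q)
    {j : ℕ} {z : (X.prod X).Cycles} (hz : (X.prod X).IsCyc j z) :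
    ∃ m ≥ 1, ∀ e, W.map (squareMap (iter f (m * e))) (W.cl _ z) =
      (q : W.K) ^ (m * e * j) • W.cl _ z := by
  obtain ⟨m, hm, h⟩ := hF j z hz
  refine ⟨m, hm, fun e => ?_⟩
  rw [cl_pull_iter] at h
  rw [← map_squareMap_pow]
  exact pow_mul_smul h e

lemma frob_single {f : X ⟶ X} {q : ℕ} (hF : FrobeniusOnCycles W (X.prod X) (squareMap f) q)
    (hb : ∃ b : W.H X, W.tr X b ≠ 0) {j : ℕ} {z : X.Cycles} (hz : X.IsCyc j z) :
    ∃ m ≥ 1, ∀ e, W.map (iter f (m * e)) (W.cl _ z) = (q : W.K) ^ (m * e * j) • W.cl _ z := by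
  obtain ⟨m, hm, h⟩ := frob_square hF (ops.pull_mem (fst X X) hz)
  refine ⟨m, hm, fun e => ?_⟩
  have := h e
  rw [W.cl_pull] at this
  exact map_eq_of_fst this hb

/-- The powers of an operator satisfy the Riemann hypothesis. -/
lemma riemann_pow {f : X ⟶ X} {q : ℕ} (hRH : RiemannHypothesis W X f q) (M : ℕ) (i : ℕ) :
    ∃ P : ℚ[X], P ≠ 0 ∧ (∀ a ∈ W.gr X i, ev (W.map (iter f M)).toLinearMap P a = 0) ∧
      ∀ z : ℂ, aeval z P = 0 → ‖z‖ ^ 2 = ((q ^ M : ℕ) : ℝ) ^ i := by
  obtain ⟨P, hP0, hPa, hPz⟩ := hRH i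
  obtain ⟨R, hR0, hPR, hRz⟩ := exists_pow_poly P hP0 M
  refine ⟨R, hR0, ?_, ?_⟩
  · intro a ha
    have h1 : (W.map (iter f M)).toLinearMap = (W.map f).toLinearMap ^ M := by
      apply LinearMap.ext
      intro a
      exact map_iter f M a
    rw [h1, ev_eq]
    obtain ⟨S, hS⟩ := hPR
    have h2 : aeval ((W.map f).toLinearMap ^ M) (R.map (algebraMap ℚ W.K)) =
        aeval (W.map f).toLinearMap ((R.comp (Polynomial.X ^ M)).map (algebraMap ℚ W.K)) := by
      rw [Polynomial.map_comp, Polynomial.aeval_comp, Polynomial.map_pow, Polynomial.map_X, map_pow,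
        aeval_X]
    rw [h2, hS, Polynomial.map_mul, mul_comm, map_mul, Module.End.mul_apply, hPa a ha, map_zero]
  · intro z hz
    obtain ⟨a, ha, rfl⟩ := hRz z hz
    rw [norm_pow, ← pow_mul, mul_comm M, pow_mul, hPz a ha]
    push_cast
    rw [← pow_mul, ← pow_mul, mul_comm]

/-- **The standard conjecture of Hodge type for `X × X`.** -/
theorem hodgeType_square {D : X.Cycles} (hD : X.IsCyc 1 D) (hHL : HardLefschetz W X D)
    (hA : LefschetzA W X D) (hH : HodgeType W X D) {f : X ⟶ X} {q : ℕ} (hq : 0 < q)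
    (hF : FrobeniusOnCycles W (X.prod X) (squareMap f) q) (hRH : RiemannHypothesis W X f q)
    (hS : SimpleSpectrum W X f) : HodgeType W (X.prod X) (boxSum ops D) := by
  classical
  intro j hj z hz hprim hz0
  rw [dim_prod] at hj hprim ⊢
  by_cases h1 : (1 : W.H X) = 0
  · exfalso
    apply hz0
    have h2 : (1 : W.H (X.prod X)) = 0 := by
      rw [← map_one (W.map (fst X X)), h1, map_zero]
    rw [← one_mul (W.cl (X.prod X) z), h2, zero_mul]
  obtain ⟨b, hbalg, hb0⟩ := exists_top (W := W) hD hHL h1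
  have hbex : ∃ b : W.H X, W.tr X b ≠ 0 := ⟨b, hb0⟩
  set n := X.dim with hn
  set L : Module.End W.K (W.H X) := LinearMap.mulLeft W.K (W.cl X D) with hL
  have h := W.isInternal X
  have hbd : ∀ i, 2 * n + 1 ≤ i → W.gr X i = ⊥ := W_hbd
  have hLh : IsHom (W.gr X) 2 L := mulLeft_isHom hD
  have hC : AlgPart (W.gr X) n L (bil W X) (algClasses W X) := algPart hD hA hH
  have hHL' : HardLef (W.gr X) n L := hHL
  -- finitely many generators of the algebraic classes
  obtain ⟨Lam, t, hLamh, hval⟩ := exists_sl2 h hLh hbd hHL'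
  obtain ⟨w, hw1, -, hw3, hw4⟩ := exists_weyl t
  have hlow : ∀ i ≤ n, ∀ a ∈ W.gr X i, (L ^ (n - i + 1)) a = 0 → Lam a = 0 := by
    intro i hi a ha hp
    have := hval i hi a ha hp 0 (by omega)
    simpa using this
  have hHw : ∀ i, ∀ a ∈ W.gr X i, wt h n a = ((i : W.K) - n) • a := by
    intro i a ha
    rw [wt, scal_apply h _ ha, node]
    push_cast; rfl
  obtain ⟨κ, _, l, x, φ, p, hp⟩ := hC.exists_projData t hw1 hw3 hlow hHw hLh hbd
  -- the exponent
  have hxk : ∀ k, ∃ m ≥ 1, ∀ e, W.map (iter f (m * e)) (x k) =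
      (q : W.K) ^ (m * e * l k) • x k := by
    intro k
    obtain ⟨zk, hzk, hk⟩ := hp.mem k
    rw [← hk]
    exact frob_single hF hbex hzk
  choose mk hmk1 hmk using hxk
  obtain ⟨zb, hzb, hzb'⟩ := hbalg
  obtain ⟨mb, hmb1, hmb⟩ := frob_single hF hbex hzb
  rw [hzb'] at hmb
  obtain ⟨mz, hmz1, hmz⟩ := frob_square hF hz
  obtain ⟨ms, hms1, hms⟩ := frob_square hF (ops.pull_mem (swap X X) hz)
  set M := mb * mz * ms * ∏ k, mk k with hM
  have hM1 : 1 ≤ M := by
    apply Nat.one_le_iff_ne_zero.2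
    rw [hM]
    refine mul_ne_zero (mul_ne_zero (mul_ne_zero (by omega) (by omega)) (by omega)) ?_
    exact Finset.prod_ne_zero_iff.2 (fun k _ => by have := hmk1 k; omega)
  set ψ : X ⟶ X := iter f M with hψ
  set Q : ℕ := q ^ M with hQ
  have hQ0 : 0 < Q := pow_pos hq M
  have hQK : (Q : W.K) ≠ 0 := by exact_mod_cast hQ0.ne'
  have hpow : ∀ i, (q : W.K) ^ (M * i) = (Q : W.K) ^ i := by
    intro i
    rw [hQ, pow_mul]; push_cast; rfl
  have hψb : W.map ψ b = (Q : W.K) ^ n • b := by
    have := hmb (mz * ms * ∏ k, mk k)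
    rw [show mb * (mz * ms * ∏ k, mk k) = M by rw [hM]; ring, hpow] at this
    exact this
  have hψz : W.map (squareMap ψ) (W.cl _ z) = (Q : W.K) ^ j • W.cl _ z := by
    have := hmz (mb * ms * ∏ k, mk k)
    rw [show mz * (mb * ms * ∏ k, mk k) = M by rw [hM]; ring, hpow] at this
    exact this
  have hψs : W.map (squareMap ψ) (W.cl _ (ops.pull (swap X X) z)) =
      (Q : W.K) ^ j • W.cl _ (ops.pull (swap X X) z) := by
    have := hms (mb * mz * ∏ k, mk k)
    rw [show ms * (mb * mz * ∏ k, mk k) = M by rw [hM]; ring, hpow] at this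
    exact this
  have hψx : ∀ k, W.map ψ (x k) = (Q : W.K) ^ (l k) • x k := by
    intro k
    obtain ⟨e, he⟩ : mk k ∣ ∏ k, mk k := Finset.dvd_prod_of_mem _ (Finset.mem_univ k)
    have := hmk k (mb * mz * ms * e)
    rw [show mk k * (mb * mz * ms * e) = M by rw [hM, he]; ring, hpow] at this
    exact this
  set G : Module.End W.K (W.H X) := (W.map ψ).toLinearMap with hG
  have hGa : ∀ a, G a = W.map ψ a := fun a => rfl
  have hGC : ∀ l, ∀ c ∈ algClasses W X l, G c = (Q : W.K) ^ l • c := by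
    intro l₀ c hc
    have h2 := hp.fix l₀ c hc
    rw [hp.p_eq] at h2
    rw [← h2, map_sum, Finset.smul_sum]
    apply Finset.sum_congr rfl
    intro k _
    rw [map_smul, hGa, hψx, smul_smul, smul_smul]
    by_cases hk : l k = l₀
    · rw [hk, mul_comm]
    · have h3 : bil W X c (w (x k)) = 0 := by
        have h4 := hC.weyl_mem t hw1 hw3 hlow hHw hLh hbd (hp.le k) (hp.mem k)
        have h5 := hp.le k
        by_cases hl₀ : l₀ ≤ n
        · exact hC.deg _ _ _ (hC.sub _ _ hc) _ (hC.sub _ _ h4) (by omega)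
        · rw [hC.eq_zero_of_gt hbd (by omega) hc, map_zero, LinearMap.zero_apply]
      rw [h3]
      simp
  have hδ : ∀ a, W.tr X (W.map ψ a) = (Q : W.K) ^ n * W.tr X a := by
    intro a
    refine tr_map_of_top (b := b) ?_ hb0 hψb a
    rw [← hzb']
    exact W.cl_mem hzb
  set r := n - j with hr
  have hjr : j + r = n := by omega
  set T : Module.End W.K (W.H X) := W.corr (W.cl _ z) with hT
  set T' : Module.End W.K (W.H X) := W.corr (W.map (swap X X) (W.cl _ z)) with hT'
  have hT'cl : T' = W.corr (W.cl _ (ops.pull (swap X X) z)) := by rw [hT', W.cl_pull]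
  have hcomm : ∀ c : W.H (X.prod X), W.map (squareMap ψ) c = (Q : W.K) ^ j • c →
      (W.corr c : Module.End W.K (W.H X)) * G = (Q : W.K) ^ r • (G * W.corr c) := by
    intro c hc
    apply LinearMap.ext
    intro a
    have h2 := corr_squareMap hδ c a
    rw [hc, corr_smul, LinearMap.smul_apply] at h2
    rw [LinearMap.smul_apply]
    change W.corr c (W.map ψ a) = (Q : W.K) ^ r • W.map ψ (W.corr c a)
    apply smul_right_injective _ (pow_ne_zero j hQK)
    beta_reduce
    rw [h2, smul_smul, ← pow_add, hjr]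
  have hzmem : W.cl _ z ∈ W.gr (X.prod X) (2 * j) := W.cl_mem hz
  have hsmem : W.map (swap X X) (W.cl _ z) ∈ W.gr (X.prod X) (2 * j) := W.map_mem _ hzmem
  have hdeg : (2 * ((j : ℤ) - n)) = 2 * -(r : ℤ) := by omega
  have hropT : ROp W X (-(r : ℤ)) T :=
    ⟨fun W => W.corr (W.cl _ z), Or.inl ⟨j, by omega, z, hz, fun _ => rfl⟩, rfl⟩
  have hropL : ROp W X 1 L := rop_mulLeft hD
  have hropG : ROp W X 0 G := rop_map ψ
  have hOA := rop_opAlg (W := W) (X := X)
  have hropGk : ∀ i : ℕ, ROp W X 0 (G ^ i) := by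
    intro i
    obtain ⟨Y, hY, hY'⟩ := hropG
    refine ⟨_, hY.pow0 i, ?_⟩
    beta_reduce
    rw [hY']
  have hropLr : ROp W X r (L ^ r) := by
    obtain ⟨Y, hY, hY'⟩ := hropL
    refine ⟨_, (hY.pow r).cast (by ring), ?_⟩
    beta_reduce
    rw [hY']
  -- the intersection number as a trace
  set s : ℚ := (-1 : ℚ) ^ j * (X.prod X).V.degCycle
    (ops.mul z (divPow ops (boxSum ops D) (n + n - 2 * j) z)) with hs
  have hpar1 : (-1 : W.K) ^ (n + r) = (-1) ^ j := by
    rw [show n + r = j + 2 * r by omega, pow_add, pow_mul]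
    simp
  have htr : (-1 : W.K) ^ (n + r) * LinearMap.trace W.K (W.H X)
      (par h * ((dbl L) ^ (2 * r)) T * T') = s := by
    have e1 : ((dbl L) ^ (2 * r)) T = W.corr (W.cl _ (divPow ops (boxSum ops D) (2 * r) z)) := by
      rw [cl_divPow, corr_boxSum_pow hD]
    have hmem := W.cl_mem (divPow_mem (ops := ops) (boxSum_mem (ops := ops) hD) (2 * r) hz)
    rw [e1, hT', ← tr_mul_eq_trace hmem, ← W.even_comm hzmem, ← W.cl_mul, hpar1, hs,
      show n + n - 2 * j = 2 * r by omega, W.tr_cl]
    · push_cast; rfl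
    · have := ops.mul_mem hz (divPow_mem (ops := ops) (boxSum_mem (ops := ops) hD) (2 * r) hz)
      rw [dim_prod]
      rwa [show j + (j + 2 * r) = n + n by omega] at this
  obtain ⟨hs0, hsz⟩ := assembly (G := G) (G' := W.push ψ) (T := T) (T' := T') (q := Q) (r := r)
    (s := s) h hbd hLh hHL' hC
    (fun b hb => nondeg_right (fun a => hb a)) hQ0
    (by
      have := hOA.hom hropG
      simpa using this)
    (by
      apply LinearMap.ext
      intro a
      rw [Module.End.mul_apply, LinearMap.smul_apply, Module.End.mul_apply, hL,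
        LinearMap.mulLeft_apply, LinearMap.mulLeft_apply, hGa, hGa, map_mul]
      have := hGC 1 (W.cl X D) ⟨D, hD, rfl⟩
      rw [hGa, pow_one] at this
      rw [this, smul_mul_assoc])
    hGC (fun a b => tr_map_adj ψ a b)
    (by
      apply LinearMap.ext
      intro a
      rw [Module.End.mul_apply, hGa, push_map hδ, LinearMap.smul_apply, Module.End.one_apply])
    (by
      have h2 : (((Q : W.K) ^ n)⁻¹ • W.push ψ : Module.End W.K (W.H X)) * G = 1 := by
        apply LinearMap.ext
        intro a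
        rw [Module.End.mul_apply, LinearMap.smul_apply, hGa, push_map hδ, smul_smul,
          inv_mul_cancel₀ (pow_ne_zero _ hQK), one_smul, Module.End.one_apply]
      have h3 := mul_eq_one_comm.1 h2
      rw [mul_smul_comm] at h3
      rw [← h3, smul_smul, mul_inv_cancel₀ (pow_ne_zero _ hQK), one_smul])
    (by
      obtain ⟨hst, hsq⟩ := hS
      set A := (W.map f).toLinearMap.restrict hst with hA
      have hApow : ∀ (i : ℕ) (y : transcendental W X), ((A ^ i) y : W.H X) =
          ((W.map f).toLinearMap ^ i) y := fun i y => restrict_pow hst i y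
      have hGM : G = (W.map f).toLinearMap ^ M := by
        apply LinearMap.ext
        intro a
        exact map_iter f M a
      refine ⟨(A ^ M).charpoly, hsq M hM1, ?_, ?_⟩
      · rw [LinearMap.charpoly_natDegree, Tpart_eq]
      · intro R hR
        apply charpoly_dvd_of_squarefree (hsq M hM1)
        apply LinearMap.ext
        intro y
        apply Subtype.ext
        have h2 := hR y (by rw [Tpart_eq]; exact y.2)
        rw [hGM] at h2
        have hst' : ∀ a ∈ transcendental W X, ((W.map f).toLinearMap ^ M) a ∈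
            transcendental W X := fun a ha => by
          rw [← hApow M ⟨a, ha⟩]; exact Subtype.mem _
        have h3 : A ^ M = ((W.map f).toLinearMap ^ M).restrict hst' := by
          apply LinearMap.ext
          intro y
          apply Subtype.ext
          exact hApow M y
        rw [h3, restrict_aeval, h2]
        rfl)
    (riemann_pow hRH M)
    (by have := W.corr_isHom hzmem; rwa [hdeg] at this)
    (by have := W.corr_isHom hsmem; rwa [hdeg] at this)
    (fun a b => tr_corr_swap hzmem a b)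
    (fun l c hc hl => corr_alg hz hc hjr hl)
    (fun l c hc hl => by
      rw [hT'cl]
      exact corr_alg (ops.pull_mem _ hz) hc hjr hl)
    (hcomm _ hψz) (hcomm _ (by rw [← W.cl_pull]; exact hψs))
    (by
      rw [hT, ← corr_boxSum_pow hD, ← cl_divPow, show 2 * r + 1 = n + n - 2 * j + 1 by omega,
        hprim, corr_zero])
    (fun i => rop_str _ (hropGk i))
    (fun i => by
      have h2 := hOA.mul (hOA.mul hropLr hropT) (hropGk i)
      rw [add_neg_cancel, add_zero] at h2
      exact rop_str _ h2)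
    htr
  rcases hs0.lt_or_eq with h2 | h2
  · exact h2
  · exact absurd (corr_inj (hsz h2.symm)) hz0

end Pool.Agent.H914
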