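import Pool.Agent.H88.L.H914R2.Core2

/-!
# Graded vector spaces and homogeneous operators
-/

open Finset

namespace Pool.Agent.H914

section

variable {K : Type*} [Field K] {V : Type*} [AddCommGroup V] [Module K V]
  {gr : ℕ → Submodule K V}

/-- The operator acting as `f i` on the `i`-th graded piece. -/
noncomputable def scal (h : DirectSum.IsInternal gr) (f : ℕ → K) : Module.End K V :=
  (DirectSum.coeLinearMap gr) ∘ₗ
    (DirectSum.lmap (fun i => (f i • LinearMap.id : gr i →ₗ[K] gr i))) ∘ₗ
      (LinearEquiv.ofBijective (DirectSum.coeLinearMap gr) h).symm.toLinearMap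

lemma scal_apply (h : DirectSum.IsInternal gr) (f : ℕ → K) {i : ℕ} {a : V} (ha : a ∈ gr i) :
    scal h f a = f i • a := by
  have h1 : (LinearEquiv.ofBijective (DirectSum.coeLinearMap gr) h).symm a =
      DirectSum.lof K ℕ (fun i => gr i) i ⟨a, ha⟩ := by
    rw [LinearEquiv.symm_apply_eq]
    simp
  simp only [scal, LinearMap.comp_apply, LinearEquiv.coe_coe]
  rw [h1]
  simp

lemma gr_ext (h : DirectSum.IsInternal gr) {W : Type*} [AddCommGroup W] [Module K W]
    {F G : V →ₗ[K] W} (hFG : ∀ i, ∀ a ∈ gr i, F a = G a) : F = G := by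
  have h1 : LinearMap.eqLocus F G = ⊤ := by
    rw [eq_top_iff, ← h.submodule_iSup_eq_top]
    exact iSup_le (fun i a ha => hFG i a ha)
  ext a
  have : a ∈ LinearMap.eqLocus F G := by rw [h1]; trivial
  exact this

lemma gr_induction (h : DirectSum.IsInternal gr) {p : V → Prop} (hgr : ∀ i, ∀ a ∈ gr i, p a)
    (hadd : ∀ a b, p a → p b → p (a + b)) (a : V) : p a := by
  have ha : a ∈ iSup gr := by rw [h.submodule_iSup_eq_top]; trivial
  exact Submodule.iSup_induction gr (motive := p) ha (fun i a ha => hgr i a ha)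
    (hgr 0 0 (Submodule.zero_mem _)) hadd

/-- The graded pieces, indexed by the integers. -/
def grZ (gr : ℕ → Submodule K V) (i : ℤ) : Submodule K V := if 0 ≤ i then gr i.toNat else ⊥

lemma grZ_natCast (i : ℕ) : grZ gr (i : ℤ) = gr i := by simp [grZ]

lemma grZ_of_neg {i : ℤ} (hi : i < 0) : grZ gr i = ⊥ := by
  rw [grZ, if_neg (by omega)]

/-- Operators of degree `d`. -/
def IsHom (gr : ℕ → Submodule K V) (d : ℤ) (y : Module.End K V) : Prop :=
  ∀ i : ℤ, ∀ a ∈ grZ gr i, y a ∈ grZ gr (i + d)

lemma IsHom.mul {d e : ℤ} {y z : Module.End K V} (hy : IsHom gr d y) (hz : IsHom gr e z) :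
    IsHom gr (d + e) (y * z) := by
  intro i a ha
  have := hy _ _ (hz i a ha)
  rw [show i + (d + e) = i + e + d by ring]
  exact this

lemma IsHom.add {d : ℤ} {y z : Module.End K V} (hy : IsHom gr d y) (hz : IsHom gr d z) :
    IsHom gr d (y + z) := fun i a ha => Submodule.add_mem _ (hy i a ha) (hz i a ha)

lemma IsHom.sub {d : ℤ} {y z : Module.End K V} (hy : IsHom gr d y) (hz : IsHom gr d z) :
    IsHom gr d (y - z) := fun i a ha => Submodule.sub_mem _ (hy i a ha) (hz i a ha)

lemma IsHom.smul {d : ℤ} {y : Module.End K V} (hy : IsHom gr d y) (c : K) :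
    IsHom gr d (c • y) := fun i a ha => Submodule.smul_mem _ _ (hy i a ha)

lemma isHom_zero (d : ℤ) : IsHom gr d (0 : Module.End K V) := fun _ _ _ => Submodule.zero_mem _

lemma isHom_one : IsHom gr 0 (1 : Module.End K V) := fun i a ha => by simpa using ha

lemma IsHom.sum {ι : Type*} {d : ℤ} {s : Finset ι} {y : ι → Module.End K V}
    (hy : ∀ i ∈ s, IsHom gr d (y i)) : IsHom gr d (∑ i ∈ s, y i) := by
  classical
  induction s using Finset.induction_on with
  | empty => simpa using isHom_zero d
  | insert a s ha ih =>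
    rw [Finset.sum_insert ha]
    exact (hy a (by simp)).add (ih (fun i hi => hy i (by simp [hi])))

lemma IsHom.pow {d : ℤ} {y : Module.End K V} (hy : IsHom gr d y) (m : ℕ) :
    IsHom gr (m * d) (y ^ m) := by
  induction m with
  | zero => simpa using isHom_one
  | succ m ih =>
    rw [pow_succ]
    have := ih.mul hy
    rw [show ((m + 1 : ℕ) : ℤ) * d = m * d + d by push_cast; ring]
    exact this

lemma isHom_scal (h : DirectSum.IsInternal gr) (f : ℕ → K) : IsHom gr 0 (scal h f) := by
  intro i a ha
  rw [add_zero]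
  by_cases hi : 0 ≤ i
  · lift i to ℕ using hi
    rw [grZ_natCast] at ha ⊢
    rw [scal_apply h f ha]
    exact Submodule.smul_mem _ _ ha
  · rw [grZ_of_neg (by omega)] at ha ⊢
    rw [Submodule.mem_bot] at ha ⊢
    rw [ha, map_zero]

/-- Commutation of a homogeneous operator with a diagonal operator. -/
lemma IsHom.scal_comm (h : DirectSum.IsInternal gr) {d : ℤ} {y : Module.End K V}
    (hy : IsHom gr d y) (f g : ℤ → K) (hfg : ∀ i, f (i + d) = g i) :
    scal h (fun i => f i) * y = y * scal h (fun i => g i) := by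
  apply gr_ext h
  intro i a ha
  rw [Module.End.mul_apply, Module.End.mul_apply, scal_apply h _ ha, map_smul]
  have h1 := hy i a (by rw [grZ_natCast]; exact ha)
  by_cases hi : 0 ≤ (i : ℤ) + d
  · obtain ⟨j, hj⟩ := Int.eq_ofNat_of_zero_le hi
    rw [hj] at h1
    have h1' : y a ∈ gr j := by
      have := h1
      rwa [grZ_natCast] at this
    rw [scal_apply h _ h1', ← hfg, hj]
  · rw [grZ_of_neg (by omega)] at h1
    rw [(Submodule.mem_bot _).1 h1, map_zero, smul_zero]

lemma scal_mul (h : DirectSum.IsInternal gr) (f g : ℕ → K) :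
    scal h f * scal h g = scal h (fun i => f i * g i) := by
  apply gr_ext h
  intro i a ha
  rw [Module.End.mul_apply, scal_apply h g ha, map_smul, scal_apply h f ha, scal_apply h _ ha,
    smul_smul, mul_comm]

lemma scal_add (h : DirectSum.IsInternal gr) (f g : ℕ → K) :
    scal h f + scal h g = scal h (fun i => f i + g i) := by
  apply gr_ext h
  intro i a ha
  rw [LinearMap.add_apply, scal_apply h g ha, scal_apply h f ha, scal_apply h _ ha, add_smul]

lemma scal_one (h : DirectSum.IsInternal gr) : scal h (fun _ => (1 : K)) = 1 := by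
  apply gr_ext h
  intro i a ha
  rw [scal_apply h _ ha, one_smul, Module.End.one_apply]

lemma scal_pow (h : DirectSum.IsInternal gr) (f : ℕ → K) (r : ℕ) :
    scal h f ^ r = scal h (fun i => f i ^ r) := by
  induction r with
  | zero => simp [scal_one h]
  | succ r ih =>
    rw [pow_succ, ih, scal_mul]
    simp only [pow_succ]

/-- The projector onto the `i`-th graded piece. -/
noncomputable def proj (h : DirectSum.IsInternal gr) (i : ℕ) : Module.End K V :=
  scal h (fun j => if j = i then 1 else 0)

lemma proj_same (h : DirectSum.IsInternal gr) {i : ℕ} {a : V} (ha : a ∈ gr i) :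
    proj h i a = a := by
  rw [proj, scal_apply h _ ha, if_pos rfl, one_smul]

lemma proj_ne (h : DirectSum.IsInternal gr) {i j : ℕ} {a : V} (ha : a ∈ gr i) (hij : i ≠ j) :
    proj h j a = 0 := by
  rw [proj, scal_apply h _ ha, if_neg hij, zero_smul]

lemma proj_mem (h : DirectSum.IsInternal gr) (i : ℕ) (a : V) : proj h i a ∈ gr i := by
  refine gr_induction h (p := fun a => proj h i a ∈ gr i) ?_ ?_ a
  · intro j a ha
    by_cases hij : j = i
    · subst hij; rw [proj_same h ha]; exact ha
    · rw [proj_ne h ha hij]; exact Submodule.zero_mem _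
  · intro a b ha hb
    rw [map_add]; exact Submodule.add_mem _ ha hb

lemma proj_mul_proj (h : DirectSum.IsInternal gr) (i : ℕ) : proj h i * proj h i = proj h i := by
  apply LinearMap.ext
  intro a
  rw [Module.End.mul_apply, proj_same h (proj_mem h i a)]

lemma proj_mul_ne (h : DirectSum.IsInternal gr) {i j : ℕ} (hij : i ≠ j) :
    proj h i * proj h j = 0 := by
  apply LinearMap.ext
  intro a
  rw [Module.End.mul_apply, proj_ne h (proj_mem h j a) (Ne.symm hij), LinearMap.zero_apply]

lemma range_proj (h : DirectSum.IsInternal gr) (i : ℕ) : LinearMap.range (proj h i) = gr i := by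
  ext a
  constructor
  · rintro ⟨b, rfl⟩; exact proj_mem h i b
  · intro ha; exact ⟨a, proj_same h ha⟩

lemma trace_proj [Module.Finite K V] (h : DirectSum.IsInternal gr) (i : ℕ) :
    LinearMap.trace K V (proj h i) = (Module.finrank K (gr i) : K) := by
  rw [trace_idem (proj_mul_proj h i), range_proj]

lemma scal_eq_sum (h : DirectSum.IsInternal gr) {N : ℕ} (hN : ∀ i, N ≤ i → gr i = ⊥)
    (f : ℕ → K) : scal h f = ∑ i ∈ range N, f i • proj h i := by
  apply gr_ext h
  intro i a ha
  rw [scal_apply h f ha, LinearMap.sum_apply]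
  by_cases hi : i < N
  · rw [Finset.sum_eq_single i]
    · rw [LinearMap.smul_apply, proj_same h ha]
    · intro j _ hji
      rw [LinearMap.smul_apply, proj_ne h ha (Ne.symm hji), smul_zero]
    · intro hi'; exact absurd (Finset.mem_range.2 hi) hi'
  · rw [hN i (by omega)] at ha
    rw [(Submodule.mem_bot _).1 ha]
    simp

lemma sum_proj (h : DirectSum.IsInternal gr) {N : ℕ} (hN : ∀ i, N ≤ i → gr i = ⊥) :
    ∑ i ∈ range N, proj h i = 1 := by
  rw [← scal_one h, scal_eq_sum h hN]
  simp

lemma trace_scal [Module.Finite K V] (h : DirectSum.IsInternal gr) {N : ℕ}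
    (hN : ∀ i, N ≤ i → gr i = ⊥) (f : ℕ → K) :
    LinearMap.trace K V (scal h f) = ∑ i ∈ range N, f i * (Module.finrank K (gr i) : K) := by
  rw [scal_eq_sum h hN, map_sum]
  apply Finset.sum_congr rfl
  intro i _
  rw [map_smul, trace_proj, smul_eq_mul]

lemma finrank_eq_sum [CharZero K] [Module.Finite K V] (h : DirectSum.IsInternal gr) {N : ℕ}
    (hN : ∀ i, N ≤ i → gr i = ⊥) :
    Module.finrank K V = ∑ i ∈ range N, Module.finrank K (gr i) := by
  have h1 := trace_scal h hN (fun _ => (1 : K))
  rw [scal_one, LinearMap.trace_one] at h1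
  have : ((Module.finrank K V : ℕ) : K) = ((∑ i ∈ range N, Module.finrank K (gr i) : ℕ) : K) := by
    rw [h1]; push_cast; simp
  exact_mod_cast this

/-- An operator of degree zero commutes with the projectors. -/
lemma IsHom.proj_comm (h : DirectSum.IsInternal gr) {y : Module.End K V} (hy : IsHom gr 0 y)
    (i : ℕ) : proj h i * y = y * proj h i := by
  have := hy.scal_comm h (fun j => if j = (i : ℤ) then 1 else 0)
    (fun j => if j = (i : ℤ) then 1 else 0) (fun j => by simp)
  simpa [proj] using this

end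

end Pool.Agent.H914
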