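import Pool.Agent.H88.L.H914R2.PBase

/-!
# The real structure on the cohomology of a single variety: the star operator
-/

open CategoryTheory AlgebraicGeometry Finset Polynomial

universe u v w

namespace Pool.Agent.H914

open VarClass Obj WeilCohomology

variable {k : Type u} [Field k] {𝒱 : VarClass k} {ops : CycleOps 𝒱}
  {W : WeilCohomology.{u, v} ops} {X Y Z : 𝒱.Obj} {𝓡 : RealField W.K}

/-- The star operator, given by a family `y` of algebraic classes and the eigenvectors. -/
noncomputable def starOp (W : WeilCohomology.{u, v} ops) (X : 𝒱.Obj) {κ : Type} [Fintype κ]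
    (c : κ → W.K) (y : κ → W.H X) {A : Type v} [Fintype A] (vec : A → W.H X) (bar : A → A) :
    Module.End W.K (W.H X) :=
  ∑ k, c k • (((bil W X).flip (y k)).smulRight (y k)) +
    (-1 : W.K) ^ X.dim • ∑ a, ((bil W X (vec (bar a))).smulRight (vec a))

lemma starOp_apply {κ : Type} [Fintype κ]
    (c : κ → W.K) (y : κ → W.H X) {A : Type v} [Fintype A] (vec : A → W.H X) (bar : A → A)
    (z : W.H X) : starOp W X c y vec bar z = ∑ k, (c k * bil W X z (y k)) • y k +
      (-1 : W.K) ^ X.dim • ∑ a, bil W X (vec (bar a)) z • vec a := by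
  rw [starOp, LinearMap.add_apply, LinearMap.sum_apply, LinearMap.smul_apply,
    LinearMap.sum_apply]
  congr 1
  apply Finset.sum_congr rfl
  intro k _
  rw [LinearMap.smul_apply, LinearMap.smulRight_apply, LinearMap.flip_apply, smul_smul]

section Star

variable {D : X.Cycles} {Lam : Module.End W.K (W.H X)} {κ : Type} [Fintype κ] {l : κ → ℕ}
  {x : κ → W.H X} {φ : κ → ℚ} {p : Module.End W.K (W.H X)} (h : Setup W X D Lam κ l x φ p)
  {ψ : X ⟶ X} {A : Type v} [Fintype A] {al : A → W.K} {vec : A → W.H X} {kap : A → W.K}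
  {bar : A → A} {η : A → Bool} (T : TProps W X ψ 𝓡 al vec kap bar η)

/-- The star operator of the variety. -/
noncomputable abbrev starX (W : WeilCohomology.{u, v} ops) (X : 𝒱.Obj) (D : X.Cycles)
    (Lam : Module.End W.K (W.H X)) {κ : Type} [Fintype κ] (l : κ → ℕ) (x : κ → W.H X)
    (φ : κ → ℚ) {A : Type v} [Fintype A] (vec : A → W.H X) (bar : A → A) :
    Module.End W.K (W.H X) :=
  starOp W X (fun k => (φ k : W.K)⁻¹ * (-1) ^ l k)
    (fun k => wey (LinearMap.mulLeft W.K (W.cl X D)) Lam (x k)) vec bar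

include h T

lemma star_alg {j : ℕ} {c : W.H X} (hc : c ∈ algClasses W X j) :
    starX W X D Lam l x φ vec bar c =
      (-1 : W.K) ^ j • wey (LinearMap.mulLeft W.K (W.cl X D)) Lam c := by
  rw [starX, starOp_apply]
  have e1 : ∑ a, bil W X (vec (bar a)) c • vec a = 0 := by
    apply Finset.sum_eq_zero
    intro a _
    rw [mem_trans.1 (T.trans (bar a)) _ _ hc, zero_smul]
  rw [e1, smul_zero, add_zero]
  conv_rhs => rw [← h.hp.fix j c hc, h.hp.p_eq, map_sum, Finset.smul_sum]
  apply Finset.sum_congr rfl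
  intro k _
  rw [map_smul, smul_smul]
  by_cases hk : l k = j
  · rw [hk]
    congr 1
    ring
  · rw [h.B_deg (alg_gr hc) k (by omega)]
    simp

lemma star_vec (b : A) : starX W X D Lam l x φ vec bar (vec b) = kap b • vec b := by
  rw [starX, starOp_apply]
  have e1 : ∑ k, ((fun k => (φ k : W.K)⁻¹ * (-1) ^ l k) k * bil W X (vec b)
      ((fun k => wey (LinearMap.mulLeft W.K (W.cl X D)) Lam (x k)) k)) •
      ((fun k => wey (LinearMap.mulLeft W.K (W.cl X D)) Lam (x k)) k) = 0 := by
    apply Finset.sum_eq_zero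
    intro k _
    beta_reduce
    rw [mem_trans.1 (T.trans b) _ _ (h.wx_mem k), mul_zero, zero_smul]
  rw [e1, zero_add, Finset.sum_eq_single b]
  · have h1 := T.form_bar (bar b)
    rw [T.bar_bar] at h1
    rw [bil_apply, h1, smul_smul, T.kap_bar]
  · intro a _ hab
    rw [bil_apply, T.form_ne, zero_smul]
    intro h0
    rw [T.bar_bar] at h0
    exact hab h0.symm
  · intro h0; exact absurd (Finset.mem_univ b) h0

lemma star_deg (i j : ℕ) (hij : i + j = 2 * X.dim) (y : W.H X) (hy : y ∈ W.gr X i) :
    starX W X D Lam l x φ vec bar y ∈ W.gr X j := by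
  rw [starX, starOp_apply]
  apply Submodule.add_mem
  · apply Submodule.sum_mem
    intro k _
    beta_reduce
    by_cases hk : 2 * l k = i
    · apply Submodule.smul_mem
      have h1 := alg_gr (h.wx_mem k)
      have h2 := h.hp.le k
      rwa [show 2 * (X.dim - l k) = j by omega] at h1
    · rw [h.B_deg hy k hk, mul_zero, zero_smul]
      exact Submodule.zero_mem _
  · apply Submodule.smul_mem
    apply Submodule.sum_mem
    intro a _
    by_cases hi : i = X.dim
    · apply Submodule.smul_mem
      have : j = X.dim := by omega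
      rw [this]
      exact T.mid (T.trans a)
    · rw [bil_eq_zero (T.mid (T.trans (bar a))) hy (by omega), zero_smul]
      exact Submodule.zero_mem _

end Star

section VR

variable {A : Type v} {vec : A → W.H X} {bar : A → A}

lemma alg_VR {j : ℕ} {c : W.H X} (hc : c ∈ algClasses W X j) : c ∈ VRof 𝓡 vec bar :=
  Submodule.subset_span (Or.inl ⟨j, hc⟩)

lemma vec_VR (a : A) {z z' : W.K} (hz : 𝓡.Cj z z') :
    z • vec a + z' • vec (bar a) ∈ VRof 𝓡 vec bar :=
  Submodule.subset_span (Or.inr ⟨a, z, z', hz, rfl⟩)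

lemma VR_smul {r : W.K} (hr : r ∈ 𝓡.R) {V : Submodule 𝓡.R (W.H X)} {y : W.H X} (hy : y ∈ V) :
    r • y ∈ V := V.smul_mem (⟨r, hr⟩ : 𝓡.R) hy

/-- The elements of the frame in the transcendental part. -/
noncomputable def tvec (𝓡 : RealField W.K) (vec : A → W.H X) (bar : A → A) (η : A → Bool)
    (a : A) : W.H X :=
  if η a then vec a + vec (bar a) else 𝓡.i • vec a - 𝓡.i • vec (bar a)

variable {ψ : X ⟶ X} {al : A → W.K} {kap : A → W.K}
  {η : A → Bool} (T : TProps W X ψ 𝓡 al vec kap bar η)

lemma tvec_VR (a : A) : tvec 𝓡 vec bar η a ∈ VRof 𝓡 vec bar := by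
  rw [tvec]
  split_ifs
  · have := vec_VR (vec := vec) (bar := bar) a (RealField.Cj.one (𝓡 := 𝓡))
    rwa [one_smul, one_smul] at this
  · have := vec_VR (vec := vec) (bar := bar) a (RealField.Cj.imag (𝓡 := 𝓡))
    rwa [neg_smul, ← sub_eq_add_neg] at this

include T

lemma pair_span {V : Submodule 𝓡.R (W.H X)} (hV : ∀ a, tvec 𝓡 vec bar η a ∈ V) (a : A)
    {z z' : W.K} (hz : 𝓡.Cj z z') : z • vec a + z' • vec (bar a) ∈ V := by
  have h1 : vec a + vec (bar a) ∈ V := by
    cases ha : η a
    · have h2 := hV (bar a)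
      rw [tvec, if_pos (by rw [T.eta_bar, ha]; rfl), T.bar_bar] at h2
      rwa [add_comm] at h2
    · have h2 := hV a
      rwa [tvec, if_pos ha] at h2
  have h2 : 𝓡.i • vec a - 𝓡.i • vec (bar a) ∈ V := by
    cases ha : η a
    · have h2 := hV a
      rwa [tvec, if_neg (by rw [ha]; simp)] at h2
    · have h2 := V.neg_mem (hV (bar a))
      rw [tvec, if_neg (by rw [T.eta_bar, ha]; simp), T.bar_bar] at h2
      have e : 𝓡.i • vec a - 𝓡.i • vec (bar a) = -(𝓡.i • vec (bar a) - 𝓡.i • vec a) := by abel
      rwa [e]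
  obtain ⟨r, hr, s, hs, rfl, rfl⟩ := hz
  have e : (r + 𝓡.i * s) • vec a + (r - 𝓡.i * s) • vec (bar a) =
      r • (vec a + vec (bar a)) + s • (𝓡.i • vec a - 𝓡.i • vec (bar a)) := by
    module
  rw [e]
  exact V.add_mem (VR_smul hr h1) (VR_smul hs h2)

end VR

section Good

variable {D : X.Cycles} {Lam : Module.End W.K (W.H X)} {κ : Type} [Fintype κ] {l : κ → ℕ}
  {x : κ → W.H X} {φ : κ → ℚ} {p : Module.End W.K (W.H X)} (h : Setup W X D Lam κ l x φ p)
  {ψ : X ⟶ X} {A : Type v} [Fintype A] {al : A → W.K} {vec : A → W.H X} {kap : A → W.K}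
  {bar : A → A} {η : A → Bool} (T : TProps W X ψ 𝓡 al vec kap bar η)

include h T

/-- The real structure is generated by the frame. -/
lemma VR_eq : VRof 𝓡 vec bar = Submodule.span 𝓡.R (Set.range
    (Sum.elim x (tvec 𝓡 vec bar η) : κ ⊕ A → W.H X)) := by
  apply le_antisymm
  · rw [VRof, Submodule.span_le]
    rintro y (⟨j, hy⟩ | ⟨a, z, z', hz, rfl⟩)
    · have h1 := h.hp.fix j y hy
      change y ∈ Submodule.span 𝓡.R _
      rw [← h1, h.hp.p_eq]
      apply Submodule.sum_mem
      intro k _
      obtain ⟨s, hs⟩ := alg_rat hy (h.wx_mem k)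
      rw [hs]
      apply VR_smul
      · have := RealField.ratCast_mem (𝓡 := 𝓡) ((φ k)⁻¹ * s)
        push_cast at this
        exact this
      · exact Submodule.subset_span ⟨Sum.inl k, rfl⟩
    · apply pair_span T _ a hz
      intro a
      exact Submodule.subset_span ⟨Sum.inr a, rfl⟩
  · rw [Submodule.span_le]
    rintro _ ⟨k | a, rfl⟩
    · exact alg_VR (h.hp.mem k)
    · exact tvec_VR a

lemma star_VR : ∀ y ∈ VRof 𝓡 vec bar, starX W X D Lam l x φ vec bar y ∈ VRof 𝓡 vec bar := by
  intro y hy
  induction hy using Submodule.span_induction with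
  | mem y hy =>
    rcases hy with ⟨j, hy⟩ | ⟨a, z, z', hz, rfl⟩
    · rw [star_alg h T hy]
      apply sign_smul_mem
      by_cases hj : j ≤ X.dim
      · exact alg_VR (h.weyl_mem j hj y hy)
      · have h1 := alg_gr hy
        rw [W.gr_eq_bot X _ (by omega)] at h1
        rw [(Submodule.mem_bot _).1 h1, map_zero]
        exact Submodule.zero_mem _
    · rw [map_add, map_smul, map_smul, star_vec h T, star_vec h T, smul_smul, smul_smul]
      exact vec_VR a (hz.mul (T.cj_kap a))
  | zero => rw [map_zero]; exact Submodule.zero_mem _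
  | add y z _ _ hy hz => rw [map_add]; exact Submodule.add_mem _ hy hz
  | smul r y _ hy =>
    have : starX W X D Lam l x φ vec bar (r • y) = r • starX W X D Lam l x φ vec bar y :=
      map_smul _ (r : W.K) y
    rw [this]
    exact Submodule.smul_mem _ _ hy

/-- The form on the eigenvectors. -/
lemma form_vec [DecidableEq A] (a b : A) : bil W X (vec a) (starX W X D Lam l x φ vec bar (vec b)) =
    if b = bar a then 1 else 0 := by
  rw [star_vec h T, map_smul, bil_apply, smul_eq_mul]
  by_cases hb : b = bar a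
  · subst hb
    rw [if_pos rfl, T.form_bar, mul_comm, T.kap_mul]
  · rw [if_neg hb, T.form_ne a b hb, mul_zero]

omit [Fintype κ] [Fintype A] h T in
lemma tvec_trans' {vec : A → W.H X} (hv : ∀ a, vec a ∈ transcendental W X) (a : A) :
    tvec 𝓡 vec bar η a ∈ transcendental W X := by
  rw [tvec]
  split_ifs
  · exact Submodule.add_mem _ (hv _) (hv _)
  · exact Submodule.sub_mem _ (Submodule.smul_mem _ _ (hv _)) (Submodule.smul_mem _ _ (hv _))

lemma star_trans {t : W.H X} (ht : t ∈ transcendental W X) :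
    starX W X D Lam l x φ vec bar t ∈ transcendental W X := by
  have h1 := T.span ht
  clear ht
  induction h1 using Submodule.span_induction with
  | mem y hy =>
    obtain ⟨a, rfl⟩ := hy
    rw [star_vec h T]
    exact Submodule.smul_mem _ _ (T.trans a)
  | zero => rw [map_zero]; exact Submodule.zero_mem _
  | add y z _ _ hy hz => rw [map_add]; exact Submodule.add_mem _ hy hz
  | smul r y _ hy => rw [map_smul]; exact Submodule.smul_mem _ _ hy

lemma base_frame : ∃ (m : ℕ) (b : Fin m → W.H X) (d : Fin m → ℚ),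
    IsFrame 𝓡 ((bil W X).compl₂ (starX W X D Lam l x φ vec bar)) (VRof 𝓡 vec bar) b d ∧
      ∀ k, ∃ i ≤ 2 * X.dim, b k ∈ W.gr X i := by
  classical
  refine exists_frame_of_fintype (κ := κ ⊕ A) (Sum.elim x (tvec 𝓡 vec bar η))
    (Sum.elim (fun k => (-1) ^ l k * φ k) (fun _ => 2)) (VR_eq h T) ?_ ?_ ?_ ?_
  · rintro (k | a)
    · rw [LinearMap.compl₂_apply, Sum.elim_inl, Sum.elim_inl, star_alg h T (h.hp.mem k), map_smul,
        h.hp.val, smul_eq_mul]
      push_cast; rfl
    · rw [LinearMap.compl₂_apply, Sum.elim_inr, Sum.elim_inr, tvec]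
      have n1 := T.bar_ne a
      split_ifs
      · simp only [map_add, LinearMap.add_apply, form_vec h T, T.bar_bar, if_neg n1, if_neg n1.symm,
          if_true]
        push_cast; ring
      · simp only [map_sub, LinearMap.sub_apply, map_smul, LinearMap.smul_apply, form_vec h T,
          T.bar_bar, if_neg n1, if_neg n1.symm, if_true, smul_eq_mul]
        push_cast
        linear_combination (-2) * 𝓡.i_sq
  · rintro (k | a) (k' | b) hne
    · rw [LinearMap.compl₂_apply, Sum.elim_inl, Sum.elim_inl, star_alg h T (h.hp.mem k'), map_smul,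
        h.orth k k' (fun h0 => hne (by rw [h0])), smul_zero]
    · rw [LinearMap.compl₂_apply, Sum.elim_inl, Sum.elim_inr, bil_even (alg_gr (h.hp.mem k))]
      exact mem_trans.1 (star_trans h T (tvec_trans' T.trans b)) _ _ (h.hp.mem k)
    · rw [LinearMap.compl₂_apply, Sum.elim_inl, Sum.elim_inr, star_alg h T (h.hp.mem k'), map_smul,
        mem_trans.1 (tvec_trans' T.trans a) _ _ (h.wx_mem k'), smul_zero]
    · rw [LinearMap.compl₂_apply, Sum.elim_inr, Sum.elim_inr, tvec, tvec]
      have hab : a ≠ b := fun h0 => hne (by rw [h0])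
      have hba : b ≠ a := Ne.symm hab
      by_cases hb : b = bar a
      · subst hb
        cases ha : η a
        · simp only [T.eta_bar, ha, Bool.not_false, if_true, Bool.false_eq_true, if_false, map_add,
            map_sub, LinearMap.sub_apply, map_smul, LinearMap.smul_apply, form_vec h T,
            T.bar_bar, if_neg hab, if_neg hba, smul_eq_mul]
          ring
        · simp only [T.eta_bar, ha, Bool.not_true, if_true, Bool.false_eq_true, if_false, map_add,
            map_sub, LinearMap.add_apply, map_smul, form_vec h T,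
            T.bar_bar, if_neg hab, if_neg hba, smul_eq_mul]
          ring
      · have hb1 : bar b ≠ bar a := fun h0 => hba (T.bar_inj h0)
        have hb2 : bar b ≠ a := fun h0 => hb (by rw [← h0, T.bar_bar])
        split_ifs <;>
        simp only [map_add, LinearMap.add_apply, map_sub, LinearMap.sub_apply, map_smul,
          LinearMap.smul_apply, form_vec h T, T.bar_bar, if_neg hb, if_neg hb1, if_neg hb2,
          if_neg hba, smul_eq_mul, mul_zero, add_zero, sub_zero]
  · rintro (k | a)
    · exact h.hp.pos k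
    · norm_num
  · rintro (k | a)
    · exact ⟨2 * l k, by have := h.hp.le k; omega, alg_gr (h.hp.mem k)⟩
    · exact ⟨X.dim, by omega, T.mid (tvec_trans' T.trans a)⟩

end Good

end Pool.Agent.H914
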