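import Pool.Agent.H88.L.H914R2.AProj

/-!
# Real structures and orthogonal frames
-/

open Finset

namespace Pool.Agent.H914

/-- A subfield of the field `K` with an embedding into the real numbers, and a square root of
`-1` in `K`. -/
structure RealField (K : Type*) [Field K] where
  /-- the subfield -/
  R : Subfield K
  /-- the embedding into the real numbers -/
  ρ : R →+* ℝ
  /-- the square root of `-1` -/
  i : K
  i_sq : i * i = -1

section Conj

variable {K : Type*} [Field K] (𝓡 : RealField K)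

/-- The numbers `x` and `y` are conjugate to each other. -/
def RealField.Cj (x y : K) : Prop :=
  ∃ r ∈ 𝓡.R, ∃ s ∈ 𝓡.R, x = r + 𝓡.i * s ∧ y = r - 𝓡.i * s

variable {𝓡}

lemma RealField.Cj.mul {x y x' y' : K} (h : 𝓡.Cj x y) (h' : 𝓡.Cj x' y') :
    𝓡.Cj (x * x') (y * y') := by
  obtain ⟨r, hr, s, hs, rfl, rfl⟩ := h
  obtain ⟨r', hr', s', hs', rfl, rfl⟩ := h'
  refine ⟨r * r' - s * s', sub_mem (mul_mem hr hr') (mul_mem hs hs'), r * s' + s * r',
    add_mem (mul_mem hr hs') (mul_mem hs hr'), ?_, ?_⟩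
  · linear_combination (s * s') * 𝓡.i_sq
  · linear_combination (s * s') * 𝓡.i_sq

lemma RealField.Cj.symm {x y : K} (h : 𝓡.Cj x y) : 𝓡.Cj y x := by
  obtain ⟨r, hr, s, hs, rfl, rfl⟩ := h
  exact ⟨r, hr, -s, neg_mem hs, by ring, by ring⟩

lemma RealField.Cj.ofR {r : K} (hr : r ∈ 𝓡.R) : 𝓡.Cj r r :=
  ⟨r, hr, 0, zero_mem _, by ring, by ring⟩

lemma RealField.Cj.one : 𝓡.Cj 1 1 := RealField.Cj.ofR (one_mem _)

lemma RealField.Cj.pow {x y : K} (h : 𝓡.Cj x y) (k : ℕ) : 𝓡.Cj (x ^ k) (y ^ k) := by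
  induction k with
  | zero => rw [pow_zero, pow_zero]; exact RealField.Cj.one
  | succ k ih => rw [pow_succ, pow_succ]; exact ih.mul h

lemma RealField.Cj.imag : 𝓡.Cj 𝓡.i (-𝓡.i) := ⟨0, zero_mem _, 1, one_mem _, by ring, by ring⟩

lemma RealField.Cj.add_mem {x y : K} (h : 𝓡.Cj x y) : x + y ∈ 𝓡.R := by
  obtain ⟨r, hr, s, hs, rfl, rfl⟩ := h
  have : r + 𝓡.i * s + (r - 𝓡.i * s) = r + r := by ring
  rw [this]
  exact AddMemClass.add_mem hr hr

lemma RealField.ratCast_mem (q : ℚ) : (q : K) ∈ 𝓡.R := SubfieldClass.ratCast_mem 𝓡.R q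

lemma RealField.ρ_rat [CharZero K] {r : 𝓡.R} {q : ℚ} (h : (r : K) = q) : 𝓡.ρ r = q := by
  have h1 : r = (q : 𝓡.R) := by
    apply Subtype.ext
    rw [h]
    exact (SubfieldClass.coe_ratCast 𝓡.R q).symm
  rw [h1, map_ratCast]

end Conj

section Frame

variable {K : Type*} [Field K] [CharZero K] {𝓡 : RealField K} {V : Type*} [AddCommGroup V]
  [Module K V]

/-- An orthogonal frame with positive rational norms of the real structure `U`. -/
structure IsFrame (𝓡 : RealField K) (Φ : V →ₗ[K] V →ₗ[K] K) (U : Submodule 𝓡.R V) {m : ℕ}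
    (b : Fin m → V) (d : Fin m → ℚ) : Prop where
  span : U = Submodule.span 𝓡.R (Set.range b)
  orth : ∀ k l, Φ (b k) (b l) = if k = l then (d k : K) else 0
  pos : ∀ k, 0 < d k

namespace IsFrame

variable {Φ : V →ₗ[K] V →ₗ[K] K} {U : Submodule 𝓡.R V} {m : ℕ} {b : Fin m → V} {d : Fin m → ℚ}
  (h : IsFrame 𝓡 Φ U b d)

include h

lemma exists_coords {x : V} (hx : x ∈ U) : ∃ r : Fin m → 𝓡.R, x = ∑ k, (r k : K) • b k := by
  rw [h.span, Submodule.mem_span_range_iff_exists_fun] at hx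
  obtain ⟨r, hr⟩ := hx
  exact ⟨r, hr.symm⟩

lemma val (r s : Fin m → 𝓡.R) : Φ (∑ k, (r k : K) • b k) (∑ k, (s k : K) • b k) =
    ((∑ k, r k * s k * (d k : 𝓡.R) : 𝓡.R) : K) := by
  rw [map_sum Φ, LinearMap.sum_apply, AddSubmonoidClass.coe_finsetSum]
  apply Finset.sum_congr rfl
  intro k _
  rw [map_smul, LinearMap.smul_apply, map_sum (Φ (b k)), Finset.sum_eq_single k]
  · rw [map_smul, h.orth, if_pos rfl, smul_eq_mul, smul_eq_mul]
    push_cast
    ring
  · intro l _ hl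
    rw [map_smul, h.orth, if_neg (Ne.symm hl), smul_zero]
  · intro h0; exact absurd (Finset.mem_univ k) h0

lemma mem_R {x y : V} (hx : x ∈ U) (hy : y ∈ U) : Φ x y ∈ 𝓡.R := by
  obtain ⟨r, rfl⟩ := h.exists_coords hx
  obtain ⟨s, rfl⟩ := h.exists_coords hy
  rw [h.val]
  exact Subtype.mem _

lemma symm {x y : V} (hx : x ∈ U) (hy : y ∈ U) : Φ x y = Φ y x := by
  obtain ⟨r, rfl⟩ := h.exists_coords hx
  obtain ⟨s, rfl⟩ := h.exists_coords hy
  rw [h.val, h.val]
  congr 1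
  apply Finset.sum_congr rfl
  intro k _
  ring

lemma exists_pos {x : V} (hx : x ∈ U) (hx0 : x ≠ 0) :
    ∃ t : 𝓡.R, Φ x x = t ∧ 0 < 𝓡.ρ t := by
  obtain ⟨r, rfl⟩ := h.exists_coords hx
  refine ⟨_, h.val r r, ?_⟩
  have hex : ∃ k, r k ≠ 0 := by
    by_contra h0
    push Not at h0
    apply hx0
    apply Finset.sum_eq_zero
    intro k _
    rw [h0]
    simp
  obtain ⟨k₀, hk₀⟩ := hex
  rw [map_sum]
  have hterm : ∀ k, 𝓡.ρ (r k * r k * (d k : 𝓡.R)) = (𝓡.ρ (r k)) ^ 2 * (d k : ℝ) := by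
    intro k
    rw [map_mul, map_mul, map_ratCast]
    ring
  have hdk : ∀ k, (0 : ℝ) < (d k : ℝ) := fun k => by exact_mod_cast h.pos k
  refine Finset.sum_pos' (fun k _ => ?_) ⟨k₀, Finset.mem_univ _, ?_⟩
  · rw [hterm]
    have := hdk k
    positivity
  · rw [hterm]
    have h1 : 𝓡.ρ (r k₀) ≠ 0 := by
      intro h0
      exact hk₀ ((map_eq_zero 𝓡.ρ).1 h0)
    have := hdk k₀
    positivity

lemma aniso {x : V} (hx : x ∈ U) (hx0 : Φ x x = 0) : x = 0 := by
  by_contra hne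
  obtain ⟨t, ht, ht0⟩ := h.exists_pos hx hne
  rw [hx0] at ht
  have : t = 0 := Subtype.ext ht.symm
  rw [this, map_zero] at ht0
  exact lt_irrefl _ ht0

lemma pos_of_rat {x : V} (hx : x ∈ U) (hx0 : x ≠ 0) {q : ℚ} (hq : Φ x x = q) : 0 < q := by
  obtain ⟨t, ht, ht0⟩ := h.exists_pos hx hx0
  rw [hq] at ht
  rw [RealField.ρ_rat ht.symm] at ht0
  exact_mod_cast ht0

/-- An element of the span of a real subspace lies in the subspace if its products with the
elements of the subspace are real. -/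
lemma descent [Module.Finite K V] {U' : Submodule 𝓡.R V} (hU : U' ≤ U) {c : V}
    (hc : c ∈ Submodule.span K (U' : Set V)) (hcu : ∀ u ∈ U', Φ c u ∈ 𝓡.R) : c ∈ U' := by
  obtain ⟨N, x, hx, ho, hmax⟩ := exists_orthogonal Φ (U' : Set V)
    (fun a ha b hb => h.symm (hU ha) (hU hb))
    (fun a ha ha0 h0 => ha0 (h.aniso (hU ha) h0))
  have hxx : ∀ k, Φ (x k) (x k) ≠ 0 := fun k h0 => (hx k).2 (h.aniso (hU (hx k).1) h0)
  have hsmul : ∀ (r : K), r ∈ 𝓡.R → ∀ y ∈ U', r • y ∈ U' := fun r hr y hy =>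
    U'.smul_mem (⟨r, hr⟩ : 𝓡.R) hy
  -- expansion
  have hpr : ∀ y ∈ U', y = ∑ k, (Φ y (x k) / Φ (x k) (x k)) • x k := by
    intro y hy
    rw [← sub_eq_zero]
    apply hmax
    · apply U'.sub_mem hy
      apply U'.sum_mem
      intro k _
      exact hsmul _ (div_mem (h.mem_R (hU hy) (hU (hx k).1)) (h.mem_R (hU (hx k).1)
        (hU (hx k).1))) _ (hx k).1
    · intro k
      rw [map_sub, LinearMap.sub_apply, map_sum, LinearMap.sum_apply, Finset.sum_eq_single k]
      · rw [map_smul, LinearMap.smul_apply, smul_eq_mul, div_mul_cancel₀ _ (hxx k), sub_self]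
      · intro l _ hl
        rw [map_smul, LinearMap.smul_apply, ho l k hl, smul_zero]
      · intro h0; exact absurd (Finset.mem_univ k) h0
  have hpr' : ∀ y ∈ Submodule.span K (U' : Set V),
      y = ∑ k, (Φ y (x k) / Φ (x k) (x k)) • x k := by
    intro y hy
    induction hy using Submodule.span_induction with
    | mem y hy => exact hpr y hy
    | zero => simp
    | add y z _ _ hy hz =>
      conv_lhs => rw [hy, hz]
      rw [← Finset.sum_add_distrib]
      apply Finset.sum_congr rfl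
      intro k _
      rw [map_add, LinearMap.add_apply, add_div, add_smul]
    | smul r y _ hy =>
      conv_lhs => rw [hy]
      rw [Finset.smul_sum]
      apply Finset.sum_congr rfl
      intro k _
      rw [map_smul, LinearMap.smul_apply, smul_smul, smul_eq_mul, mul_div_assoc]
  rw [hpr' c hc]
  apply U'.sum_mem
  intro k _
  exact hsmul _ (div_mem (hcu _ (hx k).1) (h.mem_R (hU (hx k).1) (hU (hx k).1))) _ (hx k).1

end IsFrame

end Frame

end Pool.Agent.H914
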