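import Pool.Agent.H88.L.H914R2.WBase

/-!
# Extension of the coefficients of a Weil cohomology theory, continued
-/

open CategoryTheory AlgebraicGeometry Finset TensorProduct

universe u v

namespace Pool.Agent.H914

section Alg

variable {K : Type*} [Field K] {A : Type*} [Ring A] [Algebra K A] {B : Type*} [Ring B]
  [Algebra K B] {C : Type*} [Ring C] [Algebra K C] {L : Type*} [Field L] [Algebra K L]

/-- The extension of an algebra homomorphism. -/
noncomputable abbrev mapBase (L : Type*) [Field L] [Algebra K L] (f : A →ₐ[K] B) :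
    L ⊗[K] A →ₐ[L] L ⊗[K] B :=
  Algebra.TensorProduct.map (AlgHom.id L L) f

lemma mapBase_id {f : A →ₐ[K] A} (h : f = AlgHom.id K A) : mapBase L f = AlgHom.id L _ := by
  subst h
  apply AlgHom.ext
  intro x
  refine tmul_induction (P := fun x => mapBase L (AlgHom.id K A) x = AlgHom.id L _ x)
    ?_ ?_ ?_ x
  · rw [map_zero, map_zero]
  · intro x y hx hy; rw [map_add, map_add, hx, hy]
  · intro l a
    rw [Algebra.TensorProduct.map_tmul]
    rfl

lemma mapBase_comp {f : A →ₐ[K] B} {g : B →ₐ[K] C} {h : A →ₐ[K] C} (hh : h = g.comp f) :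
    mapBase L h = (mapBase L g).comp (mapBase L f) := by
  subst hh
  apply AlgHom.ext
  intro x
  refine tmul_induction (P := fun x => mapBase L (g.comp f) x =
    (mapBase L g).comp (mapBase L f) x) ?_ ?_ ?_ x
  · rw [map_zero, map_zero]
  · intro x y hx hy; rw [map_add, map_add, hx, hy]
  · intro l a
    rw [AlgHom.comp_apply, Algebra.TensorProduct.map_tmul, Algebra.TensorProduct.map_tmul,
      Algebra.TensorProduct.map_tmul]
    rfl

lemma tmul_injective (a : A) (h : (1 : L) ⊗ₜ[K] a = 0) : a = 0 := by
  have h1 := Module.Flat.rTensor_preserves_injective_linearMap (M := A)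
    (Algebra.linearMap K L) (algebraMap K L).injective
  have h2 : (Algebra.linearMap K L).rTensor A ((1 : K) ⊗ₜ a) =
      (Algebra.linearMap K L).rTensor A 0 := by
    rw [LinearMap.rTensor_tmul, Algebra.linearMap_apply, map_one, map_zero]
    exact h
  have h3 := h1 h2
  have h4 := congrArg (TensorProduct.lid K A) h3
  simpa using h4

/-- The semilinear automorphism of the extension of a vector space. -/
noncomputable def sig {V : Type*} [AddCommGroup V] [Module K V] (τ : L ≃ₐ[K] L) :
    L ⊗[K] V →ₗ[K] L ⊗[K] V :=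
  TensorProduct.map τ.toLinearMap LinearMap.id

variable (τ : L ≃ₐ[K] L)

lemma sig_tmul {V : Type*} [AddCommGroup V] [Module K V] (l : L) (a : V) :
    sig τ (l ⊗ₜ[K] a) = τ l ⊗ₜ[K] a := by
  rw [sig, TensorProduct.map_tmul]
  rfl

lemma sig_smul {V : Type*} [AddCommGroup V] [Module K V] (c : L) (a : L ⊗[K] V) :
    sig τ (c • a) = τ c • sig τ a := by
  induction a using TensorProduct.induction_on with
  | zero => rw [smul_zero, map_zero, smul_zero]
  | add x y hx hy => rw [smul_add, map_add, hx, hy, map_add, smul_add]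
  | tmul l b =>
    rw [TensorProduct.smul_tmul', sig_tmul, sig_tmul, TensorProduct.smul_tmul', smul_eq_mul,
      smul_eq_mul, map_mul]

lemma sig_mul (a b : L ⊗[K] A) : sig τ (a * b) = sig τ a * sig τ b := by
  refine tmul_induction (P := fun a => sig τ (a * b) = sig τ a * sig τ b) ?_ ?_ ?_ a
  · rw [zero_mul, map_zero, zero_mul]
  · intro x y hx hy; rw [add_mul, map_add, hx, hy, map_add, add_mul]
  · intro l a
    refine tmul_induction (P := fun b => sig τ ((l ⊗ₜ[K] a : L ⊗[K] A) * b) =
      sig τ (l ⊗ₜ[K] a) * sig τ b) ?_ ?_ ?_ b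
    · rw [mul_zero, map_zero, mul_zero]
    · intro x y hx hy; rw [mul_add, map_add, hx, hy, map_add, mul_add]
    · intro m b
      rw [Algebra.TensorProduct.tmul_mul_tmul, sig_tmul, sig_tmul, sig_tmul,
        Algebra.TensorProduct.tmul_mul_tmul, map_mul]

lemma sig_map (f : A →ₐ[K] B) (a : L ⊗[K] A) :
    sig τ (mapBase L f a) = mapBase L f (sig τ a) := by
  refine tmul_induction (P := fun a => sig τ (mapBase L f a) = mapBase L f (sig τ a)) ?_ ?_ ?_ a
  · rw [map_zero, map_zero, map_zero, map_zero]
  · intro x y hx hy; rw [map_add, map_add, hx, hy, map_add, map_add]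
  · intro l a
    rw [Algebra.TensorProduct.map_tmul, sig_tmul, sig_tmul, Algebra.TensorProduct.map_tmul]
    rfl

lemma sig_gr {p : Submodule K A} {a : L ⊗[K] A} (ha : a ∈ p.baseChange L) :
    sig τ a ∈ p.baseChange L := by
  refine base_induction (P := fun a => sig τ a ∈ p.baseChange L) ?_ ?_ ?_ ha
  · rw [map_zero]; exact Submodule.zero_mem _
  · intro x y hx hy; rw [map_add]; exact Submodule.add_mem _ hx hy
  · intro l a ha
    rw [sig_tmul]
    exact Submodule.tmul_mem_baseChange_of_mem _ ha

lemma sig_symm {V : Type*} [AddCommGroup V] [Module K V] (a : L ⊗[K] V) :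
    sig τ (sig τ.symm a) = a := by
  induction a using TensorProduct.induction_on with
  | zero => rw [map_zero, map_zero]
  | add x y hx hy => rw [map_add, map_add, hx, hy]
  | tmul l b => rw [sig_tmul, sig_tmul, AlgEquiv.apply_symm_apply]

lemma sig_symm' {V : Type*} [AddCommGroup V] [Module K V] (a : L ⊗[K] V) :
    sig τ.symm (sig τ a) = a := by
  induction a using TensorProduct.induction_on with
  | zero => rw [map_zero, map_zero]
  | add x y hx hy => rw [map_add, map_add, hx, hy]
  | tmul l b => rw [sig_tmul, sig_tmul, AlgEquiv.symm_apply_apply]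

lemma sig_inj {V : Type*} [AddCommGroup V] [Module K V] (a : L ⊗[K] V) (h : sig τ a = 0) :
    a = 0 := by
  rw [← sig_symm' τ a, h, map_zero]

lemma sig_baseChange {V : Type*} [AddCommGroup V] [Module K V] (F : Module.End K V)
    (a : L ⊗[K] V) : sig τ (F.baseChange L a) = F.baseChange L (sig τ a) := by
  induction a using TensorProduct.induction_on with
  | zero => rw [map_zero, map_zero, map_zero]
  | add x y hx hy => rw [map_add, map_add, hx, hy, map_add, map_add]
  | tmul l b => rw [LinearMap.baseChange_tmul, sig_tmul, sig_tmul, LinearMap.baseChange_tmul]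

/-- The operator given by a class on the product, after the extension. -/
lemma corrOp_base (p : A →ₐ[K] C) (q : C →ₗ[K] B) (c : C) :
    corrOp (mapBase L p) (q.baseChange L) ((1 : L) ⊗ₜ[K] c) = (corrOp p q c).baseChange L := by
  apply LinearMap.ext
  intro x
  refine tmul_induction (P := fun x => corrOp (mapBase L p) (q.baseChange L)
    ((1 : L) ⊗ₜ[K] c) x = (corrOp p q c).baseChange L x) ?_ ?_ ?_ x
  · rw [map_zero, map_zero]
  · intro x y hx hy; rw [map_add, map_add, hx, hy]
  · intro l a
    simp only [corrOp, LinearMap.comp_apply, LinearMap.mulLeft_apply, AlgHom.toLinearMap_apply,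
      Algebra.TensorProduct.map_tmul, AlgHom.id_apply, Algebra.TensorProduct.tmul_mul_tmul,
      one_mul, LinearMap.baseChange_tmul]

end Alg

open VarClass Obj WeilCohomology

variable {k : Type u} [Field k] {𝒱 : VarClass k} {ops : CycleOps 𝒱}

/-- The extension of the coefficients: the data. -/
noncomputable def baseData (W : WeilCohomology.{u, v} ops) (L : Type v) [Field L]
    [Algebra W.K L] : WeilData.{u, v} 𝒱 where
  K := L
  field := inferInstance
  charZero := charZero_of_injective_algebraMap (algebraMap W.K L).injective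
  H X := L ⊗[W.K] W.H X
  ring X := inferInstance
  algebra X := inferInstance
  gr X i := (W.gr X i).baseChange L
  map f := mapBase L (W.map f)
  tr X := formBase L (W.tr X)
  push f := (W.push f).baseChange L
  cl X := (TensorProduct.mk W.K L (W.H X) 1).toAddMonoidHom.comp (W.cl X)

section Cyc

variable (W : WeilCohomology.{u, v} ops) (L : Type v) [Field L] [Algebra W.K L] {X Y : 𝒱.Obj}

lemma base_fund : (1 : L) ⊗ₜ[W.K] (W.cl X X.V.fundCycle) = (1 : L ⊗[W.K] W.H X) := by
  rw [W.cl_fund]
  rfl

lemma base_tr_cl [CharZero L] {z : X.Cycles} (hz : X.IsCyc X.dim z) :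
    formBase L (W.tr X) ((1 : L) ⊗ₜ[W.K] (W.cl X z)) = ((X.V.degCycle z : ℚ) : L) := by
  rw [formBase_tmul, W.tr_cl hz, one_mul, map_ratCast]

lemma base_mul (z w : X.Cycles) : (1 : L) ⊗ₜ[W.K] (W.cl X (ops.mul z w)) =
    (1 : L) ⊗ₜ[W.K] (W.cl X z) * (1 : L) ⊗ₜ[W.K] (W.cl X w) := by
  rw [W.cl_mul, Algebra.TensorProduct.tmul_mul_tmul, one_mul]

lemma base_pull (f : X ⟶ Y) (z : Y.Cycles) : (1 : L) ⊗ₜ[W.K] (W.cl X (ops.pull f z)) =
    mapBase L (W.map f) ((1 : L) ⊗ₜ[W.K] (W.cl Y z)) := by
  rw [W.cl_pull, Algebra.TensorProduct.map_tmul]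
  rfl

lemma base_push (f : X ⟶ Y) (z : X.Cycles) : (1 : L) ⊗ₜ[W.K] (W.cl Y (ops.push f z)) =
    (W.push f).baseChange L ((1 : L) ⊗ₜ[W.K] (W.cl X z)) := by
  rw [W.cl_push, LinearMap.baseChange_tmul]

end Cyc

/-- The extension of the coefficients of a Weil cohomology theory. -/
noncomputable def baseW (W : WeilCohomology.{u, v} ops) (L : Type v) [Field L]
    [Algebra W.K L] : WeilCohomology.{u, v} ops where
  toWeilData := baseData W L
  isPoincareAlgebra X := IsPoincareAlgebra.baseChange (L := L) (W.isPoincareAlgebra X)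
  isFunctorial :=
    { map_id := fun X => mapBase_id (W.isFunctorial.map_id X)
      map_comp := fun f g => mapBase_comp (W.isFunctorial.map_comp f g)
      isPullPush := fun f => IsPullPush.baseChange (L := L) (W.isFunctorial.isPullPush f) }
  isKunneth X Y := IsKunneth.baseChange (L := L) (W.isKunneth X Y)
  isCycleMap X :=
    { cl_mem := fun hz => Submodule.tmul_mem_baseChange_of_mem 1 (W.cl_mem hz)
      cl_fund := base_fund W L
      tr_cl := fun hz => by
        have : CharZero L := charZero_of_injective_algebraMap (algebraMap W.K L).injective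
        exact base_tr_cl W L hz }
  isCompatible :=
    { cl_mul := fun z w => base_mul W L z w
      cl_pull := fun f z => base_pull W L f z
      cl_push := fun f z => base_push W L f z }

variable {W : WeilCohomology.{u, v} ops} {L : Type v} [Field L] [Algebra W.K L] {X Y : 𝒱.Obj}

/-- The conjecture D does not change under extension of the coefficients. -/
lemma homEqNum_base (h : HomEqNum (baseW W L) X) : HomEqNum W X := fun j hj z hz hnum =>
  tmul_injective _ (h j hj z hz hnum)

/-- The semilinear automorphism attached to an automorphism of the coefficients. -/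
noncomputable def semiLin (W : WeilCohomology.{u, v} ops) (L : Type v) [Field L]
    [Algebra W.K L] (τ : L ≃ₐ[W.K] L) : SemiLin (baseW W L) where
  τ := (τ : L →+* L)
  σ X := (sig τ : L ⊗[W.K] W.H X →ₗ[W.K] L ⊗[W.K] W.H X).toAddMonoidHom
  smul := fun c a => sig_smul τ c a
  mul := fun a b => sig_mul τ a b
  map := fun f a => sig_map τ (W.map f) a
  gr := fun ha => sig_gr τ ha
  cl := fun {X} z => by
    have h1 : sig τ ((1 : L) ⊗ₜ[W.K] (W.cl X z)) = (1 : L) ⊗ₜ[W.K] (W.cl X z) := by
      rw [sig_tmul, map_one]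
    exact h1
  inj := fun a h => sig_inj τ a h

/-- The extensions of algebraic operators are algebraic. -/
lemma KOp.base {d : ℤ} {F : W.H X →ₗ[W.K] W.H Y} (hF : F ∈ KOp W X Y d) :
    (F.baseChange L : L ⊗[W.K] W.H X →ₗ[L] L ⊗[W.K] W.H Y) ∈ KOp (baseW W L) X Y d := by
  induction hF using Submodule.span_induction with
  | mem x hx =>
    obtain ⟨p, hp, z, hz, rfl⟩ := hx
    exact Submodule.subset_span ⟨p, hp, z, hz,
      corrOp_base (L := L) (W.map (fst X Y)) (W.push (snd X Y)) (W.cl _ z)⟩
  | zero =>
    rw [LinearMap.baseChange_zero]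
    exact Submodule.zero_mem _
  | add x y _ _ hx hy =>
    rw [LinearMap.baseChange_add]
    exact Submodule.add_mem _ hx hy
  | smul a x _ hx =>
    have h1 : (a • x).baseChange L = (algebraMap W.K L a) • x.baseChange L := by
      rw [LinearMap.baseChange_smul, algebraMap_smul]
    rw [h1]
    exact Submodule.smul_mem _ _ hx

end Pool.Agent.H914
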