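import Pool.Agent.H88.L.H914R2.PStep
import Pool.Agent.H88.L.H914R2.TCore
import Pool.Agent.H88.L.H914R2.DDefs

/-!
# The standard conjecture of Hodge type for good varieties
-/

open CategoryTheory AlgebraicGeometry Finset Polynomial

universe u v w

namespace Pool.Agent.H914

/-- The component of a sum of eigenvectors in an eigenspace. -/
lemma eig_select {K : Type*} [Field K] {V : Type*} [AddCommGroup V] [Module K V]
    {G : Module.End K V} {c : V} {t : K} (hc : G c = t • c) {κ : Type*} (s : Finset κ)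
    (x : κ → V) (μ : κ → K) (hx : ∀ k ∈ s, G (x k) = μ k • x k) (hsum : c = ∑ k ∈ s, x k)
    {T : Submodule K V} (hT : ∀ k ∈ s, μ k = t → x k ∈ T) : c ∈ T := by
  classical
  set Q : K[X] := ∏ ν ∈ (s.image μ).erase t, (X - C ν) with hQ
  have hQt : Q.eval t ≠ 0 := by
    rw [hQ, eval_prod, Finset.prod_ne_zero_iff]
    intro ν hν
    rw [eval_sub, eval_X, eval_C, sub_ne_zero]
    exact (Finset.ne_of_mem_erase hν).symm
  have h1 : Q.eval t • c = ∑ k ∈ s, (Q.eval (μ k)) • x k := by
    rw [← aeval_eig hc, hsum, map_sum]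
    exact Finset.sum_congr rfl (fun k hk => aeval_eig (hx k hk) Q)
  have h2 : Q.eval t • c ∈ T := by
    rw [h1]
    apply Submodule.sum_mem
    intro k hk
    by_cases hμ : μ k = t
    · exact T.smul_mem _ (hT k hk hμ)
    · have : Q.eval (μ k) = 0 := by
        rw [hQ, eval_prod, Finset.prod_eq_zero_iff]
        exact ⟨μ k, Finset.mem_erase.2 ⟨hμ, Finset.mem_image_of_mem μ hk⟩, by simp⟩
      rw [this, zero_smul]
      exact T.zero_mem
  have h3 := T.smul_mem (Q.eval t)⁻¹ h2
  rwa [smul_smul, inv_mul_cancel₀ hQt, one_smul] at h3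

section Pairs

variable {L : Type*} (β : L → L)

/-- The multiset is a union of pairs. -/
def PairedBy (s : Multiset L) : Prop := ∃ t : Multiset L, s = t + t.map β

lemma PairedBy.cons (hβ : ∀ x, β (β x) = x) {x : L} {s : Multiset L}
    (h : PairedBy β (x ::ₘ s)) : ∃ s', s = β x ::ₘ s' ∧ PairedBy β s' := by
  obtain ⟨t, ht⟩ := h
  have hx : x ∈ t + t.map β := by rw [← ht]; exact Multiset.mem_cons_self _ _
  rw [Multiset.mem_add] at hx
  rcases hx with hx | hx
  · obtain ⟨t', rfl⟩ := Multiset.exists_cons_of_mem hx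
    refine ⟨t' + t'.map β, ?_, t', rfl⟩
    rw [Multiset.map_cons, Multiset.cons_add, Multiset.cons_inj_right] at ht
    rw [ht, Multiset.add_cons]
  · rw [Multiset.mem_map] at hx
    obtain ⟨y, hy, rfl⟩ := hx
    obtain ⟨t', rfl⟩ := Multiset.exists_cons_of_mem hy
    refine ⟨t' + t'.map β, ?_, t', rfl⟩
    rw [Multiset.map_cons, Multiset.add_cons, Multiset.cons_inj_right, Multiset.cons_add] at ht
    rw [ht, hβ]

end Pairs

open VarClass Obj WeilCohomology

variable {k : Type u} [Field k] {𝒱 : VarClass k} {ops : CycleOps 𝒱}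
  {W : WeilCohomology.{u, v} ops} {X Y Z : 𝒱.Obj} {𝓡 : RealField W.K} {ι : Type w}
  {P : ι → 𝒱.Obj} {𝓛 : LabelData W P 𝓡}

/-- The involution on the labels. -/
def barL (bar : ∀ j, 𝓛.A j → 𝓛.A j) (x : 𝓛.Lab) : 𝓛.Lab := ⟨x.1, bar x.1 x.2⟩

/-- The properties of the labels. -/
structure LabelProps (𝓛 : LabelData W P 𝓡) (q : ℕ) (bar : ∀ j, 𝓛.A j → 𝓛.A j) : Prop where
  hq : q ≠ 0
  bar_bar : ∀ j a, bar j (bar j a) = a
  gam_bar : ∀ j a, 𝓛.gam j a * 𝓛.gam j (bar j a) = 1
  vec_deg : ∀ j a, 𝓛.vec j a ∈ W.gr (P j) (P j).dim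
  pair : ∀ j a, W.map (fst (P j) (P j)) (𝓛.vec j a) *
    W.map (snd (P j) (P j)) (𝓛.vec j (bar j a)) ∈
      Submodule.span W.K ((prodV (𝓛.VR j) (𝓛.VR j) ⊓ algR 𝓡 _ :
        Submodule 𝓡.R (W.H ((P j).prod (P j)))) : Set (W.H ((P j).prod (P j))))
  neat : ∀ s : Multiset 𝓛.Lab, ∀ m ≥ 1, 𝓛.alp s ^ (2 * m) = (q : W.K) ^ (m * 𝓛.wdeg s) →
    PairedBy (barL bar) s

lemma Coord.ev_mem {q : ℕ} {bar : ∀ j, 𝓛.A j → 𝓛.A j} (hL : LabelProps 𝓛 q bar)
    (c : Coord 𝓛 X) : c.ev ∈ W.gr X (P c.j).dim := W.map_mem _ (hL.vec_deg _ _)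

lemma prod_ev_mem {q : ℕ} {bar : ∀ j, 𝓛.A j → 𝓛.A j} (hL : LabelProps 𝓛 q bar)
    (l : List (Coord 𝓛 X)) : ∃ i, (l.map Coord.ev).prod ∈ W.gr X i := by
  induction l with
  | nil => exact ⟨0, by simpa using W.one_mem X⟩
  | cons c l ih =>
    obtain ⟨i, hi⟩ := ih
    refine ⟨(P c.j).dim + i, ?_⟩
    rw [List.map_cons, List.prod_cons]
    exact W.mul_mem (c.ev_mem hL) hi

lemma gmp_paired {q : ℕ} {bar : ∀ j, 𝓛.A j → 𝓛.A j} (hL : LabelProps 𝓛 q bar)
    {s : Multiset 𝓛.Lab} (hs : PairedBy (barL bar) s) : 𝓛.gmp s = 1 := by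
  obtain ⟨t, rfl⟩ := hs
  rw [LabelData.gmp_add, LabelData.gmp, LabelData.gmp, Multiset.map_map, ← Multiset.prod_map_mul]
  apply Multiset.prod_eq_one
  intro y hy
  rw [Multiset.mem_map] at hy
  obtain ⟨x, -, rfl⟩ := hy
  exact hL.gam_bar x.1 x.2

namespace GoodVar

variable {q : ℕ} {D : X.Cycles} {φ : X ⟶ X} {f S : Module.End W.K (W.H X)}
  {V : Submodule 𝓡.R (W.H X)} {M : Multiset 𝓛.Lab → ℕ → W.H X → Prop}
  (h : GoodVar 𝓛 q X D φ f S V M) {bar : ∀ j, 𝓛.A j → 𝓛.A j} (hL : LabelProps 𝓛 q bar)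

include h

lemma UK_mul {a b : W.H X}
    (ha : a ∈ Submodule.span W.K ((V ⊓ algR 𝓡 X : Submodule 𝓡.R (W.H X)) : Set (W.H X)))
    (hb : b ∈ Submodule.span W.K ((V ⊓ algR 𝓡 X : Submodule 𝓡.R (W.H X)) : Set (W.H X))) :
    a * b ∈ Submodule.span W.K ((V ⊓ algR 𝓡 X : Submodule 𝓡.R (W.H X)) : Set (W.H X)) := by
  induction ha using Submodule.span_induction with
  | mem a ha =>
    induction hb using Submodule.span_induction with
    | mem b hb =>
      exact Submodule.subset_span ⟨h.mul_mem _ ha.1 _ hb.1, algR_mul ha.2 hb.2⟩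
    | zero => rw [mul_zero]; exact Submodule.zero_mem _
    | add x y _ _ hx hy => rw [mul_add]; exact Submodule.add_mem _ hx hy
    | smul r x _ hx => rw [mul_smul_comm]; exact Submodule.smul_mem _ _ hx
  | zero => rw [zero_mul]; exact Submodule.zero_mem _
  | add x y _ _ hx hy => rw [add_mul]; exact Submodule.add_mem _ hx hy
  | smul r x _ hx => rw [smul_mul_assoc]; exact Submodule.smul_mem _ _ hx

include hL

/-- The product of a pair of coordinate vectors is algebraic. -/
lemma pair_mem {c c' : Coord 𝓛 X} (hc : c.Good V) (hc' : c'.Good V)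
    (hlab : c'.lab = barL bar c.lab) : c.ev * c'.ev ∈
      Submodule.span W.K ((V ⊓ algR 𝓡 X : Submodule 𝓡.R (W.H X)) : Set (W.H X)) := by
  obtain ⟨j, g, a⟩ := c
  obtain ⟨j', g', a'⟩ := c'
  simp only [Coord.lab, barL, Sigma.mk.injEq] at hlab
  obtain ⟨rfl, hlab⟩ := hlab
  obtain rfl := eq_of_heq hlab
  change W.map g (𝓛.vec j' a) * W.map g' (𝓛.vec j' (bar j' a)) ∈ _
  have e1 : W.map g (𝓛.vec j' a) * W.map g' (𝓛.vec j' (bar j' a)) =
      W.map (Obj.lift g g') (W.map (fst (P j') (P j')) (𝓛.vec j' a) *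
        W.map (snd (P j') (P j')) (𝓛.vec j' (bar j' a))) := by
    rw [map_mul, ← W.map_comp, ← W.map_comp, Obj.lift_fst, Obj.lift_snd]
  rw [e1]
  have h1 := hL.pair j' a
  have key : ∀ c ∈ prodV (𝓛.VR j') (𝓛.VR j'), W.map (Obj.lift g g') c ∈ V := by
    have hsub : prodV (𝓛.VR j') (𝓛.VR j') ≤ V.comap
        ((W.map (Obj.lift g g')).toLinearMap.restrictScalars 𝓡.R) := by
      rw [prodV, Submodule.span_le]
      rintro _ ⟨x, hx, y, hy, rfl⟩
      change W.map (Obj.lift g g') (W.map (fst (P j') (P j')) x * W.map (snd (P j') (P j')) y) ∈ V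
      rw [map_mul, ← W.map_comp, ← W.map_comp, Obj.lift_fst, Obj.lift_snd]
      exact h.mul_mem _ (hc x hx) _ (hc' y hy)
    exact fun c hc => hsub hc
  generalize W.map (fst (P j') (P j')) (𝓛.vec j' a) *
    W.map (snd (P j') (P j')) (𝓛.vec j' (bar j' a)) = x at h1
  induction h1 using Submodule.span_induction with
  | mem x hx => exact Submodule.subset_span ⟨key x hx.1, algR_map _ hx.2⟩
  | zero => rw [map_zero]; exact Submodule.zero_mem _
  | add x y _ _ hx hy => rw [map_add]; exact Submodule.add_mem _ hx hy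
  | smul r x _ hx => rw [map_smul]; exact Submodule.smul_mem _ _ hx

/-- Monomials whose labels are paired are algebraic. -/
lemma list_mem (n : ℕ) : ∀ l : List (Coord 𝓛 X), l.length ≤ n → (∀ c ∈ l, c.Good V) →
    PairedBy (barL bar) ((l.map Coord.lab : List 𝓛.Lab) : Multiset 𝓛.Lab) →
    ∀ u ∈ Submodule.span W.K ((V ⊓ algR 𝓡 X : Submodule 𝓡.R (W.H X)) : Set (W.H X)),
    u * (l.map Coord.ev).prod ∈
      Submodule.span W.K ((V ⊓ algR 𝓡 X : Submodule 𝓡.R (W.H X)) : Set (W.H X)) := by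
  induction n with
  | zero =>
    intro l hl _ _ u hu
    have : l = [] := List.length_eq_zero_iff.1 (by omega)
    subst this
    simpa using hu
  | succ n ih =>
    intro l hl hgood hp u hu
    rcases l with _ | ⟨c, l⟩
    · simpa using hu
    · rw [List.map_cons, ← Multiset.cons_coe] at hp
      obtain ⟨s', hs', hp'⟩ := hp.cons _ (fun x => by
        rcases x with ⟨j, a⟩
        simp only [barL, hL.bar_bar])
      have hmem : barL bar c.lab ∈ l.map Coord.lab := by
        have : barL bar c.lab ∈ ((l.map Coord.lab : List 𝓛.Lab) : Multiset 𝓛.Lab) := by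
          rw [hs']; exact Multiset.mem_cons_self _ _
        exact this
      rw [List.mem_map] at hmem
      obtain ⟨c', hc', hlab⟩ := hmem
      obtain ⟨l₁, l₂, rfl⟩ := List.append_of_mem hc'
      have hs'' : ((((l₁ ++ l₂).map Coord.lab : List 𝓛.Lab)) : Multiset 𝓛.Lab) = s' := by
        rw [List.map_append, List.map_cons, hlab] at hs'
        have h1 : (((l₁.map Coord.lab ++ barL bar c.lab :: l₂.map Coord.lab : List 𝓛.Lab)) :
            Multiset 𝓛.Lab) = barL bar c.lab ::ₘ
              ((l₁.map Coord.lab ++ l₂.map Coord.lab : List 𝓛.Lab) : Multiset 𝓛.Lab) := by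
          rw [Multiset.cons_coe, Multiset.coe_eq_coe]
          exact List.perm_middle
        rw [h1, Multiset.cons_inj_right] at hs'
        rw [List.map_append]
        exact hs'
      obtain ⟨i, hi⟩ := prod_ev_mem hL l₁
      have hcomm : (l₁.map Coord.ev).prod * c'.ev =
          (-1 : W.K) ^ (i * (P c'.j).dim) • (c'.ev * (l₁.map Coord.ev).prod) :=
        W.comm hi (c'.ev_mem hL)
      have e1 : u * ((c :: (l₁ ++ c' :: l₂)).map Coord.ev).prod =
          (-1 : W.K) ^ (i * (P c'.j).dim) •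
            (u * (c.ev * c'.ev) * ((l₁ ++ l₂).map Coord.ev).prod) := by
        rw [List.map_cons, List.prod_cons, List.map_append, List.prod_append, List.map_cons,
          List.prod_cons, ← mul_assoc (l₁.map Coord.ev).prod, hcomm, smul_mul_assoc,
          mul_smul_comm, mul_smul_comm, List.map_append, List.prod_append]
        simp only [mul_assoc]
      rw [e1]
      apply Submodule.smul_mem
      apply ih
      · simp only [List.length_append, List.length_cons] at hl ⊢
        omega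
      · intro x hx
        apply hgood
        rw [List.mem_append] at hx
        simp only [List.mem_cons, List.mem_append]
        tauto
      · rw [hs'']; exact hp'
      · apply h.UK_mul hu
        exact h.pair_mem hL (hgood c (by simp)) (hgood c' (by simp)) hlab

lemma M_alg {s : Multiset 𝓛.Lab} {d : ℕ} {a : W.H X} (hM : M s d a)
    (hs : PairedBy (barL bar) s) : a ∈ Submodule.span W.K
      ((V ⊓ algR 𝓡 X : Submodule 𝓡.R (W.H X)) : Set (W.H X)) := by
  obtain ⟨u, l, hu, -, hl, rfl, rfl⟩ := h.M_list hM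
  exact h.list_mem hL l.length l le_rfl hl hs u hu

/-- Algebraic classes are combinations of monomials with paired labels. -/
lemma alg_mem (hF : FrobeniusOnCycles W X φ q) {j : ℕ} {c : W.H X}
    (hc : c ∈ algClasses W X j) : c ∈ Submodule.span W.K
      {a | ∃ s d, M s d a ∧ 2 * d + 𝓛.wdeg s = 2 * j ∧ PairedBy (barL bar) s} := by
  classical
  obtain ⟨z, hz, rfl⟩ := hc
  obtain ⟨m, hm, hmz⟩ := hF j z hz
  rw [cl_pull_iter] at hmz
  have h0 : ((W.map φ).toLinearMap ^ m) (W.cl X z) = (((q : W.K) ^ j) ^ m) • W.cl X z := by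
    rw [hmz, ← pow_mul, mul_comm]
  have h1 := h.span_M (W.cl X z)
  rw [Submodule.mem_span_set'] at h1
  obtain ⟨n, r, g, hg⟩ := h1
  choose s d hM using fun k => (g k).2
  choose μ hμ1 hμ using fun k => h.M_F (hM k)
  set N := m * ∏ k, μ k with hN
  have hNpos : 1 ≤ N := Nat.mul_pos hm (Finset.prod_pos (fun k _ => hμ1 k))
  -- the homogeneous part
  have h2 : W.cl X z = ∑ k ∈ (Finset.univ : Finset (Fin n)).filter
      (fun k => 2 * d k + 𝓛.wdeg (s k) = 2 * j), r k • (g k : W.H X) := by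
    have e1 : proj (W.isInternal X) (2 * j) (W.cl X z) = W.cl X z :=
      proj_same _ (W.cl_mem hz)
    rw [← e1, ← hg, map_sum, Finset.sum_filter]
    apply Finset.sum_congr rfl
    intro k _
    by_cases hk : 2 * d k + 𝓛.wdeg (s k) = 2 * j
    · rw [if_pos hk, map_smul, proj_same _ (hk ▸ h.M_deg (hM k))]
    · rw [if_neg hk, map_smul, proj_ne _ (h.M_deg (hM k)) hk, smul_zero]
  have h3 : ((W.map φ).toLinearMap ^ N) (W.cl X z) = (((q : W.K) ^ j) ^ N) • W.cl X z :=
    pow_smul_of_pow h0 _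
  refine eig_select h3 _ (fun k => r k • (g k : W.H X))
    (fun k => ((q : W.K) ^ d k * 𝓛.alp (s k)) ^ N) ?_ h2 ?_
  · intro k _
    obtain ⟨e, he⟩ : μ k ∣ ∏ k, μ k := Finset.dvd_prod_of_mem _ (Finset.mem_univ k)
    have h4 := pow_smul_of_pow (hμ k) (m * e)
    rw [show μ k * (m * e) = N by rw [hN, he]; ring] at h4
    rw [map_smul, h4, smul_comm]
  · intro k hk hkμ
    rw [Finset.mem_filter] at hk
    apply Submodule.smul_mem
    apply Submodule.subset_span
    refine ⟨s k, d k, hM k, hk.2, hL.neat (s k) N hNpos ?_⟩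
    have hqK : (q : W.K) ≠ 0 := by exact_mod_cast hL.hq
    have h5 : (((q : W.K) ^ d k * 𝓛.alp (s k)) ^ N) ^ 2 = (((q : W.K) ^ j) ^ N) ^ 2 := by
      rw [hkμ]
    have h6 : (q : W.K) ^ (2 * (d k * N)) * 𝓛.alp (s k) ^ (2 * N) =
        (q : W.K) ^ (2 * (d k * N)) * (q : W.K) ^ (N * 𝓛.wdeg (s k)) := by
      have e2 : (((q : W.K) ^ d k * 𝓛.alp (s k)) ^ N) ^ 2 =
          (q : W.K) ^ (2 * (d k * N)) * 𝓛.alp (s k) ^ (2 * N) := by ring
      have e3 : (((q : W.K) ^ j) ^ N) ^ 2 = (q : W.K) ^ (2 * (d k * N)) *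
          (q : W.K) ^ (N * 𝓛.wdeg (s k)) := by
        rw [← pow_mul, ← pow_mul, ← pow_add]
        congr 1
        have := hk.2
        calc j * (N * 2) = (2 * j) * N := by ring
          _ = (2 * d k + 𝓛.wdeg (s k)) * N := by rw [this]
          _ = _ := by ring
      rw [← e2, ← e3, h5]
    exact mul_left_cancel₀ (pow_ne_zero _ hqK) h6

/-- The real structure on the algebraic part is stable under the star operator, and contains all
algebraic classes. -/
lemma S_alg (hF : FrobeniusOnCycles W X φ q) {u : W.H X} (hu : u ∈ V ⊓ algR 𝓡 X) :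
    S u ∈ V ⊓ algR 𝓡 X := by
  obtain ⟨m, b, d, hb, -⟩ := h.frame
  have hSV := h.S_mem u hu.1
  -- paired monomials
  have h1 : u ∈ Submodule.span W.K {a | ∃ s d, M s d a ∧ PairedBy (barL bar) s} := by
    have h2 : ∀ x ∈ algR 𝓡 X, x ∈
        (Submodule.span W.K {a | ∃ s d, M s d a ∧ PairedBy (barL bar) s}) := by
      intro x hx
      induction hx using Submodule.span_induction with
      | mem x hx =>
        obtain ⟨j, hx⟩ := hx
        refine Submodule.span_mono ?_ (h.alg_mem hL hF hx)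
        rintro a ⟨s, d, h3, -, h4⟩
        exact ⟨s, d, h3, h4⟩
      | zero => exact Submodule.zero_mem _
      | add x y _ _ hx hy => exact Submodule.add_mem _ hx hy
      | smul r x _ hx => exact Submodule.smul_mem _ (r : W.K) hx
    exact h2 u hu.2
  have h3 : S u ∈ Submodule.span W.K
      ((V ⊓ algR 𝓡 X : Submodule 𝓡.R (W.H X)) : Set (W.H X)) := by
    clear hu hSV
    induction h1 using Submodule.span_induction with
    | mem a ha =>
      obtain ⟨s, d, ha, hs⟩ := ha
      refine Submodule.span_le.2 ?_ (h.M_S ha)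
      rintro b ⟨d', hb⟩
      exact h.M_alg hL hb hs
    | zero => rw [map_zero]; exact Submodule.zero_mem _
    | add x y _ _ hx hy => rw [map_add]; exact Submodule.add_mem _ hx hy
    | smul r x _ hx => rw [map_smul]; exact Submodule.smul_mem _ _ hx
  exact hb.descent (inf_le_left) h3 (fun u' hu' => hb.mem_R hSV hu'.1)

lemma alg_le (hF : FrobeniusOnCycles W X φ q) {j : ℕ} {c : W.H X}
    (hc : c ∈ algClasses W X j) : c ∈ V ⊓ algR 𝓡 X := by
  obtain ⟨m, b, d, hb, -⟩ := h.frame
  have hcR : c ∈ algR 𝓡 X := Submodule.subset_span ⟨j, hc⟩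
  apply hb.descent (inf_le_left)
  · refine Submodule.span_le.2 ?_ (h.alg_mem hL hF hc)
    rintro a ⟨s, d, ha, -, hs⟩
    exact h.M_alg hL ha hs
  · intro u hu
    rw [LinearMap.compl₂_apply, bil_apply]
    exact algR_tr (algR_mul hcR (h.S_alg hL hF hu).2)

/-- **The standard conjecture D for a good variety.** -/
theorem homEqNum (hF : FrobeniusOnCycles W X φ q) : HomEqNum W X := by
  intro j hj z hz hnum
  obtain ⟨m, b, d, hb, -⟩ := h.frame
  have hc := h.alg_le hL hF (c := W.cl X z) ⟨z, hz, rfl⟩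
  apply hb.aniso hc.1
  rw [LinearMap.compl₂_apply, bil_apply]
  have key : ∀ x ∈ algR 𝓡 X, W.tr X (W.cl X z * x) = 0 := by
    intro x hx
    induction hx using Submodule.span_induction with
    | mem x hx =>
      obtain ⟨i, w, hw, rfl⟩ := hx
      by_cases hi : i = X.dim - j
      · subst hi
        have h2 := ops.mul_mem hz hw
        rw [show j + (X.dim - j) = X.dim by omega] at h2
        rw [← W.cl_mul, W.tr_cl h2, hnum w hw, Rat.cast_zero]
      · rw [W.tr_eq_zero (W.mul_mem (W.cl_mem hz) (W.cl_mem hw)) (by omega)]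
    | zero => rw [mul_zero, map_zero]
    | add x y _ _ hx hy => rw [mul_add, map_add, hx, hy, add_zero]
    | smul r x _ hx =>
      have e1 : W.cl X z * (r • x) = (r : W.K) • (W.cl X z * x) := mul_smul_comm _ _ _
      rw [e1, map_smul, hx, smul_zero]
  exact key _ (h.S_alg hL hF hc).2

/-- **The standard conjecture of Hodge type for a good variety.** -/
theorem hodgeType (hF : FrobeniusOnCycles W X φ q) : HodgeType W X D := by
  intro j hj z hz hprim hz0
  obtain ⟨m, b, d, hb, -⟩ := h.frame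
  set L : Module.End W.K (W.H X) := LinearMap.mulLeft W.K (W.cl X D) with hLdef
  have hc := h.alg_le hL hF (c := W.cl X z) ⟨z, hz, rfl⟩
  have hcg : W.cl X z ∈ W.gr X (2 * j) := W.cl_mem hz
  -- the star operator on `c`
  have h1 : S (W.cl X z) = ((-1 : W.K) ^ j) • wey L f (W.cl X z) := by
    have h2 := h.alg_mem hL hF (c := W.cl X z) ⟨z, hz, rfl⟩
    have h3 : ∀ x ∈ Submodule.span W.K
        {a | ∃ s d, M s d a ∧ 2 * d + 𝓛.wdeg s = 2 * j ∧ PairedBy (barL bar) s},
        S x = ((-1 : W.K) ^ j) • wey L f x := by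
      intro x hx
      induction hx using Submodule.span_induction with
      | mem x hx =>
        obtain ⟨s, d, hM, hd, hs⟩ := hx
        rw [h.M_w hM, gmp_paired hL hs, hd, mul_one]
        congr 1
        have e1 : (2 * j).choose 2 = j + 2 * (j * (j - 1)) := by
          rw [Nat.choose_two_right]
          rcases j with _ | j
          · rfl
          · have : 2 * (j + 1) * (2 * (j + 1) - 1) = 2 * ((j + 1) + 2 * ((j + 1) * j)) := by
              rw [show 2 * (j + 1) - 1 = 2 * j + 1 by omega]; ring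
            rw [this, Nat.mul_div_cancel_left _ (by norm_num : 0 < 2)]
            rfl
        rw [e1, pow_add, pow_mul]
        simp
      | zero => rw [map_zero, map_zero, smul_zero]
      | add x y _ _ hx hy => rw [map_add, map_add, smul_add, hx, hy]
      | smul r x _ hx => rw [map_smul, map_smul, hx, smul_comm]
    exact h3 _ h2
  have hwt : wt (W.isInternal X) X.dim (W.cl X z) =
      -((X.dim - 2 * j : ℕ) : W.K) • W.cl X z := by
    rw [wt, scal_apply _ _ hcg, node]
    congr 1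
    rw [Nat.cast_sub hj]
    push_cast
    ring
  have hfz : f (W.cl X z) = 0 := by
    apply h.sl2.f_eq_zero hwt
    rw [← cl_divPow]
    exact hprim
  have h4 := wey_lowest h.sl2 hfz hwt
  have h5 : (bil W X).compl₂ S (W.cl X z) (W.cl X z) =
      (((-1 : ℚ) ^ j * ((X.dim - 2 * j).factorial : ℚ)⁻¹ *
        X.V.degCycle (ops.mul z (divPow ops D (X.dim - 2 * j) z)) : ℚ) : W.K) := by
    rw [LinearMap.compl₂_apply, bil_apply, h1, h4, mul_smul_comm, mul_smul_comm, map_smul,
      map_smul, ← cl_divPow, ← W.cl_mul, W.tr_cl]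
    · push_cast
      rw [smul_eq_mul, smul_eq_mul, mul_assoc]
    · have := ops.mul_mem hz (divPow_mem (ops := ops) h.hD (X.dim - 2 * j) hz)
      rwa [show j + (j + (X.dim - 2 * j)) = X.dim by omega] at this
  have h6 := hb.pos_of_rat hc.1 hz0 h5
  have h7 : (0 : ℚ) < (X.dim - 2 * j).factorial := by positivity
  have h8 : (-1 : ℚ) ^ j * ((X.dim - 2 * j).factorial : ℚ)⁻¹ *
      X.V.degCycle (ops.mul z (divPow ops D (X.dim - 2 * j) z)) =
      ((X.dim - 2 * j).factorial : ℚ)⁻¹ * ((-1 : ℚ) ^ j *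
        X.V.degCycle (ops.mul z (divPow ops D (X.dim - 2 * j) z))) := by ring
  rw [h8] at h6
  exact (pos_iff_pos_of_mul_pos h6).1 (by positivity)

end GoodVar

end Pool.Agent.H914
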