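import Pool.Agent.H88.L.H914R2.PMain
import Pool.Agent.H88.L.H914R2.GConv3

/-!
# Varieties whose transcendental cohomology lies in the middle degree
-/

open CategoryTheory AlgebraicGeometry Finset Polynomial

universe u v w

namespace Pool.Agent.H914

open VarClass Obj WeilCohomology

variable {k : Type u} [Field k] {𝒱 : VarClass k} {ops : CycleOps 𝒱}
  {W : WeilCohomology.{u, v} ops} {X Y Z : 𝒱.Obj}

/-- Outside the middle degree the cohomology is spanned by algebraic classes. -/
lemma span_of_mid (hmid : transcendental W X ≤ W.gr X X.dim) {j : ℕ} (hj : j ≤ X.dim)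
    (hj' : 2 * j ≠ X.dim) {a : W.H X} (ha : a ∈ W.gr X (2 * j)) :
    a ∈ Submodule.span W.K (algClasses W X j) := by
  classical
  have hUgr : Submodule.span W.K (algClasses W X j) ≤ W.gr X (2 * j) :=
    Submodule.span_le.2 (fun c hc => alg_gr hc)
  obtain ⟨N, c, c', hc, hc', -, hu, -⟩ := exists_dual_families (bil W X)
    (W.gr X (2 * X.dim - 2 * j)) (Submodule.span W.K (algClasses W X j)) (by
      intro u hu h0
      have h1 : u ∈ transcendental W X := by
        rw [mem_trans]
        intro i b hb
        by_cases hi : i = j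
        · subst hi
          exact h0 b (Submodule.subset_span hb)
        · exact bil_eq_zero hu (alg_gr hb) (by omega)
      have h2 := hmid h1
      have h3 := proj_same (W.isInternal X) hu
      rw [proj_ne (W.isInternal X) h2 (by omega)] at h3
      exact h3.symm) (by
      intro u hu h0
      have hu' := hUgr hu
      apply nondeg_right
      intro b
      refine gr_induction (W.isInternal X) (p := fun b => W.tr X (b * u) = 0) ?_ ?_ b
      · intro i b hb
        by_cases hi : i = 2 * X.dim - 2 * j
        · subst hi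
          exact h0 b hb
        · exact W.tr_eq_zero (W.mul_mem hb hu') (by omega)
      · intro b b' hb hb'
        rw [add_mul, map_add, hb, hb', add_zero])
  have h1 : a - ∑ i, bil W X (c i) a • c' i = 0 := by
    have hmem : a - ∑ i, bil W X (c i) a • c' i ∈ W.gr X (2 * j) :=
      Submodule.sub_mem _ ha (Submodule.sum_mem _ (fun i _ => Submodule.smul_mem _ _
        (hUgr (hc' i))))
    apply nondeg_right
    intro b
    refine gr_induction (W.isInternal X)
      (p := fun b => W.tr X (b * (a - ∑ i, bil W X (c i) a • c' i)) = 0) ?_ ?_ b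
    · intro i b hb
      by_cases hi : i = 2 * X.dim - 2 * j
      · subst hi
        have h2 := congrArg (fun y => bil W X y a) (hu b hb)
        beta_reduce at h2
        rw [map_sum, LinearMap.sum_apply] at h2
        rw [← bil_apply, map_sub, map_sum, h2, sub_eq_zero]
        apply Finset.sum_congr rfl
        intro i _
        rw [map_smul, map_smul, LinearMap.smul_apply, smul_eq_mul, smul_eq_mul, mul_comm]
      · exact W.tr_eq_zero (W.mul_mem hb hmem) (by omega)
    · intro b b' hb hb'
      rw [add_mul, map_add, hb, hb', add_zero]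
  rw [sub_eq_zero.1 h1]
  exact Submodule.sum_mem _ (fun i _ => Submodule.smul_mem _ _ (hc' i))

/-- Finite rational combinations of algebraic classes. -/
lemma alg_sum {κ : Type*} (s : Finset κ) {j : ℕ} (c : κ → W.H X) (r : κ → ℚ)
    (hc : ∀ i ∈ s, c i ∈ algClasses W X j) : ∑ i ∈ s, (r i : W.K) • c i ∈ algClasses W X j := by
  classical
  induction s using Finset.induction_on with
  | empty => rw [Finset.sum_empty]; exact alg_zero j
  | insert a s ha ih =>
    rw [Finset.sum_insert ha]
    exact alg_add (alg_smul _ (hc a (Finset.mem_insert_self _ _)))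
      (ih (fun i hi => hc i (Finset.mem_insert_of_mem hi)))

/-- **The conjecture `A(X)` for varieties with transcendental cohomology in the middle
degree.** -/
theorem lefschetzA_of_mid {D : X.Cycles} (hD : X.IsCyc 1 D) (hHL : HardLefschetz W X D)
    (hmid : transcendental W X ≤ W.gr X X.dim) : LefschetzA W X D := by
  classical
  intro j hj z hz
  by_cases hj' : 2 * j = X.dim
  · refine ⟨z, ?_, ?_⟩
    · rwa [show X.dim - j = j by omega] at hz
    · rw [show X.dim - 2 * j = 0 by omega]
      rfl
  set L : Module.End W.K (W.H X) := LinearMap.mulLeft W.K (W.cl X D) with hL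
  set e := X.dim - 2 * j with he
  obtain ⟨y, hy, hyz⟩ := (hHL (2 * j) hj).2 (W.cl X z) (by
    have := W.cl_mem hz
    rwa [show 2 * (X.dim - j) = 2 * X.dim - 2 * j by omega] at this)
  obtain ⟨T, hTA, hTspan, hTli⟩ := exists_linearIndependent W.K (algClasses W X j)
  have hfin : T.Finite := hTli.setFinite
  have := hfin.fintype
  have hTc : ∀ i : T, (i : W.H X) ∈ algClasses W X j := fun i => hTA i.2
  have hLc : ∀ c ∈ algClasses W X j, (L ^ e) c ∈ algClasses W X (j + e) := by
    rintro _ ⟨w, hw, rfl⟩
    exact ⟨divPow ops D e w, divPow_mem hD e hw, cl_divPow D e w⟩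
  choose g hg using fun i k : T => alg_rat (hLc i (hTc i)) (hTc k)
  -- injectivity
  have hLy : ∀ y ∈ W.gr X (2 * j), (L ^ e) y ∈ W.gr X (2 * X.dim - 2 * j) := by
    intro y hy
    have hξ : ∀ m, (L ^ m) y ∈ W.gr X (2 * j + 2 * m) := by
      intro m
      induction m with
      | zero => simpa using hy
      | succ m ih =>
        rw [pow_succ', Module.End.mul_apply, show 2 * j + 2 * (m + 1) = 2 * 1 + (2 * j + 2 * m)
          by ring]
        exact W.mul_mem (W.cl_mem hD) ih
    have := hξ e
    rwa [show 2 * j + 2 * e = 2 * X.dim - 2 * j by omega] at this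
  have hinj : ∀ y ∈ W.gr X (2 * j), (∀ k : T, bil W X ((L ^ e) y) k = 0) → y = 0 := by
    intro y hy h0
    apply (hHL (2 * j) hj).1 y hy
    apply W.nondeg
    intro b
    refine gr_induction (W.isInternal X) (p := fun b => W.tr X ((L ^ e) y * b) = 0) ?_ ?_ b
    · intro i b hb
      by_cases hi : i = 2 * j
      · subst hi
        have h1 := span_of_mid hmid (by omega) hj' hb
        clear hb
        rw [← hTspan] at h1
        induction h1 using Submodule.span_induction with
        | mem b hb => exact h0 ⟨b, hb⟩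
        | zero => rw [mul_zero, map_zero]
        | add x y _ _ hx hy => rw [mul_add, map_add, hx, hy, add_zero]
        | smul r x _ hx => rw [mul_smul_comm, map_smul, hx, smul_zero]
      · exact W.tr_eq_zero (W.mul_mem (hLy y hy) hb) (by omega)
    · intro b b' hb hb'
      rw [mul_add, map_add, hb, hb', add_zero]
  have hcomb : ∀ v : T → ℚ, ∀ k : T, bil W X ((L ^ e) (∑ i : T, (v i : W.K) • (i : W.H X))) k =
      ((Matrix.vecMul v (Matrix.of g) k : ℚ) : W.K) := by
    intro v k
    rw [map_sum, map_sum, LinearMap.sum_apply, Matrix.vecMul, dotProduct]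
    push_cast
    apply Finset.sum_congr rfl
    intro i _
    rw [map_smul, map_smul, LinearMap.smul_apply, hg, smul_eq_mul]
    rfl
  have hmemc : ∀ v : T → ℚ, ∑ i : T, (v i : W.K) • (i : W.H X) ∈ algClasses W X j := fun v =>
    alg_sum Finset.univ _ v (fun i _ => hTc i)
  have hsurj : Function.Surjective (Matrix.vecMulLinear (Matrix.of g)) := by
    apply LinearMap.surjective_of_injective
    rw [← LinearMap.ker_eq_bot, LinearMap.ker_eq_bot']
    intro v hv
    have h1 : ∑ i : T, (v i : W.K) • (i : W.H X) = 0 := by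
      apply hinj _ (alg_gr (hmemc v))
      intro k
      rw [hcomb]
      have := congrFun hv k
      rw [Matrix.vecMulLinear_apply] at this
      rw [this, Pi.zero_apply, Rat.cast_zero]
    have h2 := Fintype.linearIndependent_iff.1 hTli _ h1
    funext i
    have := h2 i
    exact_mod_cast this
  choose r hr using fun k : T => alg_rat (W := W) ⟨z, hz, rfl⟩ (hTc k)
  obtain ⟨v, hv⟩ := hsurj r
  obtain ⟨z', hz', hzv⟩ := hmemc v
  refine ⟨z', hz', ?_⟩
  have h1 : y = W.cl X z' := by
    rw [← sub_eq_zero]
    apply hinj _ (Submodule.sub_mem _ hy (W.cl_mem hz'))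
    intro k
    rw [map_sub, map_sub, LinearMap.sub_apply, hyz, hr, hzv, hcomb]
    have := congrFun hv k
    rw [Matrix.vecMulLinear_apply] at this
    rw [this, sub_self]
  rw [cl_divPow, ← h1]
  exact hyz

/-- **The Kunneth projectors of a variety with transcendental cohomology in the middle degree are
algebraic.** -/
theorem kunnethStd_of_mid {D : X.Cycles} {Lam : Module.End W.K (W.H X)} {κ : Type} [Fintype κ]
    {l : κ → ℕ} {x : κ → W.H X} {φ : κ → ℚ} {p : Module.End W.K (W.H X)}
    (h : Setup W X D Lam κ l x φ p) (hmid : transcendental W X ≤ W.gr X X.dim) :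
    KunnethStd W X := by
  classical
  set w : κ → W.H X := fun k => wey (LinearMap.mulLeft W.K (W.cl X D)) Lam (x k) with hw
  have hbox : ∀ k, ∃ z, (X.prod X).IsCyc X.dim z ∧ ∀ y, W.corr (W.cl _ z) y =
      bil W X y (w k) • x k := by
    intro k
    obtain ⟨z, hz, hzx⟩ := h.hp.mem k
    obtain ⟨z', hz', hzw⟩ := h.wx_mem k
    refine ⟨ops.pull (swap X X) (ops.mul (ops.pull (fst X X) z) (ops.pull (snd X X) z')), ?_, ?_⟩
    · have h1 := ops.pull_mem (swap X X)
        (ops.mul_mem (ops.pull_mem (fst X X) hz) (ops.pull_mem (snd X X) hz'))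
      have h2 := h.hp.le k
      rwa [show l k + (X.dim - l k) = X.dim by omega] at h1
    · intro y
      rw [W.cl_pull, W.cl_mul, W.cl_pull, W.cl_pull,
        corr_swap_tmul (W.cl_mem hz) (W.cl_mem hz'), LinearMap.smulRight_apply, hzx, hzw,
        bil_apply, ← W.even_comm (alg_gr (h.wx_mem k))]
      rfl
  choose Z hZ hZc using hbox
  have hsum : ∀ (s : Finset κ) (r : κ → ℚ), (X.prod X).IsCyc X.dim (∑ k ∈ s, r k • Z k) ∧
      ∀ y, W.corr (W.cl _ (∑ k ∈ s, r k • Z k)) y =
        ∑ k ∈ s, ((r k : W.K) * bil W X y (w k)) • x k := by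
    intro s r
    induction s using Finset.induction_on with
    | empty =>
      refine ⟨SmVar.IsCyc.zero _ _, fun y => ?_⟩
      rw [Finset.sum_empty, Finset.sum_empty, map_zero, corr_zero, LinearMap.zero_apply]
    | insert a s ha ih =>
      rw [Finset.sum_insert ha]
      refine ⟨((hZ a).smul _).add ih.1, fun y => ?_⟩
      rw [Finset.sum_insert ha, map_add, corr_add, LinearMap.add_apply, ih.2, W.cl_smul,
        corr_smul, LinearMap.smul_apply, hZc, smul_smul]
  -- projectors outside the middle degree
  have hproj : ∀ i, i ≠ X.dim → ∃ P, (X.prod X).IsCyc X.dim P ∧ InducesProjector W X i P := by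
    intro i hi
    obtain ⟨h1, h2⟩ := hsum (Finset.univ.filter (fun k => 2 * l k = i)) (fun k => (φ k)⁻¹)
    refine ⟨_, h1, ?_⟩
    intro j a ha
    rw [h2, Finset.sum_filter]
    by_cases hji : j = i
    · rw [if_pos hji]
      subst hji
      conv_rhs => rw [h.eq_p hmid ha hi, h.hp.p_eq]
      apply Finset.sum_congr rfl
      intro k _
      by_cases hk : 2 * l k = j
      · rw [if_pos hk]
        push_cast
        rfl
      · rw [if_neg hk, h.B_deg ha k hk, mul_zero, zero_smul]
    · rw [if_neg hji]
      apply Finset.sum_eq_zero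
      intro k _
      by_cases hk : 2 * l k = i
      · rw [if_pos hk, hw, h.B_deg ha k (by omega), mul_zero, zero_smul]
      · rw [if_neg hk]
  intro i
  by_cases hi : i = X.dim
  swap
  · exact hproj i hi
  subst hi
  obtain ⟨Δ, hΔ, hΔc⟩ := exists_graph (W := W) (𝟙 X) 0
  choose Q hQ hQp using hproj
  set Q' : ℕ → (X.prod X).Cycles := fun i => if hi : i = X.dim then 0 else Q i hi with hQ'
  have hQ'1 : ∀ i, (X.prod X).IsCyc X.dim (Q' i) := by
    intro i
    rw [hQ']
    beta_reduce
    by_cases hi : i = X.dim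
    · rw [dif_pos hi]; exact SmVar.IsCyc.zero _ _
    · rw [dif_neg hi]; exact hQ i hi
  have hQ'2 : ∀ i j, ∀ a ∈ W.gr X j, W.corr (W.cl _ (Q' i)) a =
      if j = i ∧ i ≠ X.dim then a else 0 := by
    intro i j a ha
    rw [hQ']
    beta_reduce
    by_cases hi : i = X.dim
    · rw [dif_pos hi, map_zero, corr_zero, LinearMap.zero_apply, if_neg (by tauto)]
    · rw [dif_neg hi, hQp i hi j a ha]
      by_cases hji : j = i
      · rw [if_pos hji, if_pos ⟨hji, hi⟩]
      · rw [if_neg hji, if_neg (by tauto)]
  have hs : ∀ s : Finset ℕ, (X.prod X).IsCyc X.dim (∑ i ∈ s, Q' i) ∧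
      ∀ y, W.corr (W.cl _ (∑ i ∈ s, Q' i)) y = ∑ i ∈ s, W.corr (W.cl _ (Q' i)) y := by
    intro s
    induction s using Finset.induction_on with
    | empty =>
      refine ⟨SmVar.IsCyc.zero _ _, fun y => ?_⟩
      rw [Finset.sum_empty, Finset.sum_empty, map_zero, corr_zero, LinearMap.zero_apply]
    | insert a s ha ih =>
      rw [Finset.sum_insert ha]
      refine ⟨(hQ'1 a).add ih.1, fun y => ?_⟩
      rw [Finset.sum_insert ha, map_add, corr_add, LinearMap.add_apply, ih.2]
  obtain ⟨h1, h2⟩ := hs (range (2 * X.dim + 1))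
  refine ⟨Δ + (-1 : ℚ) • ∑ i ∈ range (2 * X.dim + 1), Q' i, hΔ.add (h1.smul _), ?_⟩
  intro j a ha
  rw [map_add, corr_add, LinearMap.add_apply, hΔc, pow_zero, Module.End.one_apply, W.cl_smul,
    corr_smul, LinearMap.smul_apply, h2, Finset.sum_congr rfl (fun i _ => hQ'2 i j a ha)]
  by_cases hj : j < 2 * X.dim + 1
  · by_cases hjn : j = X.dim
    · rw [if_pos hjn, Finset.sum_eq_zero, smul_zero, add_zero]
      intro i _
      rw [if_neg (by rintro ⟨rfl, h⟩; exact h hjn)]
    · rw [if_neg hjn, Finset.sum_eq_single j]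
      · rw [if_pos ⟨rfl, hjn⟩]
        push_cast
        rw [neg_one_smul, add_neg_cancel]
      · intro i _ hij
        rw [if_neg (by rintro ⟨rfl, -⟩; exact hij rfl)]
      · intro h0
        exact absurd (Finset.mem_range.2 hj) h0
  · rw [W.gr_eq_bot X j (by omega), Submodule.mem_bot] at ha
    subst ha
    simp

/-- **The Riemann hypothesis from the conjecture of Hodge type for the square.** -/
theorem rh_of_hodge {D : X.Cycles} (hD : X.IsCyc 1 D) (hHL : HardLefschetz W X D)
    (hK : KunnethStd W X) (hH : HodgeType W (X.prod X) (boxSum ops D)) {f : X ⟶ X} {q : ℕ}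
    (hq : q ≠ 0) (hF : FrobeniusOnCycles W (X.prod X) (squareMap f) q) :
    RiemannHypothesis W X f q := by
  by_cases h1 : (1 : W.H X) = 0
  · intro i
    refine ⟨1, one_ne_zero, fun a _ => ?_, fun z hz => ?_⟩
    · rw [← one_mul a, h1, zero_mul, map_zero]
    · rw [map_one] at hz
      exact absurd hz one_ne_zero
  obtain ⟨b, hb, hb0⟩ := Pool.Agent.H914.exists_top (W := W) hD hHL h1
  obtain ⟨z, hz, rfl⟩ := hb
  have hbex : ∃ b : W.H X, W.tr X b ≠ 0 := ⟨_, hb0⟩
  obtain ⟨mb, hmb1, hmb⟩ := frob_single hF hbex hz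
  obtain ⟨md, hmd1, hmd⟩ := frob_single hF hbex hD
  intro i
  have hM1 : 1 ≤ mb * md := Nat.mul_pos hmb1 hmd1
  apply hasWeight_of_pow hM1
  have e1 : (W.map f).toLinearMap ^ (mb * md) = (W.map (iter f (mb * md))).toLinearMap := by
    apply LinearMap.ext
    intro a
    exact (map_iter f (mb * md) a).symm
  rw [e1]
  apply weights_of_hodge hD hK hH (pow_pos (by omega) _)
  · have := hmd mb
    rw [mul_comm md mb, mul_one] at this
    rw [this]
    push_cast; rfl
  · intro a
    refine tr_map_of_top (b := W.cl X z) (W.cl_mem hz) hb0 ?_ a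
    have := hmb md
    rw [this, pow_mul]
    push_cast; rfl

section Main

variable {ι : Type w} {P : ι → PolVar 𝒱} {q : ℕ}

/-- **The equivalence for all iterated products.** -/
theorem hodge_products_iff (hq : q ≠ 0) (hD : ∀ j, (P j).X.IsCyc 1 (P j).D)
    (hHL : ∀ j, HardLefschetz W (P j).X (P j).D)
    (hmid : ∀ j, transcendental W (P j).X ≤ W.gr (P j).X (P j).X.dim)
    (hS : ∀ j, SquarefreeSpectrum W (P j).X (P j).f) (hN : NeatSpectrum W P q)
    (hF : ∀ Q, IsIteratedProduct ops P Q → FrobeniusOnCycles W Q.X Q.f q) :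
    (∀ j, RiemannHypothesis W (P j).X (P j).f q ∧ HodgeType W (P j).X (P j).D) ↔
      ∀ Q, IsIteratedProduct ops P Q → HodgeType W Q.X Q.D ∧ HomEqNum W Q.X := by
  have hA := fun j => lefschetzA_of_mid (hD j) (hHL j) (hmid j)
  constructor
  · intro h
    exact main hq hD hHL hA (fun j => (h j).2) hmid (fun j => (h j).1) hS hN hF
  · intro h j
    have h1 := (h _ (IsIteratedProduct.base j)).1
    have h2 := (h _ (IsIteratedProduct.prod (IsIteratedProduct.base j)
      (IsIteratedProduct.base j))).1
    obtain ⟨Lam, κ, hκ, l, x, φ, p, hs⟩ := exists_setup (hD j) (hHL j) (hA j) h1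
    exact ⟨rh_of_hodge (hD j) (hHL j) (kunnethStd_of_mid hs (hmid j)) h2 hq
      (hF _ (IsIteratedProduct.prod (IsIteratedProduct.base j) (IsIteratedProduct.base j))), h1⟩

end Main

end Pool.Agent.H914
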