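import Pool.Agent.H88.L.H914R2.PGood

/-!
# Real structures on the cohomology of products: the product
-/

open CategoryTheory AlgebraicGeometry Finset

universe u v w

namespace Pool.Agent.H914

open VarClass Obj WeilCohomology

variable {k : Type u} [Field k] {𝒱 : VarClass k} {ops : CycleOps 𝒱}
  {W : WeilCohomology.{u, v} ops} {X Y Z : 𝒱.Obj} {𝓡 : RealField W.K} {ι : Type w}
  {P : ι → 𝒱.Obj} {𝓛 : LabelData W P 𝓡}

lemma choose_two_add (i j : ℕ) : (i + j).choose 2 = i.choose 2 + j.choose 2 + i * j := by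
  induction j with
  | zero => simp
  | succ j ih =>
    rw [← add_assoc, Nat.choose_succ_succ' (i + j) 1, Nat.choose_succ_succ' j 1, ih,
      Nat.choose_one_right, Nat.choose_one_right]
    ring

/-- Products of external products. -/
lemma tmul_mul {i j : ℕ} {a a' : W.H X} {b b' : W.H Y} (hb : b ∈ W.gr Y j)
    (ha' : a' ∈ W.gr X i) :
    (W.map (fst X Y) a * W.map (snd X Y) b) * (W.map (fst X Y) a' * W.map (snd X Y) b') =
      (-1 : W.K) ^ (j * i) • (W.map (fst X Y) (a * a') * W.map (snd X Y) (b * b')) := by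
  have h1 : W.map (snd X Y) b * W.map (fst X Y) a' =
      (-1 : W.K) ^ (j * i) • (W.map (fst X Y) a' * W.map (snd X Y) b) :=
    W.comm (W.map_mem _ hb) (W.map_mem _ ha')
  rw [mul_assoc, ← mul_assoc (W.map (snd X Y) b), h1, smul_mul_assoc, mul_smul_comm,
    map_mul (W.map (fst X Y)), map_mul (W.map (snd X Y))]
  simp only [mul_assoc]

/-- The form on external products. -/
lemma form_prod {S : Module.End W.K (W.H X)} {S' : Module.End W.K (W.H Y)}
    (hS : ∀ i j, i + j = 2 * X.dim → ∀ a ∈ W.gr X i, S a ∈ W.gr X j)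
    (hS' : ∀ i j, i + j = 2 * Y.dim → ∀ a ∈ W.gr Y i, S' a ∈ W.gr Y j)
    {i j i' j' : ℕ} (hi' : i' ≤ 2 * X.dim) (hj' : j' ≤ 2 * Y.dim) {a a' : W.H X} {b b' : W.H Y}
    (ha : a ∈ W.gr X i) (hb : b ∈ W.gr Y j) (ha' : a' ∈ W.gr X i') (hb' : b' ∈ W.gr Y j') :
    W.tr _ ((W.map (fst X Y) a * W.map (snd X Y) b) *
      extS W S S' (W.map (fst X Y) a' * W.map (snd X Y) b')) =
      W.tr X (a * S a') * W.tr Y (b * S' b') := by
  have h1 := hS i' (2 * X.dim - i') (by omega) a' ha'
  have h2 := hS' j' (2 * Y.dim - j') (by omega) b' hb'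
  rw [extS_tmul _ _ ha' hb', mul_smul_comm, tmul_mul hb h1, map_smul, map_smul, W.tr_prod,
    smul_eq_mul, smul_eq_mul]
  by_cases hi : i = i'
  · by_cases hj : j = j'
    · subst hi hj
      rw [← mul_assoc, ← pow_add]
      have : Even (i * j + j * (2 * X.dim - i)) := by
        rw [mul_comm i j, ← mul_add, show i + (2 * X.dim - i) = 2 * X.dim by omega]
        exact (even_two_mul _).mul_left _
      rw [this.neg_one_pow, one_mul]
    · rw [W.tr_eq_zero (W.mul_mem hb h2) (by omega), mul_zero, mul_zero, mul_zero]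
  · rw [W.tr_eq_zero (W.mul_mem ha h1) (by omega), zero_mul, mul_zero, mul_zero]

/-- Products of spans. -/
lemma span_tmul {s : Set (W.H X)} {s' : Set (W.H Y)} {T : Submodule W.K (W.H (X.prod Y))}
    (h : ∀ a ∈ s, ∀ b ∈ s', W.map (fst X Y) a * W.map (snd X Y) b ∈ T) {a : W.H X} {b : W.H Y}
    (ha : a ∈ Submodule.span W.K s) (hb : b ∈ Submodule.span W.K s') :
    W.map (fst X Y) a * W.map (snd X Y) b ∈ T := by
  induction ha using Submodule.span_induction with
  | mem a ha =>
    induction hb using Submodule.span_induction with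
    | mem b hb => exact h a ha b hb
    | zero => rw [map_zero, mul_zero]; exact T.zero_mem
    | add x y _ _ hx hy => rw [map_add, mul_add]; exact T.add_mem hx hy
    | smul r x _ hx => rw [map_smul, mul_smul_comm]; exact T.smul_mem _ hx
  | zero => rw [map_zero, zero_mul]; exact T.zero_mem
  | add x y _ _ hx hy => rw [map_add, add_mul]; exact T.add_mem hx hy
  | smul r x _ hx => rw [map_smul, smul_mul_assoc]; exact T.smul_mem _ hx

/-- Frames indexed by a finite type. -/
lemma exists_frame_of_fintype {Φ : W.H X →ₗ[W.K] W.H X →ₗ[W.K] W.K}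
    {V : Submodule 𝓡.R (W.H X)} {κ : Type*} [Fintype κ] (b : κ → W.H X) (d : κ → ℚ)
    (hV : V = Submodule.span 𝓡.R (Set.range b)) (ho : ∀ k, Φ (b k) (b k) = d k)
    (ho' : ∀ k l, k ≠ l → Φ (b k) (b l) = 0)
    (hd : ∀ k, 0 < d k) (hdeg : ∀ k, ∃ i ≤ 2 * X.dim, b k ∈ W.gr X i) :
    ∃ (m : ℕ) (b : Fin m → W.H X) (d : Fin m → ℚ),
      IsFrame 𝓡 Φ V b d ∧ ∀ k, ∃ i ≤ 2 * X.dim, b k ∈ W.gr X i := by
  classical
  set e := Fintype.equivFin κ with he
  refine ⟨Fintype.card κ, fun k => b (e.symm k), fun k => d (e.symm k), ⟨?_, ?_, ?_⟩, ?_⟩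
  · rw [hV]
    congr 1
    exact (e.symm.surjective.range_comp b).symm
  · intro k l
    by_cases hkl : k = l
    · subst hkl
      rw [if_pos rfl, ho]
    · rw [if_neg hkl]
      exact ho' _ _ (fun h => hkl (e.symm.injective h))
  · intro k; exact hd _
  · intro k; exact hdeg _

lemma map_prodMap (φ : X ⟶ X) (ψ : Y ⟶ Y) (a : W.H X) (b : W.H Y) :
    W.map (Obj.lift (fst X Y ≫ φ) (snd X Y ≫ ψ)) (W.map (fst X Y) a * W.map (snd X Y) b) =
      W.map (fst X Y) (W.map φ a) * W.map (snd X Y) (W.map ψ b) := by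
  rw [map_mul, ← W.map_comp, ← W.map_comp, Obj.lift_fst, Obj.lift_snd, W.map_comp, W.map_comp]

lemma map_prodMap_pow (φ : X ⟶ X) (ψ : Y ⟶ Y) (a : W.H X) (b : W.H Y) (m : ℕ) :
    ((W.map (Obj.lift (fst X Y ≫ φ) (snd X Y ≫ ψ))).toLinearMap ^ m)
      (W.map (fst X Y) a * W.map (snd X Y) b) =
      W.map (fst X Y) (((W.map φ).toLinearMap ^ m) a) *
        W.map (snd X Y) (((W.map ψ).toLinearMap ^ m) b) := by
  induction m with
  | zero => simp
  | succ m ih =>
    rw [pow_succ', Module.End.mul_apply, ih, pow_succ' (W.map φ).toLinearMap,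
      pow_succ' (W.map ψ).toLinearMap, Module.End.mul_apply, Module.End.mul_apply]
    exact map_prodMap φ ψ _ _

lemma pow_smul_of_pow {V : Type*} [AddCommGroup V] {K : Type*} [Field K] [Module K V]
    {G : Module.End K V} {a : V} {μ : K} {m : ℕ} (h : (G ^ m) a = (μ ^ m) • a) (e : ℕ) :
    (G ^ (m * e)) a = (μ ^ (m * e)) • a := by
  induction e with
  | zero => simp
  | succ e ih => rw [mul_add, mul_one, pow_add, Module.End.mul_apply, h, map_smul, ih, smul_smul,
      mul_comm, pow_add]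

namespace GoodVar

variable {q : ℕ} {D : X.Cycles} {φ : X ⟶ X} {f S : Module.End W.K (W.H X)}
  {V : Submodule 𝓡.R (W.H X)} {M : Multiset 𝓛.Lab → ℕ → W.H X → Prop}
  (h : GoodVar 𝓛 q X D φ f S V M)
  {E : Y.Cycles} {ψ : Y ⟶ Y} {f' S' : Module.End W.K (W.H Y)}
  {V' : Submodule 𝓡.R (W.H Y)} {M' : Multiset 𝓛.Lab → ℕ → W.H Y → Prop}
  (h' : GoodVar 𝓛 q Y E ψ f' S' V' M')

include h

lemma hom_span : V ≤ Submodule.span 𝓡.R {x | x ∈ V ∧ ∃ i ≤ 2 * X.dim, x ∈ W.gr X i} := by
  obtain ⟨m, b, d, hb, hdeg⟩ := h.frame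
  have h1 : ∀ k, b k ∈ V := by
    intro k
    rw [hb.span]
    exact Submodule.subset_span ⟨k, rfl⟩
  conv_lhs => rw [hb.span]
  rw [Submodule.span_le]
  rintro _ ⟨k, rfl⟩
  exact Submodule.subset_span ⟨h1 k, hdeg k⟩

include h'

lemma prod_mul : ∀ a ∈ prodV V V', ∀ b ∈ prodV V V', a * b ∈ prodV V V' := by
  intro a ha b hb
  have key : ∀ b ∈ prodV V V', ∀ x ∈ {x | x ∈ V ∧ ∃ i ≤ 2 * X.dim, x ∈ W.gr X i},
      ∀ y ∈ {x | x ∈ V' ∧ ∃ i ≤ 2 * Y.dim, x ∈ W.gr Y i},
      (W.map (fst X Y) x * W.map (snd X Y) y) * b ∈ prodV V V' := by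
    intro b hb x hx y hy
    have hsub : prodV V V' ≤ (prodV V V').comap
        ((LinearMap.mulLeft W.K (W.map (fst X Y) x * W.map (snd X Y) y)).restrictScalars 𝓡.R) := by
      apply prodV_induction h.hom_span h'.hom_span
      intro x' hx' y' hy'
      obtain ⟨i, -, hxi⟩ := hx'.2
      obtain ⟨j, -, hyj⟩ := hy.2
      change (W.map (fst X Y) x * W.map (snd X Y) y) *
        (W.map (fst X Y) x' * W.map (snd X Y) y') ∈ prodV V V'
      rw [tmul_mul hyj hxi]
      exact sign_smul_mem _ (prodV_mem (h.mul_mem _ hx.1 _ hx'.1) (h'.mul_mem _ hy.1 _ hy'.1))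
    exact hsub hb
  have hsub : prodV V V' ≤ (prodV V V').comap
      ((LinearMap.mulRight W.K b).restrictScalars 𝓡.R) := by
    apply prodV_induction h.hom_span h'.hom_span
    intro x hx y hy
    exact key b hb x hx y hy
  exact hsub ha

lemma prod_S : ∀ a ∈ prodV V V', extS W S S' a ∈ prodV V V' := by
  intro a ha
  have hsub : prodV V V' ≤ (prodV V V').comap ((extS W S S').restrictScalars 𝓡.R) := by
    apply prodV_induction h.hom_span h'.hom_span
    intro x hx y hy
    obtain ⟨i, -, hxi⟩ := hx.2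
    obtain ⟨j, -, hyj⟩ := hy.2
    change extS W S S' (W.map (fst X Y) x * W.map (snd X Y) y) ∈ prodV V V'
    rw [extS_tmul S S' hxi hyj]
    exact sign_smul_mem _ (prodV_mem (h.S_mem _ hx.1) (h'.S_mem _ hy.1))
  exact hsub ha

lemma prod_frame : ∃ (m : ℕ) (b : Fin m → W.H (X.prod Y)) (d : Fin m → ℚ),
    IsFrame 𝓡 ((bil W (X.prod Y)).compl₂ (extS W S S')) (prodV V V') b d ∧
      ∀ k, ∃ i ≤ 2 * (X.prod Y).dim, b k ∈ W.gr (X.prod Y) i := by
  obtain ⟨m, b, d, hb, hbd⟩ := h.frame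
  obtain ⟨m', b', d', hb', hbd'⟩ := h'.frame
  choose i hi hbi using hbd
  choose j hj hbj using hbd'
  have hval : ∀ (k l : Fin m × Fin m'), (bil W (X.prod Y)).compl₂ (extS W S S')
      (W.map (fst X Y) (b k.1) * W.map (snd X Y) (b' k.2))
      (W.map (fst X Y) (b l.1) * W.map (snd X Y) (b' l.2)) =
      (if k.1 = l.1 then (d k.1 : W.K) else 0) * (if k.2 = l.2 then (d' k.2 : W.K) else 0) := by
    intro k l
    rw [LinearMap.compl₂_apply, bil_apply, form_prod h.S_deg h'.S_deg (hi l.1) (hj l.2)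
      (hbi k.1) (hbj k.2) (hbi l.1) (hbj l.2)]
    rw [← hb.orth, ← hb'.orth]
    rfl
  refine exists_frame_of_fintype (κ := Fin m × Fin m')
    (fun k => W.map (fst X Y) (b k.1) * W.map (snd X Y) (b' k.2))
    (fun k => d k.1 * d' k.2) ?_ ?_ ?_ ?_ ?_
  · apply le_antisymm
    · apply prodV_induction (hb.span.le) (hb'.span.le)
      rintro _ ⟨k, rfl⟩ _ ⟨l, rfl⟩
      exact Submodule.subset_span ⟨(k, l), rfl⟩
    · rw [Submodule.span_le]
      rintro _ ⟨⟨k, l⟩, rfl⟩
      apply prodV_mem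
      · rw [hb.span]; exact Submodule.subset_span ⟨k, rfl⟩
      · rw [hb'.span]; exact Submodule.subset_span ⟨l, rfl⟩
  · intro k
    rw [hval, if_pos rfl, if_pos rfl]
    push_cast; rfl
  · intro k l hkl
    rw [hval]
    by_cases h1 : k.1 = l.1
    · by_cases h2 : k.2 = l.2
      · exact absurd (Prod.ext h1 h2) hkl
      · rw [if_neg h2, mul_zero]
    · rw [if_neg h1, zero_mul]
  · intro k; exact mul_pos (hb.pos _) (hb'.pos _)
  · intro k
    refine ⟨i k.1 + j k.2, ?_, W.mul_mem (W.map_mem _ (hbi _)) (W.map_mem _ (hbj _))⟩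
    have := hi k.1
    have := hj k.2
    rw [dim_prod]
    omega

omit h' in
lemma fst_mem {x : W.H X} (hx : x ∈ V) (h1 : (1 : W.H Y) ∈ V') :
    W.map (fst X Y) x ∈ prodV V V' := by
  have := prodV_mem (V := V) (V' := V') hx h1
  rwa [map_one, mul_one] at this

omit h in
lemma snd_mem {y : W.H Y} (hy : y ∈ V') (h1 : (1 : W.H X) ∈ V) :
    W.map (snd X Y) y ∈ prodV V V' := by
  have := prodV_mem (V := V) (V' := V') h1 hy
  rwa [map_one, one_mul] at this

/-- **The product of two good varieties.** -/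
theorem prod : GoodVar 𝓛 q (X.prod Y) (ops.pull (fst X Y) D + ops.pull (snd X Y) E)
    (Obj.lift (fst X Y ≫ φ) (snd X Y ≫ ψ)) (extSum W f f') (extS W S S') (prodV V V')
    (prodM M M') where
  hD := (ops.pull_mem _ h.hD).add (ops.pull_mem _ h'.hD)
  sl2 := by
    rw [wt_prod, mulLeft_prod h'.hD]
    exact sl2_prod h.sl2 h'.sl2
  S_deg := by
    intro i j hij a ha
    rw [dim_prod] at hij
    -- projection onto the homogeneous components
    have key : ∀ c : W.H (X.prod Y), extS W S S' (proj (W.isInternal (X.prod Y)) i c) ∈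
        W.gr (X.prod Y) j := by
      intro c
      refine W.kunneth_induction (p := fun c => extS W S S'
        (proj (W.isInternal (X.prod Y)) i c) ∈ W.gr (X.prod Y) j) ?_ ?_ c
      · intro x y hx hy
        rw [map_add, map_add]
        exact Submodule.add_mem _ hx hy
      · intro i' j' x hx y hy
        have hxy := W.mul_mem (W.map_mem (fst X Y) hx) (W.map_mem (snd X Y) hy)
        by_cases hi' : i' + j' = i
        · rw [hi'] at hxy
          rw [proj_same _ hxy, extS_tmul _ _ hx hy]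
          apply Submodule.smul_mem
          by_cases hx2 : i' ≤ 2 * X.dim
          · by_cases hy2 : j' ≤ 2 * Y.dim
            · have h1 := h.S_deg i' (2 * X.dim - i') (by omega) x hx
              have h2 := h'.S_deg j' (2 * Y.dim - j') (by omega) y hy
              have h3 := W.mul_mem (W.map_mem (fst X Y) h1) (W.map_mem (snd X Y) h2)
              rwa [show 2 * X.dim - i' + (2 * Y.dim - j') = j by omega] at h3
            · rw [W.gr_eq_bot Y j' (by omega)] at hy
              rw [(Submodule.mem_bot _).1 hy, map_zero, map_zero, mul_zero]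
              exact Submodule.zero_mem _
          · rw [W.gr_eq_bot X i' (by omega)] at hx
            rw [(Submodule.mem_bot _).1 hx, map_zero, map_zero, zero_mul]
            exact Submodule.zero_mem _
        · rw [proj_ne _ hxy hi', map_zero]
          exact Submodule.zero_mem _
    have := key a
    rwa [proj_same _ ha] at this
  frame := h.prod_frame h'
  S_mem := h.prod_S h'
  one_mem := by
    have := fst_mem (V' := V') h h.one_mem h'.one_mem
    rwa [map_one] at this
  mul_mem := h.prod_mul h'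
  span_M := by
    intro c
    refine W.kunneth_induction (p := fun c => c ∈ Submodule.span W.K
      {a | ∃ s d, prodM M M' s d a}) ?_ ?_ c
    · intro a b ha hb; exact Submodule.add_mem _ ha hb
    · intro i j a _ b _
      apply span_tmul _ (h.span_M a) (h'.span_M b)
      rintro a ⟨s, d, ha⟩ b ⟨s', d', hb⟩
      exact Submodule.subset_span ⟨s + s', d + d', s, s', d, d', a, b, ha, hb, rfl, rfl, rfl⟩
  M_deg := by
    rintro s d c ⟨s₁, s₂, d₁, d₂, a, b, ha, hb, rfl, rfl, rfl⟩
    rw [LabelData.wdeg_add, show 2 * (d₁ + d₂) + (𝓛.wdeg s₁ + 𝓛.wdeg s₂) =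
      (2 * d₁ + 𝓛.wdeg s₁) + (2 * d₂ + 𝓛.wdeg s₂) by ring]
    exact W.mul_mem (W.map_mem _ (h.M_deg ha)) (W.map_mem _ (h'.M_deg hb))
  M_F := by
    rintro s d c ⟨s₁, s₂, d₁, d₂, a, b, ha, hb, rfl, rfl, rfl⟩
    obtain ⟨m, hm, h1⟩ := h.M_F ha
    obtain ⟨m', hm', h2⟩ := h'.M_F hb
    refine ⟨m * m', Nat.mul_pos hm hm', ?_⟩
    have h3 := pow_smul_of_pow h1 m'
    have h4 := pow_smul_of_pow h2 m
    rw [mul_comm m' m] at h4
    rw [map_prodMap_pow, h3, h4, map_smul, map_smul, smul_mul_assoc, mul_smul_comm, smul_smul,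
      LabelData.alp_add]
    congr 1
    rw [← mul_pow]
    congr 1
    rw [pow_add]
    ring
  M_S := by
    rintro s d c ⟨s₁, s₂, d₁, d₂, a, b, ha, hb, rfl, rfl, rfl⟩
    rw [extS_tmul _ _ (h.M_deg ha) (h'.M_deg hb)]
    apply Submodule.smul_mem
    apply span_tmul _ (h.M_S ha) (h'.M_S hb)
    rintro a ⟨d, ha⟩ b ⟨d', hb⟩
    exact Submodule.subset_span ⟨d + d', s₁, s₂, d, d', a, b, ha, hb, rfl, rfl, rfl⟩
  M_w := by
    rintro s d c ⟨s₁, s₂, d₁, d₂, a, b, ha, hb, rfl, rfl, rfl⟩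
    rw [extS_tmul _ _ (h.M_deg ha) (h'.M_deg hb), mulLeft_prod h'.hD,
      wey_prod h.sl2.nil_e h.sl2.nil_f h'.sl2.nil_e h'.sl2.nil_f, extOp_tmul, h.M_w ha,
      h'.M_w hb, map_smul, map_smul, smul_mul_assoc, mul_smul_comm, smul_smul, smul_smul,
      LabelData.gmp_add, LabelData.wdeg_add]
    congr 1
    set i := 2 * d₁ + 𝓛.wdeg s₁ with hi
    set j := 2 * d₂ + 𝓛.wdeg s₂ with hj
    rw [show 2 * (d₁ + d₂) + (𝓛.wdeg s₁ + 𝓛.wdeg s₂) = i + j by omega]
    rw [choose_two_add i j, pow_add, pow_add]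
    ring
  M_list := by
    rintro s d c ⟨s₁, s₂, d₁, d₂, a, b, ha, hb, rfl, rfl, rfl⟩
    obtain ⟨u, l, hu, hud, hl, rfl, rfl⟩ := h.M_list ha
    obtain ⟨u', l', hu', hud', hl', rfl, rfl⟩ := h'.M_list hb
    have hprod : ∀ {X Y : 𝒱.Obj} (g : Y ⟶ X) (l : List (Coord 𝓛 X)),
        W.map g (l.map Coord.ev).prod = ((l.map (Coord.comp g)).map Coord.ev).prod := by
      intro X Y g l
      rw [map_list_prod, List.map_map, List.map_map]
      congr 1
      apply List.map_congr_left
      intro c _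
      exact (Coord.comp_ev g c).symm
    refine ⟨W.map (fst X Y) u * W.map (snd X Y) u',
      l.map (Coord.comp (fst X Y)) ++ l'.map (Coord.comp (snd X Y)), ?_, ?_, ?_, ?_, ?_⟩
    · apply span_tmul _ hu hu'
      intro x hx y hy
      apply Submodule.subset_span
      refine ⟨prodV_mem hx.1 hy.1, algR_mul (algR_map _ hx.2) (algR_map _ hy.2)⟩
    · rw [mul_add]
      exact W.mul_mem (W.map_mem _ hud) (W.map_mem _ hud')
    · intro c hc
      rw [List.mem_append, List.mem_map, List.mem_map] at hc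
      rcases hc with ⟨c, hc, rfl⟩ | ⟨c, hc, rfl⟩
      · intro y hy
        change W.map (fst X Y ≫ c.g) y ∈ prodV V V'
        rw [W.map_comp]
        exact h.fst_mem (hl c hc y hy) h'.one_mem
      · intro y hy
        change W.map (snd X Y ≫ c.g) y ∈ prodV V V'
        rw [W.map_comp]
        exact h'.snd_mem (hl' c hc y hy) h.one_mem
    · rw [List.map_append, List.map_map, List.map_map, ← Multiset.coe_add]
      rfl
    · rw [List.map_append, List.prod_append, ← hprod, ← hprod, map_mul (W.map (fst X Y)),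
        map_mul (W.map (snd X Y)), mul_assoc, ← mul_assoc (W.map (fst X Y) (l.map _).prod),
        ← W.even_comm (W.map_mem (snd X Y) hud') (W.map (fst X Y) (l.map _).prod)]
      simp only [mul_assoc]

end GoodVar

end Pool.Agent.H914
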