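import Pool.Agent.H88.L.H914R2.CorrDefs
import Pool.Agent.H88.L.H914R2.LefDefs

/-!
# The standard conjectures B and C: definitions
-/

open CategoryTheory AlgebraicGeometry

universe u v

namespace Pool.Agent.H914

open VarClass Obj WeilCohomology

variable {k : Type u} [Field k] {𝒱 : VarClass k} {ops : CycleOps 𝒱}

/-- Hard Lefschetz for the cup product with the class `ξ` of the divisor `D` on `X`: for all
`i ≤ n = dim X`, the map `ξ ^ (n - i) : H^i(X) → H^(2n - i)(X)` is bijective. -/
def HardLefschetz (W : WeilCohomology.{u, v} ops) (X : 𝒱.Obj) (D : X.Cycles) : Prop :=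
  HardLef (W.gr X) X.dim (LinearMap.mulLeft W.K (W.cl X D))

/-- The algebraic correspondence `Z` induces the operator `Λ` attached to the divisor `D`: it
sends `ξ ^ j x` to `ξ ^ (j - 1) x` (and to `0` if `j = 0`) for `x` primitive of degree `i ≤ n` and
`j ≤ n - i`. -/
def InducesLambda (W : WeilCohomology.{u, v} ops) (X : 𝒱.Obj) (D : X.Cycles)
    (Z : (X.prod X).Cycles) : Prop :=
  IsLam (W.gr X) X.dim (LinearMap.mulLeft W.K (W.cl X D)) (W.corr (W.cl (X.prod X) Z))

/-- The `i`-th Betti number. -/
noncomputable def WeilCohomology.betti (W : WeilCohomology.{u, v} ops) (X : 𝒱.Obj) (i : ℕ) : ℕ :=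
  Module.finrank W.K (W.gr X i)

/-- The algebraic correspondence `P` induces the `i`-th Kunneth projector: it acts as the identity
on `H^i(X)` and as zero on `H^j(X)` for `j ≠ i`. -/
def InducesProjector (W : WeilCohomology.{u, v} ops) (X : 𝒱.Obj) (i : ℕ)
    (P : (X.prod X).Cycles) : Prop :=
  IsProjector (W.gr X) i (W.corr (W.cl (X.prod X) P))

/-- The `i`-th Betti number of `X`. -/
noncomputable def bettiNumber (W : WeilCohomology.{u, v} ops) (X : 𝒱.Obj) (i : ℕ) : ℕ :=
  Module.finrank W.K (W.gr X i)

/-- The weight operator of `X`, acting as `j - n` on `H^j(X)` where `n = dim X`, is a finite sum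
of commutators `[u, v] = u v - v u` of homogeneous algebraic correspondences of opposite degrees
(cycles `u`, `v` on `X × X` of codimensions `p`, `q` with `p + q = 2n`). -/
def WeightIsCommutatorSum (W : WeilCohomology.{u, v} ops) (X : 𝒱.Obj) : Prop :=
  ∃ (r : ℕ) (p q : Fin r → ℕ) (z w : Fin r → (X.prod X).Cycles),
    (∀ i, p i + q i = 2 * X.dim ∧ (X.prod X).IsCyc (p i) (z i) ∧
      (X.prod X).IsCyc (q i) (w i)) ∧
    IsWeightSum (W.gr X) X.dim (fun i => W.corr (W.cl (X.prod X) (z i)))
      (fun i => W.corr (W.cl (X.prod X) (w i)))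

end Pool.Agent.H914
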