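import Pool.Agent.H88.L.H914R2.TCore

/-!
# Positivity on the part with simple spectrum: the rational structure
-/

open Finset Polynomial

namespace Pool.Agent.H914

variable {K : Type*} [Field K] [CharZero K] {V : Type*} [AddCommGroup V] [Module K V]
  [Module.Finite K V] {h e f G G' T T' w ε : Module.End K V} (t : Sl2 h e f)
  {q : ℕ} (hq : 0 < q) (hGe : G * e = (q : K) • (e * G)) (hfG : f * G = (q : K) • (G * f))
  {ι : Type*} [Finite ι] {b : Module.Basis ι K V} {lam : ι → K}
  (hG : ∀ i, G (b i) = lam i • b i) (hinj : Function.Injective lam)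
  {n r : ℕ}
  {E : Type*} [Field E] [CharZero E] (j : E →+* K) (σ : E →+* ℂ) {lam' : ι → E}
  (hj : ∀ i, j (lam' i) = lam i)
  (hε : ∀ i, ∃ d : ℕ, h (b i) = ((d : K) - n) • b i ∧ ε (b i) = (-1 : K) ^ d • b i ∧
    ‖σ (lam' i)‖ ^ 2 = (q : ℝ) ^ d)

omit [Module.Finite K V] in
lemma map_eval_rat {E F : Type*} [Field E] [CharZero E] [Field F] [CharZero F] (j : E →+* F)
    (g : ℚ[X]) (x : E) : j ((g.map (algebraMap ℚ E)).eval x) =
      (g.map (algebraMap ℚ F)).eval (j x) := by
  rw [Polynomial.eval_map, Polynomial.hom_eval₂, Polynomial.eval_map]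
  congr 1
  exact Subsingleton.elim _ _

omit [Module.Finite K V] in
lemma conj_eval_rat (g : ℚ[X]) (x : ℂ) : (starRingEnd ℂ) ((g.map (algebraMap ℚ ℂ)).eval x) =
    (g.map (algebraMap ℚ ℂ)).eval ((starRingEnd ℂ) x) := map_eval_rat _ g x

include t hq hGe hfG hG hinj hj hε

/-- **Positivity on the part with simple spectrum.** -/
theorem tpos (hw1 : w * e = -(f * w))
    (hw3 : ∀ (m : ℕ) (v : V), f v = 0 → h v = -(m : K) • v →
      w v = ((m.factorial : K)⁻¹) • (e ^ m) v)
    (hhT : h * T - T * h = -((2 * r : ℕ) : K) • T) (hTG : T * G = (q : K) ^ r • (G * T))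
    (hhT' : h * T' - T' * h = -((2 * r : ℕ) : K) • T') (hTG' : T' * G = (q : K) ^ r • (G * T'))
    (hGG : G' * G = ((q : K) ^ n) • 1) {g : ℚ[X]}
    (hu : e ^ r * T = aeval G (g.map (algebraMap ℚ K)))
    (hu' : T' * e ^ r = aeval G' (g.map (algebraMap ℚ K))) :
    ∃ τ : ι → E, (∀ i, ((-1 : K) ^ (n + r) • (ε * (w * T * w) * T')) (b i) = j (τ i) • b i) ∧
      (∀ i, ∃ x : ℝ, 0 ≤ x ∧ σ (τ i) = x) ∧ ((∀ i, τ i = 0) → T = 0) := by
  have hq0 : (q : K) ≠ 0 := by exact_mod_cast hq.ne'
  have hqE : (q : E) ≠ 0 := by exact_mod_cast hq.ne'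
  have hqC : (q : ℂ) ≠ 0 := by exact_mod_cast hq.ne'
  have hQ : (q : K) ^ n ≠ 0 := pow_ne_zero _ hq0
  have hε' : ∀ i, ∃ d : ℕ, h (b i) = ((d : K) - n) • b i ∧ ε (b i) = (-1 : K) ^ d • b i :=
    fun i => by obtain ⟨d, h1, h2, -⟩ := hε i; exact ⟨d, h1, h2⟩
  -- the strings
  have hstr : ∀ i, ∃ (m c : ℕ) (v : V) (α : E), IsStr h f G m (j α) v ∧ c ≤ m ∧
      b i = (e ^ c) v ∧ m ≤ n + 2 * c ∧ σ α * (starRingEnd ℂ) (σ α) * (q : ℂ) ^ m = (q : ℂ) ^ n := by
    intro i
    obtain ⟨d, hd, -, hσ⟩ := hε i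
    obtain ⟨m, c, v, hv, hc, hbv, hdm⟩ := exists_string t hq0 hGe hfG hG hinj i
      (d := (d : ℤ) - n) (by rw [hd]; push_cast; rfl)
    refine ⟨m, c, v, ((q : E) ^ c)⁻¹ * lam' i, ?_, hc, hbv, by omega, ?_⟩
    · have : j (((q : E) ^ c)⁻¹ * lam' i) = ((q : K) ^ c)⁻¹ * lam i := by
        rw [map_mul, map_inv₀, map_pow, map_natCast, hj]
      rw [this]; exact hv
    · have h1 : σ (lam' i) * (starRingEnd ℂ) (σ (lam' i)) = (q : ℂ) ^ d := by
        rw [Complex.mul_conj, Complex.normSq_eq_norm_sq, hσ]; push_cast; rfl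
      have h2 : σ (((q : E) ^ c)⁻¹ * lam' i) = ((q : ℂ) ^ c)⁻¹ * σ (lam' i) := by
        rw [map_mul, map_inv₀, map_pow, map_natCast]
      rw [h2, map_mul, map_inv₀, map_pow, Complex.conj_natCast]
      have h3 : (q : ℂ) ^ d * (q : ℂ) ^ m = (q : ℂ) ^ n * ((q : ℂ) ^ c * (q : ℂ) ^ c) := by
        rw [← pow_add, ← pow_add, ← pow_add]; congr 1; omega
      have h4 : (q : ℂ) ^ c ≠ 0 := pow_ne_zero _ hqC
      field_simp
      linear_combination ((q : ℂ) ^ m) * h1 + h3
  -- the eigenvalue on a string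
  have hval : ∀ (m c : ℕ) (v : V) (α : E), IsStr h f G m (j α) v → c ≤ m → m ≤ n + 2 * c →
      σ α * (starRingEnd ℂ) (σ α) * (q : ℂ) ^ m = (q : ℂ) ^ n →
      ∃ τ : E, ((-1 : K) ^ (n + r) • (ε * (w * T * w) * T')) ((e ^ c) v) = j τ • (e ^ c) v ∧
        (∃ x : ℝ, 0 ≤ x ∧ σ τ = x) ∧
        (r ≤ c → (g.map (algebraMap ℚ K)).eval ((q : K) ^ (m - c + r) * j α) ≠ 0 → τ ≠ 0) := by
    intro m c v α hv hc hmc hα
    by_cases hrc : r ≤ c
    · set A : E := (g.map (algebraMap ℚ E)).eval ((q : E) ^ n / ((q : E) ^ (c - r) * α)) with hA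
      set B : E := (g.map (algebraMap ℚ E)).eval ((q : E) ^ (m - c + r) * α) with hB
      set C : ℚ := (((c - r).factorial * (m - c).factorial : ℕ) : ℚ) *
        (((m - c + r).factorial * c.factorial : ℕ) : ℚ)⁻¹ with hC
      have hCpos : 0 < C := by positivity
      have hσC : σ (C : E) = (C : ℂ) := by rw [map_ratCast]
      have hα0 : σ α ≠ 0 := by
        intro h0
        rw [h0, zero_mul, zero_mul] at hα
        exact (pow_ne_zero n hqC) hα.symm
      have hAB : σ A = (starRingEnd ℂ) (σ B) := by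
        rw [hA, hB, map_eval_rat, map_eval_rat, conj_eval_rat]
        congr 1
        rw [map_div₀, map_mul, map_mul, map_pow, map_pow, map_pow, map_natCast, map_mul, map_pow,
          Complex.conj_natCast]
        have h4 : (q : ℂ) ^ (c - r) ≠ 0 := pow_ne_zero _ hqC
        rw [div_eq_iff (mul_ne_zero h4 hα0), ← hα]
        have h5 : (q : ℂ) ^ m = (q : ℂ) ^ (m - c + r) * (q : ℂ) ^ (c - r) := by
          rw [← pow_add]; congr 1; omega
        rw [h5]; ring
      refine ⟨(C : E) * (A * B), ?_, ?_, ?_⟩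
      · rw [Z_str t hq0 hGe hG hinj hε' hw1 hw3 hTG hGG hQ hu hu' hv hrc hc]
        congr 1
        rw [map_mul, map_mul, hA, hB, map_eval_rat, map_eval_rat, map_ratCast, hC]
        rw [map_div₀, map_mul, map_mul, map_pow, map_pow, map_pow, map_natCast]
        push_cast
        rfl
      · refine ⟨(C : ℝ) * Complex.normSq (σ B), ?_, ?_⟩
        · exact mul_nonneg (by exact_mod_cast hCpos.le) (Complex.normSq_nonneg _)
        · rw [map_mul, map_mul, hσC, hAB, mul_comm ((starRingEnd ℂ) (σ B)), Complex.mul_conj]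
          push_cast; rfl
      · intro _ hne
        have hB0 : B ≠ 0 := by
          intro h0
          apply hne
          have h1 := congrArg j h0
          rw [hB, map_eval_rat, map_zero, map_mul, map_pow, map_natCast] at h1
          exact h1
        have hA0 : A ≠ 0 := by
          intro h0
          rw [h0, map_zero] at hAB
          have h1 : σ B = 0 := by
            have := congrArg (starRingEnd ℂ) hAB
            rw [map_zero, Complex.conj_conj] at this
            exact this.symm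
          exact hB0 ((map_eq_zero σ).1 h1)
        exact mul_ne_zero (by exact_mod_cast hCpos.ne') (mul_ne_zero hA0 hB0)
    · refine ⟨0, ?_, ⟨0, le_rfl, by simp⟩, fun h0 => absurd h0 hrc⟩
      rw [map_zero, zero_smul, LinearMap.smul_apply, Module.End.mul_apply,
        T_low t hq0 hGe hG hinj hhT' hTG' hv (by omega), map_zero, smul_zero]
  choose M c v α hv hc hbv hmc hα using hstr
  choose τ h1 h2 h3 using fun i => hval (M i) (c i) (v i) (α i) (hv i) (hc i) (hmc i) (hα i)
  refine ⟨τ, fun i => by rw [hbv i]; exact h1 i, h2, ?_⟩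
  intro hτ
  apply b.ext
  intro i
  rw [LinearMap.zero_apply, hbv i]
  by_cases hrc : c i < r
  · exact T_low t hq0 hGe hG hinj hhT hTG (hv i) hrc
  · push Not at hrc
    rw [T_high t hq0 hGe hG hinj hTG hu (hv i) hrc (hc i)]
    by_contra hne
    have hg0 : (g.map (algebraMap ℚ K)).eval ((q : K) ^ (c i) * j (α i)) ≠ 0 := by
      intro h0; apply hne; rw [h0, zero_smul]
    -- the mirror element of the string
    set c' := M i - c i + r with hc'
    have hc'm : c' ≤ M i := by have := hc i; omega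
    obtain ⟨τ', hτ1, -, hτ3⟩ := hval (M i) c' (v i) (α i) (hv i) hc'm
      (by
        have hle : M i ≤ n + 2 * c i := hmc i
        by_contra hlt
        push Not at hlt
        -- weights: the degree of `e ^ c v` is nonnegative for every `c ≤ m`
        have hne2 : (e ^ c') (v i) ≠ 0 :=
          Sl2.e_pow_ne t (hv i).low (hv i).wt (hv i).ne hc'm
        obtain ⟨i2, hi2, κ, hκ, hvi⟩ := eig_exists hG hinj hne2 (G_e_pow hGe (hv i).eig c')
        obtain ⟨d, hd, -, -⟩ := hε i2
        have h4 : h ((e ^ c') (v i)) = (2 * c' - (M i : K)) • (e ^ c') (v i) :=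
          Sl2.h_e_pow t (hv i).wt c'
        have h5 : h ((e ^ c') (v i)) = ((d : K) - n) • (e ^ c') (v i) := by
          rw [hvi, map_smul, hd, smul_comm]
        have h6 := smul_left_injective K hne2 (h4.symm.trans h5)
        have h7 : ((2 * c' + n : ℕ) : K) = ((d + M i : ℕ) : K) := by
          push_cast; linear_combination h6
        have h8 : 2 * c' + n = d + M i := by exact_mod_cast h7
        omega) (hα i)
    have hne2 : (e ^ c') (v i) ≠ 0 := Sl2.e_pow_ne t (hv i).low (hv i).wt (hv i).ne hc'm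
    obtain ⟨i2, hi2, κ, hκ, hvi⟩ := eig_exists hG hinj hne2 (G_e_pow hGe (hv i).eig c')
    have h4 : τ' ≠ 0 := by
      apply hτ3 (by omega)
      rw [show M i - c' + r = c i by have := hc i; omega]
      exact hg0
    apply h4
    have h5 := h1 i2
    rw [← hbv i2, hτ i2, map_zero, zero_smul] at h5
    rw [hvi, map_smul, h5, smul_zero, smul_smul] at hτ1
    have h6 : j τ' * κ = 0 := by
      rcases smul_eq_zero.1 hτ1.symm with h7 | h7
      · exact h7
      · exact absurd h7 (b.ne_zero i2)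
    rcases mul_eq_zero.1 h6 with h7 | h7
    · exact (map_eq_zero j).1 h7
    · exact absurd h7 hκ

end Pool.Agent.H914
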