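import Pool.Agent.H88.L.H914R2.Weil0

/-!
# Weil cohomology theories: the properties
-/

open CategoryTheory AlgebraicGeometry

universe u v

namespace Pool.Agent.H914

variable {k : Type u} [Field k]

open VarClass

namespace WeilCohomology

variable {𝒱 : VarClass k} {ops : CycleOps 𝒱} (W : WeilCohomology.{u, v} ops)

lemma isInternal (X) : DirectSum.IsInternal (W.gr X) := (W.isPoincareAlgebra X).isInternal
lemma one_mem (X) : (1 : W.H X) ∈ W.gr X 0 := (W.isPoincareAlgebra X).one_mem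
lemma mul_mem {X} {i j : ℕ} {a b : W.H X} (ha : a ∈ W.gr X i) (hb : b ∈ W.gr X j) :
    a * b ∈ W.gr X (i + j) := (W.isPoincareAlgebra X).mul_mem ha hb
lemma comm {X} {i j : ℕ} {a b : W.H X} (ha : a ∈ W.gr X i) (hb : b ∈ W.gr X j) :
    a * b = (-1 : W.K) ^ (i * j) • (b * a) := (W.isPoincareAlgebra X).comm ha hb
lemma gr_zero (X) : W.gr X 0 = Submodule.span W.K {1} := (W.isPoincareAlgebra X).gr_zero
lemma gr_eq_bot (X) (i) (h : 2 * X.dim < i) : W.gr X i = ⊥ :=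
  (W.isPoincareAlgebra X).gr_eq_bot i h
lemma map_mem {X Y : 𝒱.Obj} (f : X ⟶ Y) {i : ℕ} {a : W.H Y} (ha : a ∈ W.gr Y i) :
    W.map f a ∈ W.gr X i := (W.isFunctorial.isPullPush f).map_mem ha
lemma map_id (X : 𝒱.Obj) (a : W.H X) : W.map (𝟙 X) a = a := by
  rw [W.isFunctorial.map_id]; rfl
lemma map_comp {X Y Z : 𝒱.Obj} (f : X ⟶ Y) (g : Y ⟶ Z) (a : W.H Z) :
    W.map (f ≫ g) a = W.map f (W.map g a) := by
  rw [W.isFunctorial.map_comp]; rfl
lemma tr_eq_zero {X} {i : ℕ} {a : W.H X} (ha : a ∈ W.gr X i) (hi : i ≠ 2 * X.dim) :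
    W.tr X a = 0 := (W.isPoincareAlgebra X).tr_eq_zero ha hi
lemma nondeg {X} (a : W.H X) (h : ∀ b, W.tr X (a * b) = 0) : a = 0 :=
  (W.isPoincareAlgebra X).nondeg a h
lemma tr_push {X Y : 𝒱.Obj} (f : X ⟶ Y) (a : W.H X) (b : W.H Y) :
    W.tr Y (W.push f a * b) = W.tr X (a * W.map f b) :=
  (W.isFunctorial.isPullPush f).tr_push a b
lemma kunneth (X Y : 𝒱.Obj) :
    Function.Bijective (kunnethMap (W.map (Obj.fst X Y)) (W.map (Obj.snd X Y))) :=
  (W.isKunneth X Y).bijective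
lemma tr_prod {X Y : 𝒱.Obj} (a : W.H X) (b : W.H Y) :
    W.tr (X.prod Y) (W.map (Obj.fst X Y) a * W.map (Obj.snd X Y) b) = W.tr X a * W.tr Y b :=
  (W.isKunneth X Y).tr_prod a b
lemma cl_mem {X : 𝒱.Obj} {p : ℕ} {z : X.Cycles} (hz : X.IsCyc p z) :
    W.cl X z ∈ W.gr X (2 * p) := (W.isCycleMap X).cl_mem hz
lemma cl_fund (X : 𝒱.Obj) : W.cl X X.V.fundCycle = 1 := (W.isCycleMap X).cl_fund
lemma tr_cl {X : 𝒱.Obj} {z : X.Cycles} (hz : X.IsCyc X.dim z) :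
    W.tr X (W.cl X z) = (X.V.degCycle z : W.K) := (W.isCycleMap X).tr_cl hz
lemma cl_mul {X : 𝒱.Obj} (z w : X.Cycles) : W.cl X (ops.mul z w) = W.cl X z * W.cl X w :=
  W.isCompatible.cl_mul z w
lemma cl_pull {X Y : 𝒱.Obj} (f : X ⟶ Y) (z : Y.Cycles) :
    W.cl X (ops.pull f z) = W.map f (W.cl Y z) := W.isCompatible.cl_pull f z
lemma cl_push {X Y : 𝒱.Obj} (f : X ⟶ Y) (z : X.Cycles) :
    W.cl Y (ops.push f z) = W.push f (W.cl X z) := W.isCompatible.cl_push f z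

end WeilCohomology

end Pool.Agent.H914
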