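import Pool.Agent.H88.L.H914R2.Var

/-!
# Weil cohomology theories
-/

open CategoryTheory AlgebraicGeometry

universe u v

namespace Pool.Agent.H914

/-- A class of smooth proper varieties over `k` which is closed under products, for example the
class of all smooth projective varieties over `k`. -/
structure VarClass (k : Type u) [Field k] where
  /-- membership in the class -/
  mem : SmVar k → Prop
  prod_mem : ∀ {X Y : SmVar k}, mem X → mem Y → mem (X.prod Y)

namespace VarClass

variable {k : Type u} [Field k]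

/-- The varieties in the class `𝒱`. -/
structure Obj (𝒱 : VarClass k) where
  /-- the underlying variety -/
  V : SmVar k
  mem : 𝒱.mem V

variable {𝒱 : VarClass k}

instance : Category 𝒱.Obj where
  Hom X Y := X.V ⟶ Y.V
  id X := 𝟙 X.V
  comp f g := SmVar.Hom.mk (f.hom ≫ g.hom) (by rw [Category.assoc, g.w, f.w])

namespace Obj

/-- The dimension of a variety in the class. -/
abbrev dim (X : 𝒱.Obj) : ℕ := X.V.dim

/-- The product of two varieties in the class. -/
noncomputable def prod (X Y : 𝒱.Obj) : 𝒱.Obj := ⟨X.V.prod Y.V, 𝒱.prod_mem X.mem Y.mem⟩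

/-- The first projection. -/
noncomputable def fst (X Y : 𝒱.Obj) : X.prod Y ⟶ X := SmVar.fst X.V Y.V

/-- The second projection. -/
noncomputable def snd (X Y : 𝒱.Obj) : X.prod Y ⟶ Y := SmVar.snd X.V Y.V

/-- The morphism to the product given by a pair of morphisms. -/
noncomputable def lift {W X Y : 𝒱.Obj} (f : W ⟶ X) (g : W ⟶ Y) : W ⟶ X.prod Y :=
  SmVar.lift (X := X.V) (Y := Y.V) f g

@[reassoc (attr := simp)]
lemma lift_fst {W X Y : 𝒱.Obj} (f : W ⟶ X) (g : W ⟶ Y) : lift f g ≫ fst X Y = f :=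
  SmVar.lift_fst (X := X.V) (Y := Y.V) f g

@[reassoc (attr := simp)]
lemma lift_snd {W X Y : 𝒱.Obj} (f : W ⟶ X) (g : W ⟶ Y) : lift f g ≫ snd X Y = g :=
  SmVar.lift_snd (X := X.V) (Y := Y.V) f g

/-- The diagonal. -/
noncomputable def diag (X : 𝒱.Obj) : X ⟶ X.prod X := lift (𝟙 X) (𝟙 X)

/-- Cycles with rational coefficients. -/
abbrev Cycles (X : 𝒱.Obj) : Type u := X.V.Cycles

/-- The cycle `z` has codimension `p`. -/
abbrev IsCyc (X : 𝒱.Obj) (p : ℕ) (z : X.Cycles) : Prop := X.V.IsCyc p z

@[simp] lemma dim_prod (X Y : 𝒱.Obj) : (X.prod Y).dim = X.dim + Y.dim := rfl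

end Obj

end VarClass

variable {k : Type u} [Field k]

open VarClass

/-- A choice of cycles representing the intersection product, the pull-backs and the push-forwards
of cycles (in the intended use: representatives of the corresponding operations on the Chow groups
with rational coefficients). Nothing but the codimensions is recorded here: what the operations
mean is fixed by the Weil cohomology theories compatible with them, see `WeilCohomology`. -/
structure CycleOps (𝒱 : VarClass k) where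
  /-- intersection product -/
  mul : ∀ {X : 𝒱.Obj}, X.Cycles → X.Cycles → X.Cycles
  /-- pull-back -/
  pull : ∀ {X Y : 𝒱.Obj}, (X ⟶ Y) → Y.Cycles → X.Cycles
  /-- push-forward -/
  push : ∀ {X Y : 𝒱.Obj}, (X ⟶ Y) → X.Cycles → Y.Cycles
  mul_mem : ∀ {X : 𝒱.Obj} {p q : ℕ} {z w : X.Cycles}, X.IsCyc p z → X.IsCyc q w →
    X.IsCyc (p + q) (mul z w)
  pull_mem : ∀ {X Y : 𝒱.Obj} (f : X ⟶ Y) {p : ℕ} {z : Y.Cycles}, Y.IsCyc p z →
    X.IsCyc p (pull f z)
  push_mem : ∀ {X Y : 𝒱.Obj} (f : X ⟶ Y) {p q : ℕ} {z : X.Cycles}, X.IsCyc p z →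
    p + Y.dim = q + X.dim → Y.IsCyc q (push f z)

section Alg

variable {K : Type*} [Field K] {A : Type*} [Ring A] [Algebra K A] {B : Type*} [Ring B]
  [Algebra K B] {C : Type*} [Ring C] [Algebra K C]

/-- The `K`-algebra `A` with the subspaces `gr i` and the orientation `tr` is a finite-dimensional
graded-commutative algebra with `gr 0 = K`, vanishing in degrees above `2n`, which satisfies
Poincare duality in dimension `2n`. -/
structure IsPoincareAlgebra (gr : ℕ → Submodule K A) (n : ℕ) (tr : A →ₗ[K] K) : Prop where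
  finite : Module.Finite K A
  isInternal : DirectSum.IsInternal gr
  one_mem : 1 ∈ gr 0
  mul_mem : ∀ {i j : ℕ} {a b : A}, a ∈ gr i → b ∈ gr j → a * b ∈ gr (i + j)
  comm : ∀ {i j : ℕ} {a b : A}, a ∈ gr i → b ∈ gr j → a * b = (-1 : K) ^ (i * j) • (b * a)
  gr_zero : gr 0 = Submodule.span K {1}
  gr_eq_bot : ∀ i, 2 * n < i → gr i = ⊥
  tr_eq_zero : ∀ {i : ℕ} {a : A}, a ∈ gr i → i ≠ 2 * n → tr a = 0
  nondeg : ∀ a : A, (∀ b, tr (a * b) = 0) → a = 0

/-- The algebra homomorphism `f` preserves the degrees, and `g` is its Poincare dual. -/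
structure IsPullPush (grA : ℕ → Submodule K A) (grB : ℕ → Submodule K B) (trA : A →ₗ[K] K)
    (trB : B →ₗ[K] K) (f : B →ₐ[K] A) (g : A →ₗ[K] B) : Prop where
  map_mem : ∀ {i : ℕ} {b : B}, b ∈ grB i → f b ∈ grA i
  tr_push : ∀ (a : A) (b : B), trB (g a * b) = trA (a * f b)

/-- The Kunneth map `A ⊗ B → C`, `a ⊗ b ↦ p(a) q(b)`. -/
noncomputable def kunnethMap (p : A →ₐ[K] C) (q : B →ₐ[K] C) : TensorProduct K A B →ₗ[K] C :=
  TensorProduct.lift ((LinearMap.mul K C).compl₁₂ p.toLinearMap q.toLinearMap)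

/-- The Kunneth formula, and the compatibility of the orientations with external products. -/
structure IsKunneth (p : A →ₐ[K] C) (q : B →ₐ[K] C) (trA : A →ₗ[K] K) (trB : B →ₗ[K] K)
    (trC : C →ₗ[K] K) : Prop where
  bijective : Function.Bijective (kunnethMap p q)
  tr_prod : ∀ (a : A) (b : B), trC (p a * q b) = trA a * trB b

/-- A cycle class map: cycles of codimension `p` have classes in degree `2p`, the fundamental
cycle has class `1`, and the orientation of the class of a zero-cycle is its degree. -/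
structure IsCycleMap (X : SmVar k) (gr : ℕ → Submodule K A) (tr : A →ₗ[K] K)
    (cl : X.Cycles →+ A) : Prop where
  cl_mem : ∀ {p : ℕ} {z : X.Cycles}, X.IsCyc p z → cl z ∈ gr (2 * p)
  cl_fund : cl X.fundCycle = 1
  tr_cl : ∀ {z : X.Cycles}, X.IsCyc X.dim z → tr (cl z) = (X.degCycle z : K)

/-- The operator `a ↦ s(c p(a))`. -/
noncomputable def corrOp (p : A →ₐ[K] C) (s : C →ₗ[K] B) (c : C) : A →ₗ[K] B :=
  s ∘ₗ LinearMap.mulLeft K c ∘ₗ p.toLinearMap

end Alg

/-- The data of a Weil cohomology theory on the varieties of the class `𝒱`: a coefficient field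
`K` of characteristic zero, `K`-algebras `H(X)` with subspaces `H^i(X)`, pull-backs,
orientations, push-forwards and cycle class maps. -/
structure WeilData (𝒱 : VarClass k) where
  /-- the coefficient field -/
  K : Type v
  [field : Field K]
  [charZero : CharZero K]
  /-- the cohomology algebra -/
  H : 𝒱.Obj → Type v
  [ring : ∀ X, Ring (H X)]
  [algebra : ∀ X, Algebra K (H X)]
  /-- the grading: `gr X i` is `H^i(X)` -/
  gr : ∀ X, ℕ → Submodule K (H X)
  /-- pull-back in cohomology -/
  map : ∀ {X Y : 𝒱.Obj}, (X ⟶ Y) → (H Y →ₐ[K] H X)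
  /-- the orientation (trace) -/
  tr : ∀ X, H X →ₗ[K] K
  /-- push-forward in cohomology -/
  push : ∀ {X Y : 𝒱.Obj}, (X ⟶ Y) → (H X →ₗ[K] H Y)
  /-- the cycle class map -/
  cl : ∀ X : 𝒱.Obj, X.Cycles →+ H X

attribute [instance] WeilData.field WeilData.charZero WeilData.ring WeilData.algebra

/-- Pull-back is a functor to graded algebras, with push-forward as its Poincare dual. -/
structure IsFunctorial {𝒱 : VarClass k} (W : WeilData.{u, v} 𝒱) : Prop where
  map_id : ∀ (X : 𝒱.Obj), W.map (𝟙 X) = AlgHom.id W.K (W.H X)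
  map_comp : ∀ {X Y Z : 𝒱.Obj} (f : X ⟶ Y) (g : Y ⟶ Z), W.map (f ≫ g) = (W.map f).comp (W.map g)
  isPullPush : ∀ {X Y : 𝒱.Obj} (f : X ⟶ Y),
    IsPullPush (W.gr X) (W.gr Y) (W.tr X) (W.tr Y) (W.map f) (W.push f)

/-- The cycle class maps are compatible with the operations on cycles. -/
structure IsCompatible {𝒱 : VarClass k} (ops : CycleOps 𝒱) (W : WeilData.{u, v} 𝒱) : Prop where
  cl_mul : ∀ {X : 𝒱.Obj} (z w : X.Cycles), W.cl X (ops.mul z w) = W.cl X z * W.cl X w
  cl_pull : ∀ {X Y : 𝒱.Obj} (f : X ⟶ Y) (z : Y.Cycles),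
    W.cl X (ops.pull f z) = W.map f (W.cl Y z)
  cl_push : ∀ {X Y : 𝒱.Obj} (f : X ⟶ Y) (z : X.Cycles),
    W.cl Y (ops.push f z) = W.push f (W.cl X z)

/-- A Weil cohomology theory on the varieties of the class `𝒱` over `k`, with coefficients in a
field `K` of characteristic zero and with Tate twists suppressed, whose cycle class maps are
compatible with the operations `ops` on cycles. No Lefschetz theorem is required. -/
structure WeilCohomology {𝒱 : VarClass k} (ops : CycleOps 𝒱) extends WeilData.{u, v} 𝒱 where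
  isPoincareAlgebra : ∀ X, IsPoincareAlgebra (gr X) X.dim (tr X)
  isFunctorial : IsFunctorial toWeilData
  isKunneth : ∀ X Y : 𝒱.Obj, IsKunneth (toWeilData.map (Obj.fst X Y))
    (toWeilData.map (Obj.snd X Y)) (tr X) (tr Y) (tr (X.prod Y))
  isCycleMap : ∀ X : 𝒱.Obj, IsCycleMap X.V (gr X) (tr X) (cl X)
  isCompatible : IsCompatible ops toWeilData

namespace WeilCohomology

variable {𝒱 : VarClass k} {ops : CycleOps 𝒱} (W : WeilCohomology.{u, v} ops)

instance finite (X : 𝒱.Obj) : Module.Finite W.K (W.H X) := (W.isPoincareAlgebra X).finite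

end WeilCohomology

end Pool.Agent.H914
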